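import Pool.Agent.N13.QC.Defs2
import Pool.Agent.TH652.Dual2

/-!
The ranks of the simplicial volume on the homology of the full subcomplexes, and the span of the squares.
-/

set_option autoImplicit false
set_option linter.unusedSectionVars false

open scoped Classical

namespace Pool.Agent.Helper41.SE

open Pool.Agent.W907.SG (W beta)
open Pool.Agent.TH652.Dual (triv)
open Pool.Agent.Q134.SV (IsCyc par)
open Pool.Agent.N13.QC (svol)

section

variable {V : Type} [Fintype V]

/-- the graph on the vertices in `S` -/
abbrev ind (G : SimpleGraph V) (S : Set V) : SimpleGraph {v // v ∈ S} := G.comap Subtype.val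

/-- `Z` is a space of `(p-1)`-cycles of the full subcomplex on `S`, and all its nonzero elements have
positive simplicial volume with respect to a subgroup of finite index of the special subgroup of `S`
which consists of elements of even length -/
structure PosOn (G : SimpleGraph V) (S : Set V) (p : ℕ)
    (Z : Submodule ℝ ((Fin p → {v // v ∈ S}) → ℝ)) : Prop where
  cyc : ∀ z ∈ Z, IsCyc p (ind G S) z
  pos : ∀ z ∈ Z, z ≠ 0 → ∃ K : Subgroup (W (ind G S)), K.index ≠ 0 ∧
      K ≤ (par (ind G S)).ker ∧ 0 < svol (ind G S) p z K

/-- the largest dimension of a space of `(p-1)`-cycles of the full subcomplex on `S`, on which the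
simplicial volume is definite -/
noncomputable def rk (G : SimpleGraph V) (S : Set V) (p : ℕ) : ℕ :=
  sSup {r | ∃ Z : Submodule ℝ ((Fin p → {v // v ∈ S}) → ℝ), PosOn G S p Z ∧
    r = Module.finrank ℝ Z}

/-- the Betti number of degree `p - 1` minus the rank of the simplicial volume -/
noncomputable def nul [LinearOrder V] (G : SimpleGraph V) (S : Set V) (p : ℕ) : ℕ :=
  beta G (triv V) S ∅ p - rk G S p

end

/-- the degrees `p ≤ n` with `p ≡ e mod 2` -/
def degs (n e : ℕ) : Finset ℕ := (Finset.range (n + 1)).filter fun p => p % 2 = e % 2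

/-- the even degrees `p` with `4 ≤ p ≤ n` -/
def evs (n : ℕ) : Finset ℕ := (Finset.range (n + 1)).filter fun p => p % 2 = 0 ∧ 4 ≤ p

section

variable {V : Type}

/-- the oriented edge, as an antisymmetric function of two vertices -/
noncomputable def oe (x y : V) : V → V → ℝ := fun s t =>
  (if s = x ∧ t = y then 1 else 0) - (if s = y ∧ t = x then 1 else 0)

/-- the span of the boundaries of the triangles in `S` -/
noncomputable def triSpan (G : SimpleGraph V) (S : Set V) : Submodule ℝ (V → V → ℝ) :=
  Submodule.span ℝ {c | ∃ x y z, x ∈ S ∧ y ∈ S ∧ z ∈ S ∧ G.Adj x y ∧ G.Adj y z ∧ G.Adj x z ∧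
    c = oe x y + oe y z + oe z x}

/-- the span of the closed walks of length four in `S` -/
noncomputable def sqSpan (G : SimpleGraph V) (S : Set V) : Submodule ℝ (V → V → ℝ) :=
  Submodule.span ℝ {c | ∃ x y z w, x ∈ S ∧ y ∈ S ∧ z ∈ S ∧ w ∈ S ∧ G.Adj x y ∧ G.Adj y z ∧
    G.Adj z w ∧ G.Adj w x ∧ c = oe x y + oe y z + oe z w + oe w x}

/-- the dimension of the span of the closed walks of length four in `S` modulo the boundaries of the
triangles in `S`, i.e. in the first homology of the full subcomplex on `S` -/
noncomputable def sqr (G : SimpleGraph V) (S : Set V) : ℕ :=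
  Module.finrank ℝ (triSpan G S ⊔ sqSpan G S : Submodule ℝ (V → V → ℝ)) -
    Module.finrank ℝ (triSpan G S)

end

end Pool.Agent.Helper41.SE
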