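import Pool.Agent.Helper41.SD.D8

/-!
Alternating functions of tuples and functions of finite sets.
-/

set_option autoImplicit false
set_option linter.unusedSectionVars false

open scoped Classical

namespace Pool.Agent.Helper41.SE

open Pool.Agent.W907.SG Pool.Agent.W907.SM Module Pool.Agent.TH652.Dual
open Pool.Agent.Q134.SV (IsCyc alt_self pair)

variable {V : Type}

/-- alternating functions -/
def Alt {n : ℕ} (a : (Fin n → V) → ℝ) : Prop :=
  ∀ (v : Fin n → V) (i j : Fin n), i ≠ j → a (v ∘ Equiv.swap i j) = - a v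

theorem Alt.perm {n : ℕ} {a : (Fin n → V) → ℝ} (h : Alt a) (v : Fin n → V)
    (σ : Equiv.Perm (Fin n)) : a (v ∘ σ) = (Equiv.Perm.sign σ : ℝ) * a v := by
  refine Equiv.Perm.swap_induction_on' σ ?_ ?_
  · simp
  · intro f x y hxy hf
    rw [Equiv.Perm.coe_mul, ← Function.comp_assoc, h (v ∘ f) x y hxy, hf, map_mul,
      Equiv.Perm.sign_swap hxy]
    simp

theorem Alt.noninj {n : ℕ} {a : (Fin n → V) → ℝ} (h : Alt a) {v : Fin n → V}
    (hv : ¬ Function.Injective v) : a v = 0 := by
  unfold Function.Injective at hv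
  push Not at hv
  obtain ⟨i, j, hij, hne⟩ := hv
  exact alt_self h v hne hij

theorem swap_cons {n : ℕ} (s : V) (u : Fin n → V) (i j : Fin n) :
    (Fin.cons s (u ∘ Equiv.swap i j) : Fin (n + 1) → V) =
      (Fin.cons s u : Fin (n + 1) → V) ∘ Equiv.swap i.succ j.succ := by
  funext l
  refine Fin.cases ?_ (fun l => ?_) l
  · simp only [Function.comp_apply]
    rw [Equiv.swap_apply_of_ne_of_ne (Fin.succ_ne_zero _).symm (Fin.succ_ne_zero _).symm]
    rfl
  · simp only [Function.comp_apply, Fin.cons_succ]
    rcases eq_or_ne l i with rfl | h1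
    · rw [Equiv.swap_apply_left, Equiv.swap_apply_left]; rfl
    · rcases eq_or_ne l j with rfl | h2
      · rw [Equiv.swap_apply_right, Equiv.swap_apply_right]; rfl
      · rw [Equiv.swap_apply_of_ne_of_ne h1 h2, Equiv.swap_apply_of_ne_of_ne]
        · rfl
        · intro h
          exact h1 (Fin.succ_injective _ h)
        · intro h
          exact h2 (Fin.succ_injective _ h)

theorem Alt.cons {n : ℕ} {a : (Fin (n + 1) → V) → ℝ} (h : Alt a) (s : V) :
    Alt fun u : Fin n → V => a (Fin.cons s u) := by
  intro u i j hij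
  change a (Fin.cons s (u ∘ Equiv.swap i j)) = _
  rw [swap_cons, h _ _ _ fun e => hij (Fin.succ_injective _ e)]

theorem Alt.insertNth {n : ℕ} {a : (Fin (n + 1) → V) → ℝ} (h : Alt a) (p : Fin (n + 1)) (x : V)
    (u : Fin n → V) : a (Fin.cons x u) = (-1) ^ (p : ℕ) * a (p.insertNth (α := fun _ => V) x u) := by
  rw [← Fin.insertNth_comp_cycleRange_symm p x u, h.perm, Equiv.Perm.sign_symm, Fin.sign_cycleRange]
  simp

theorem swap_cons_cons {n : ℕ} (x y : V) (u : Fin n → V) :
    (Fin.cons x (Fin.cons y u) : Fin (n + 2) → V) ∘ Equiv.swap 0 1 =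
      Fin.cons y (Fin.cons x u) := by
  funext l
  refine Fin.cases ?_ (fun l => Fin.cases ?_ (fun l => ?_) l) l
  · simp only [Function.comp_apply]
    rw [Equiv.swap_apply_left]
    rfl
  · simp only [Function.comp_apply]
    have : (Fin.succ 0 : Fin (n + 2)) = 1 := rfl
    rw [this, Equiv.swap_apply_right]
    rfl
  · simp only [Function.comp_apply]
    rw [Equiv.swap_apply_of_ne_of_ne (Fin.succ_ne_zero _) (by
      intro h
      exact (Fin.succ_ne_zero _) (Fin.succ_injective _ h))]
    rfl

theorem Alt.swap01 {n : ℕ} {a : (Fin (n + 2) → V) → ℝ} (h : Alt a) (x y : V) (u : Fin n → V) :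
    a (Fin.cons x (Fin.cons y u)) = - a (Fin.cons y (Fin.cons x u)) := by
  rw [← swap_cons_cons y x u, h _ 0 1 (by simp)]

variable [Fintype V] [LinearOrder V]

/-- the set of the entries -/
def fs {n : ℕ} (w : Fin n → V) : Finset V := Finset.univ.image w

omit [Fintype V] in
theorem mem_fs {n : ℕ} {w : Fin n → V} {x : V} : x ∈ fs w ↔ ∃ i, w i = x := by
  unfold fs
  rw [Finset.mem_image]
  simp

omit [Fintype V] in
theorem fs_cons {n : ℕ} (x : V) (w : Fin n → V) :
    fs (Fin.cons x w : Fin (n + 1) → V) = insert x (fs w) := by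
  ext y
  rw [Finset.mem_insert, mem_fs, mem_fs]
  constructor
  · rintro ⟨i, rfl⟩
    refine Fin.cases ?_ (fun i => ?_) i
    · exact Or.inl rfl
    · exact Or.inr ⟨i, rfl⟩
  · rintro (rfl | ⟨i, rfl⟩)
    · exact ⟨0, rfl⟩
    · exact ⟨i.succ, rfl⟩

omit [Fintype V] in
theorem fs_card {n : ℕ} {w : Fin n → V} (hw : Function.Injective w) : (fs w).card = n := by
  unfold fs
  rw [Finset.card_image_of_injective _ hw]
  simp

/-- the values at the sorted tuples -/
noncomputable def oo {n : ℕ} (a : (Fin n → V) → ℝ) : Finset V → ℝ := fun T =>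
  if h : T.card = n then a (T.orderEmbOfFin h) else 0

omit [Fintype V] in
theorem oo_fs {n : ℕ} (a : (Fin n → V) → ℝ) {w : Fin n → V} (hw : StrictMono w) :
    oo a (fs w) = a w := by
  unfold oo
  rw [dif_pos (fs_card hw.injective)]
  congr 1
  refine (Finset.orderEmbOfFin_unique _ (f := w) ?_ hw).symm
  intro i
  exact mem_fs.2 ⟨i, rfl⟩

omit [Fintype V] in
theorem oo_card {n : ℕ} (a : (Fin n → V) → ℝ) {T : Finset V} (h : T.card ≠ n) : oo a T = 0 :=
  dif_neg h

omit [Fintype V] in
theorem exists_fs {n : ℕ} {T : Finset V} (h : T.card = n) :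
    ∃ w : Fin n → V, StrictMono w ∧ T = fs w := by
  refine ⟨T.orderEmbOfFin h, (T.orderEmbOfFin h).strictMono, ?_⟩
  rw [fs]
  exact (Finset.image_orderEmbOfFin_univ T h).symm

/-- insertion of an element in a sorted tuple -/
theorem exists_ins : ∀ (n : ℕ) (u : Fin n → V), StrictMono u → ∀ v, v ∉ fs u →
    ∃ w : Fin (n + 1) → V, StrictMono w ∧ fs w = insert v (fs u) ∧
      ∀ a : (Fin (n + 1) → V) → ℝ, Alt a → (sg v (fs u) : ℝ) * a w = a (Fin.cons v u)
  | 0, u, hu, v, hv => by
    refine ⟨Fin.cons v u, ?_, fs_cons v u, ?_⟩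
    · intro i j hij
      exact absurd hij (by rw [Subsingleton.elim (α := Fin 1) i j]; exact lt_irrefl _)
    · intro a ha
      have : fs u = ∅ := by
        unfold fs
        simp
      rw [this]
      simp [sg]
  | n + 1, u, hu, v, hv => by
    obtain ⟨t, u', rfl⟩ : ∃ t u', u = (Fin.cons t u' : Fin (n + 1) → V) :=
      ⟨u 0, Fin.tail u, (Fin.cons_self_tail u).symm⟩
    have hu' : StrictMono u' := by
      intro i j hij
      have := hu (Fin.succ_lt_succ_iff.2 hij)
      simpa using this
    have ht : ∀ x ∈ fs u', t < x := by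
      intro x hx
      obtain ⟨i, rfl⟩ := mem_fs.1 hx
      have := hu (Fin.succ_pos i)
      simpa using this
    have htn : t ∉ fs u' := fun h => lt_irrefl _ (ht t h)
    rw [fs_cons] at hv ⊢
    have hvt : v ≠ t := fun e => hv (by rw [e]; exact Finset.mem_insert_self _ _)
    have hvu : v ∉ fs u' := fun h => hv (Finset.mem_insert_of_mem h)
    rcases lt_or_gt_of_ne hvt with h | h
    · refine ⟨Fin.cons v (Fin.cons t u'), ?_, ?_, ?_⟩
      · rw [Fin.strictMono_iff_lt_succ]
        intro i
        refine Fin.cases ?_ (fun i => ?_) i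
        · exact h
        · have := hu (show i.castSucc < i.succ from Fin.castSucc_lt_succ)
          exact this
      · rw [fs_cons, fs_cons]
      · intro a ha
        have : sg v (insert t (fs u')) = 1 := by
          unfold sg
          rw [Finset.filter_eq_empty_iff.2, Finset.card_empty, pow_zero]
          intro x hx
          rw [Finset.mem_insert] at hx
          rcases hx with rfl | hx
          · exact not_lt.2 h.le
          · exact not_lt.2 (h.trans (ht x hx)).le
        rw [this]
        simp
    · obtain ⟨w, hw1, hw2, hw3⟩ := exists_ins n u' hu' v hvu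
      refine ⟨Fin.cons t w, ?_, ?_, ?_⟩
      · have hlt : ∀ i, t < w i := by
          intro i
          have : w i ∈ insert v (fs u') := by
            rw [← hw2]
            exact mem_fs.2 ⟨i, rfl⟩
          rw [Finset.mem_insert] at this
          rcases this with e | e
          · rw [e]
            exact h
          · exact ht _ e
        rw [Fin.strictMono_iff_lt_succ]
        intro i
        refine Fin.cases ?_ (fun i => ?_) i
        · exact hlt 0
        · have := hw1 (show i.castSucc < i.succ from Fin.castSucc_lt_succ)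
          exact this
      · rw [fs_cons, hw2, Finset.insert_comm]
      · intro a ha
        have h1 := hw3 (fun w => a (Fin.cons t w)) (ha.cons t)
        rw [sg_insert v t _ htn, if_pos h, ha.swap01 v t u', ← h1]
        push_cast
        ring

theorem oo_insert {n : ℕ} {a : (Fin (n + 1) → V) → ℝ} (ha : Alt a) {u : Fin n → V}
    (hu : StrictMono u) {v : V} (hv : v ∉ fs u) :
    (sg v (fs u) : ℝ) * oo a (insert v (fs u)) = a (Fin.cons v u) := by
  obtain ⟨w, h1, h2, h3⟩ := exists_ins n u hu v hv
  rw [← h2, oo_fs a h1]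
  exact h3 a ha

omit [Fintype V] in
/-- the sorted tuple of an injective tuple -/
theorem sort_mono {n : ℕ} {w : Fin n → V} (hw : Function.Injective w) :
    StrictMono (w ∘ Tuple.sort w) :=
  (Tuple.monotone_sort w).strictMono_of_injective (hw.comp (Tuple.sort w).injective)

omit [Fintype V] in
theorem fs_comp {n : ℕ} (w : Fin n → V) (σ : Equiv.Perm (Fin n)) : fs (w ∘ σ) = fs w := by
  ext x
  rw [mem_fs, mem_fs]
  constructor
  · rintro ⟨i, rfl⟩
    exact ⟨σ i, rfl⟩
  · rintro ⟨i, rfl⟩
    exact ⟨σ.symm i, by simp⟩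

theorem alt_ext {n : ℕ} {a b : (Fin n → V) → ℝ} (ha : Alt a) (hb : Alt b)
    (h : ∀ w, StrictMono w → a w = b w) : a = b := by
  funext w
  by_cases hw : Function.Injective w
  · have h1 := h _ (sort_mono hw)
    rw [ha.perm, hb.perm] at h1
    rcases Int.units_eq_one_or (Equiv.Perm.sign (Tuple.sort w)) with e | e
    · rw [e] at h1
      simpa using h1
    · rw [e] at h1
      simpa using h1
  · rw [ha.noninj hw, hb.noninj hw]

/-- the alternating function with given values at the sorted tuples -/
noncomputable def Ex {n : ℕ} (y : Finset V → ℝ) : (Fin n → V) → ℝ := fun w =>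
  if Function.Injective w then (Equiv.Perm.sign (Tuple.sort w) : ℝ) * y (fs w) else 0

theorem Ex_alt {n : ℕ} (y : Finset V → ℝ) : Alt (Ex (n := n) y) := by
  intro w i j hij
  unfold Ex
  by_cases hw : Function.Injective w
  · have hw' : Function.Injective (w ∘ Equiv.swap i j) := hw.comp (Equiv.swap i j).injective
    rw [if_pos hw, if_pos hw', fs_comp]
    have h1 : (w ∘ Equiv.swap i j) ∘ Tuple.sort (w ∘ Equiv.swap i j) = w ∘ Tuple.sort w :=
      Tuple.comp_perm_comp_sort_eq_comp_sort
    have h2 : Equiv.swap i j * Tuple.sort (w ∘ Equiv.swap i j) = Tuple.sort w := by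
      ext k
      have := congrFun h1 k
      exact congrArg _ (hw this)
    rw [← h2, map_mul, Equiv.Perm.sign_swap hij]
    push_cast
    ring
  · have hw' : ¬ Function.Injective (w ∘ Equiv.swap i j) := by
      intro h
      apply hw
      have := h.comp (Equiv.swap i j).injective
      rwa [Function.comp_assoc, ← Equiv.Perm.coe_mul, Equiv.swap_mul_self, Equiv.Perm.coe_one,
        Function.comp_id] at this
    rw [if_neg hw, if_neg hw', neg_zero]

theorem Ex_sorted {n : ℕ} (y : Finset V → ℝ) {w : Fin n → V} (hw : StrictMono w) :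
    Ex y w = y (fs w) := by
  unfold Ex
  have h : Tuple.sort w = Equiv.refl _ := Tuple.sort_eq_refl_iff_monotone.2 hw.monotone
  rw [if_pos hw.injective, h]
  simp

end Pool.Agent.Helper41.SE
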