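import Pool.Agent.Helper41.SE.E1

/-!
The formula of Stokes for chains which are not cycles.
-/

set_option autoImplicit false
set_option linter.unusedSectionVars false

open scoped Classical

namespace Pool.Agent.Helper41.SE

open Pool.Agent.Q134.SV (IsCyc alt_self pair cobd gen)

variable {V : Type} [Fintype V] {G : SimpleGraph V}

/-- the middle faces cancel -/
theorem mid_face {Γ : Type} [Group Γ] {m : ℕ} (γ : V → Γ)
    (hcomm : ∀ x y, G.Adj x y → γ x * γ y = γ y * γ x) {Y : (Fin (m + 1) → V) → ℝ} (alt : Alt Y)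
    (supp : ∀ v, Y v ≠ 0 → ∀ i j, i ≠ j → G.Adj (v i) (v j)) (b : (Fin (m + 1) → Γ) → ℝ)
    (k : Fin m) : ∑ v : Fin (m + 1) → V, Y v *
      b (Fin.partialProd (Fin.contractNth k.castSucc (· * ·) (γ ∘ v))) = 0 := by
  have hne : k.castSucc ≠ k.succ := (Fin.castSucc_lt_succ).ne
  set σ := Equiv.swap k.castSucc k.succ with hσ
  have h1 : ∑ v : Fin (m + 1) → V, Y v *
      b (Fin.partialProd (Fin.contractNth k.castSucc (· * ·) (γ ∘ v))) =
      ∑ v : Fin (m + 1) → V, - (Y v *
      b (Fin.partialProd (Fin.contractNth k.castSucc (· * ·) (γ ∘ v)))) := by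
    rw [← Equiv.sum_comp (Equiv.arrowCongr σ (Equiv.refl V))]
    refine Finset.sum_congr rfl fun v _ => ?_
    have e1 : (Equiv.arrowCongr σ (Equiv.refl V)) v = v ∘ σ := by
      funext l
      simp [Equiv.arrowCongr, hσ]
    rw [e1, alt v _ _ hne]
    by_cases h0 : Y v = 0
    · rw [h0]; simp
    · have hadj := supp v h0 _ _ hne
      have e2 : Fin.contractNth k.castSucc (· * ·) (γ ∘ v ∘ σ) =
          Fin.contractNth k.castSucc (· * ·) (γ ∘ v) := by
        funext l
        rcases lt_trichotomy (l : ℕ) (k : ℕ) with h | h | h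
        · rw [Fin.contractNth_apply_of_lt _ _ _ _ (by simpa using h),
            Fin.contractNth_apply_of_lt _ _ _ _ (by simpa using h)]
          simp only [Function.comp_apply, hσ]
          rw [Equiv.swap_apply_of_ne_of_ne]
          · intro e; rw [Fin.ext_iff] at e; simp at e; omega
          · intro e; rw [Fin.ext_iff] at e; simp at e; omega
        · rw [Fin.contractNth_apply_of_eq _ _ _ _ (by simpa using h),
            Fin.contractNth_apply_of_eq _ _ _ _ (by simpa using h)]
          have : l = k := Fin.ext h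
          subst this
          simp only [Function.comp_apply, hσ, Equiv.swap_apply_left, Equiv.swap_apply_right]
          exact (hcomm _ _ hadj).symm
        · rw [Fin.contractNth_apply_of_gt _ _ _ _ (by simpa using h),
            Fin.contractNth_apply_of_gt _ _ _ _ (by simpa using h)]
          simp only [Function.comp_apply, hσ]
          rw [Equiv.swap_apply_of_ne_of_ne]
          · intro e; rw [Fin.ext_iff] at e; simp at e; omega
          · intro e; rw [Fin.ext_iff] at e; simp at e; omega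
      rw [e2]
      ring
  rw [Finset.sum_neg_distrib] at h1
  linarith

/-- the boundary of an alternating chain -/
noncomputable def bnd {m : ℕ} (Y : (Fin (m + 1) → V) → ℝ) : (Fin m → V) → ℝ :=
  fun u => ∑ x, Y (Fin.cons x u)

theorem stokes2 {Γ : Type} [Group Γ] {m : ℕ} (γ : V → Γ)
    (hcomm : ∀ x y, G.Adj x y → γ x * γ y = γ y * γ x) {Y : (Fin (m + 1) → V) → ℝ} (alt : Alt Y)
    (supp : ∀ v, Y v ≠ 0 → ∀ i j, i ≠ j → G.Adj (v i) (v j)) (b : (Fin (m + 1) → Γ) → ℝ)
    (hb : ∀ x g, b (fun i => γ x * g i) = - b g) :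
    pair γ Y (cobd b) = -2 * pair γ (bnd Y) b := by
  have hP : pair γ (bnd Y) b = ∑ u : Fin m → V, ∑ x, Y (Fin.cons x u) *
      b (Fin.partialProd (γ ∘ u)) := by
    unfold pair bnd
    refine Finset.sum_congr rfl fun u _ => ?_
    rw [Finset.sum_mul]
  have e0 : ∀ i : Fin (m + 2), ∑ v : Fin (m + 1) → V, Y v * ((-1) ^ (i : ℕ) *
      b (Fin.partialProd (γ ∘ v) ∘ i.succAbove)) = (-1) ^ (i : ℕ) *
      ∑ v : Fin (m + 1) → V, Y v * b (Fin.partialProd (γ ∘ v) ∘ i.succAbove) := by
    intro i
    rw [Finset.mul_sum]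
    exact Finset.sum_congr rfl fun v _ => by ring
  have hstart : pair γ Y (cobd b) = ∑ i : Fin (m + 2), (-1) ^ (i : ℕ) *
      ∑ v : Fin (m + 1) → V, Y v * b (Fin.partialProd (γ ∘ v) ∘ i.succAbove) := by
    unfold pair cobd
    simp only [Finset.mul_sum]
    rw [Finset.sum_comm]
    refine Finset.sum_congr rfl fun i _ => ?_
    refine Finset.sum_congr rfl fun v _ => ?_
    ring
  have hfirst : ∑ v : Fin (m + 1) → V, Y v *
      b (Fin.partialProd (γ ∘ v) ∘ (0 : Fin (m + 2)).succAbove) = - pair γ (bnd Y) b := by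
    rw [hP, ← Equiv.sum_comp (Fin.insertNthEquiv (fun _ : Fin (m + 1) => V) 0),
      Fintype.sum_prod_type, Finset.sum_comm, ← Finset.sum_neg_distrib]
    refine Finset.sum_congr rfl fun u _ => ?_
    rw [← Finset.sum_neg_distrib]
    refine Finset.sum_congr rfl fun x _ => ?_
    have h1 : ((Fin.insertNthEquiv (fun _ : Fin (m + 1) => V) 0) (x, u)) = Fin.cons x u := by
      change (0 : Fin (m + 1)).insertNth (α := fun _ => V) x u = _
      rw [Fin.insertNth_zero']
    rw [h1]
    have h2 : Fin.partialProd (γ ∘ (Fin.cons x u : Fin (m + 1) → V)) ∘ (0 : Fin (m + 2)).succAbove =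
        fun i => γ x * Fin.partialProd (γ ∘ u) i := by
      funext j
      simp only [Function.comp_apply, Fin.succAbove_zero]
      rw [Fin.partialProd_succ']
      rfl
    rw [h2, hb]
    ring
  have e : ∀ (j : Fin (m + 1)) (v : Fin (m + 1) → V),
      Fin.partialProd (γ ∘ v) ∘ j.succ.succAbove =
        Fin.partialProd (Fin.contractNth j (· * ·) (γ ∘ v)) :=
    fun j v => (Fin.partialProd_contractNth (γ ∘ v) j).symm
  have hlast : ∑ v : Fin (m + 1) → V, Y v *
      b (Fin.partialProd (γ ∘ v) ∘ (Fin.last m).succ.succAbove) =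
        (-1) ^ m * pair γ (bnd Y) b := by
    simp only [e]
    rw [hP, ← Equiv.sum_comp (Fin.insertNthEquiv (fun _ : Fin (m + 1) => V) (Fin.last m)),
      Fintype.sum_prod_type, Finset.sum_comm, Finset.mul_sum]
    refine Finset.sum_congr rfl fun u _ => ?_
    rw [Finset.mul_sum]
    refine Finset.sum_congr rfl fun x _ => ?_
    have h1 : ((Fin.insertNthEquiv (fun _ : Fin (m + 1) => V) (Fin.last m)) (x, u)) =
      (Fin.last m).insertNth (α := fun _ => V) x u := rfl
    have h2 : Fin.contractNth (Fin.last m) (· * ·)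
        (γ ∘ (Fin.insertNthEquiv (fun _ : Fin (m + 1) => V) (Fin.last m)) (x, u)) = γ ∘ u := by
      funext l
      rw [Fin.contractNth_apply_of_lt _ _ _ _ (by simp)]
      simp
    rw [h2, h1, alt.insertNth (Fin.last m) x u, Fin.val_last]
    have h3 : ((-1 : ℝ) ^ m) * (-1) ^ m = 1 := by
      rw [← mul_pow]
      norm_num
    linear_combination (- Y ((Fin.last m).insertNth (α := fun _ => V) x u) *
      b (Fin.partialProd (γ ∘ u))) * h3
  rw [hstart, Fin.sum_univ_succ, hfirst, Fin.sum_univ_castSucc, hlast]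
  have hmid : ∀ k : Fin m, (-1 : ℝ) ^ ((k.castSucc.succ : Fin (m + 2)) : ℕ) *
      ∑ v : Fin (m + 1) → V, Y v * b (Fin.partialProd (γ ∘ v) ∘ k.castSucc.succ.succAbove) = 0 := by
    intro k
    simp only [e]
    rw [mid_face γ hcomm alt supp b k, mul_zero]
  rw [Finset.sum_eq_zero fun k _ => hmid k]
  have h3 : ((-1 : ℝ) ^ m) * (-1) ^ m = 1 := by
    rw [← mul_pow]
    norm_num
  simp only [Fin.val_zero, pow_zero, Fin.val_succ, Fin.val_last, pow_succ]
  linear_combination (- pair γ (bnd Y) b) * h3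

end Pool.Agent.Helper41.SE
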