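import Pool.Agent.N13.QC.Tr

/-!
Positive simplicial volume gives a bounded cocycle: the theorem of Hahn and Banach, and the transfer.
-/

set_option autoImplicit false
set_option linter.unusedSectionVars false

open scoped Classical

namespace Pool.Agent.Helper41.SE

open Pool.Agent.W907.SG (W cox)
open Pool.Agent.Q134.SV Pool.Agent.N13.QC

/-- A bounded cocycle of degree `n` of `W G` with coefficients in the orientation character. -/
structure BC {V : Type} (G : SimpleGraph V) (n : ℕ) (c : (Fin (n + 1) → W G) → ℝ) : Prop where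
  gen : ∀ x g, c (fun i => gen G x * g i) = - c g
  coc : ∀ g : Fin (n + 2) → W G, cobd c g = 0
  bdd : ∃ C : ℝ, ∀ g, |c g| ≤ C

section l1

variable {S : Type}

/-- the `ℓ¹`-norm -/
noncomputable def l1 (z : S →₀ ℝ) : ℝ := z.sum fun _ t => |t|

theorem l1_eq (z : S →₀ ℝ) {s : Finset S} (hs : z.support ⊆ s) : l1 z = ∑ g ∈ s, |z g| :=
  Finsupp.sum_of_support_subset _ hs _ (fun _ _ => abs_zero)

theorem l1_nonneg (z : S →₀ ℝ) : 0 ≤ l1 z := Finset.sum_nonneg fun _ _ => abs_nonneg _

theorem l1_add (x y : S →₀ ℝ) : l1 (x + y) ≤ l1 x + l1 y := by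
  rw [l1_eq (x + y) (s := x.support ∪ y.support) Finsupp.support_add,
    l1_eq x (s := x.support ∪ y.support) Finset.subset_union_left,
    l1_eq y (s := x.support ∪ y.support) Finset.subset_union_right, ← Finset.sum_add_distrib]
  exact Finset.sum_le_sum fun g _ => abs_add_le _ _

theorem l1_smul (c : ℝ) (x : S →₀ ℝ) : l1 (c • x) = |c| * l1 x := by
  rw [l1_eq (c • x) (s := x.support) Finsupp.support_smul, l1_eq x (s := x.support) subset_rfl,
    Finset.mul_sum]
  refine Finset.sum_congr rfl fun g _ => ?_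
  rw [Finsupp.smul_apply, smul_eq_mul, abs_mul]

theorem l1_single (g : S) (t : ℝ) : l1 (Finsupp.single g t) = |t| := by
  unfold l1
  rw [Finsupp.sum_single_index abs_zero]

/-- the distance from a subspace -/
noncomputable def NN (U : Submodule ℝ (S →₀ ℝ)) (z : S →₀ ℝ) : ℝ :=
  sInf {r | ∃ u ∈ U, r = l1 (z + u)}

variable (U : Submodule ℝ (S →₀ ℝ))

theorem NN_bdd (z : S →₀ ℝ) : BddBelow {r | ∃ u ∈ U, r = l1 (z + u)} :=
  ⟨0, by rintro r ⟨u, _, rfl⟩; exact l1_nonneg _⟩

theorem NN_ne (z : S →₀ ℝ) : {r | ∃ u ∈ U, r = l1 (z + u)}.Nonempty := ⟨_, 0, U.zero_mem, rfl⟩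

theorem NN_le (z : S →₀ ℝ) {u : S →₀ ℝ} (hu : u ∈ U) : NN U z ≤ l1 (z + u) :=
  csInf_le (NN_bdd U z) ⟨u, hu, rfl⟩

theorem NN_nonneg (z : S →₀ ℝ) : 0 ≤ NN U z := by
  refine Real.sInf_nonneg ?_
  rintro r ⟨u, _, rfl⟩
  exact l1_nonneg _

theorem NN_le' (z : S →₀ ℝ) : NN U z ≤ l1 z := by
  have := NN_le U z U.zero_mem
  rwa [add_zero] at this

theorem NN_smul_le {c : ℝ} (hc : 0 < c) (x : S →₀ ℝ) : NN U (c • x) ≤ c * NN U x := by
  have h : NN U (c • x) / c ≤ NN U x := by
    refine le_csInf (NN_ne U x) ?_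
    rintro r ⟨u, hu, rfl⟩
    rw [div_le_iff₀ hc]
    have h1 := NN_le U (c • x) (U.smul_mem c hu)
    rw [← smul_add, l1_smul, abs_of_pos hc] at h1
    linarith
  rw [div_le_iff₀ hc] at h
  linarith

theorem NN_smul {c : ℝ} (hc : 0 < c) (x : S →₀ ℝ) : NN U (c • x) = c * NN U x := by
  refine le_antisymm (NN_smul_le U hc x) ?_
  have h := NN_smul_le U (inv_pos.2 hc) (c • x)
  rw [smul_smul, inv_mul_cancel₀ hc.ne', one_smul] at h
  calc c * NN U x ≤ c * (c⁻¹ * NN U (c • x)) := mul_le_mul_of_nonneg_left h hc.le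
    _ = NN U (c • x) := by rw [← mul_assoc, mul_inv_cancel₀ hc.ne', one_mul]

theorem NN_add (x y : S →₀ ℝ) : NN U (x + y) ≤ NN U x + NN U y := by
  have h1 : ∀ r ∈ {r | ∃ u ∈ U, r = l1 (x + u)}, NN U (x + y) - NN U y ≤ r := by
    rintro r ⟨u, hu, rfl⟩
    have h2 : ∀ s ∈ {r | ∃ u ∈ U, r = l1 (y + u)}, NN U (x + y) - l1 (x + u) ≤ s := by
      rintro s ⟨u', hu', rfl⟩
      have h3 := NN_le U (x + y) (U.add_mem hu hu')
      have h4 := l1_add (x + u) (y + u')
      rw [show x + y + (u + u') = x + u + (y + u') by abel] at h3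
      linarith
    have h5 : NN U (x + y) - l1 (x + u) ≤ NN U y := le_csInf (NN_ne U y) h2
    linarith
  have h6 : NN U (x + y) - NN U y ≤ NN U x := le_csInf (NN_ne U x) h1
  linarith

/-- the theorem of Hahn and Banach for the distance from a subspace -/
theorem exists_func (x₀ : S →₀ ℝ) : ∃ g : (S →₀ ℝ) →ₗ[ℝ] ℝ, g x₀ = NN U x₀ ∧ (∀ u ∈ U, g u = 0) ∧
    ∀ s, |g (Finsupp.single s 1)| ≤ 1 := by
  have key : ∃ g : (S →₀ ℝ) →ₗ[ℝ] ℝ, g x₀ = NN U x₀ ∧ ∀ x, g x ≤ NN U x := by
    by_cases hx : x₀ = 0
    · refine ⟨0, ?_, fun x => ?_⟩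
      · rw [hx]
        have h1 := NN_le' U (0 : S →₀ ℝ)
        have h2 := NN_nonneg U (0 : S →₀ ℝ)
        have h3 : l1 (0 : S →₀ ℝ) = 0 := by
          unfold l1
          rw [Finsupp.sum_zero_index]
        rw [h3] at h1
        rw [LinearMap.zero_apply]
        exact le_antisymm h2 h1
      · exact NN_nonneg U x
    · obtain ⟨g, h1, h2⟩ := exists_extension_of_le_sublinear
        (LinearPMap.mkSpanSingleton x₀ (NN U x₀) hx) (NN U) (fun c hc x => NN_smul U hc x)
        (NN_add U) (by
          rintro ⟨x, hx'⟩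
          obtain ⟨t, rfl⟩ := Submodule.mem_span_singleton.1 hx'
          have h0 : (LinearPMap.mkSpanSingleton x₀ (NN U x₀) hx) ⟨t • x₀, hx'⟩ = t • NN U x₀ :=
            LinearPMap.mkSpanSingleton'_apply x₀ (NN U x₀) _ t hx'
          rw [h0]
          change t • NN U x₀ ≤ NN U (t • x₀)
          rw [smul_eq_mul]
          rcases lt_trichotomy t 0 with ht | ht | ht
          · have h3 := mul_nonpos_of_nonpos_of_nonneg ht.le (NN_nonneg U x₀)
            exact h3.trans (NN_nonneg U _)
          · rw [ht, zero_mul]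
            exact NN_nonneg U _
          · rw [NN_smul U ht])
      refine ⟨g, ?_, h2⟩
      have h3 := h1 ⟨x₀, Submodule.mem_span_singleton_self x₀⟩
      exact h3.trans (LinearPMap.mkSpanSingleton'_apply_self x₀ (NN U x₀) _ _)
  obtain ⟨g, h1, h2⟩ := key
  refine ⟨g, h1, fun u hu => ?_, fun s => ?_⟩
  · have h3 : NN U u ≤ 0 := by
      have := NN_le U u (U.neg_mem hu)
      rw [add_neg_cancel] at this
      have h0 : l1 (0 : S →₀ ℝ) = 0 := by
        unfold l1
        rw [Finsupp.sum_zero_index]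
      rwa [h0] at this
    have h4 : NN U (-u) ≤ 0 := by
      have := NN_le U (-u) hu
      rw [neg_add_cancel] at this
      have h0 : l1 (0 : S →₀ ℝ) = 0 := by
        unfold l1
        rw [Finsupp.sum_zero_index]
      rwa [h0] at this
    have h5 := (h2 u).trans h3
    have h6 := (h2 (-u)).trans h4
    rw [map_neg] at h6
    linarith
  · have h3 := (h2 (Finsupp.single s 1)).trans (NN_le' U _)
    have h4 := (h2 (-Finsupp.single s 1)).trans (NN_le' U _)
    rw [l1_single, abs_one] at h3
    rw [show (-Finsupp.single s 1 : S →₀ ℝ) = Finsupp.single s (-1) by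
      rw [Finsupp.single_neg], l1_single, abs_neg, abs_one, Finsupp.single_neg, map_neg] at h4
    rw [abs_le]
    constructor <;> linarith

end l1

variable {V : Type} [Fintype V]

/-- a bounded invariant cocycle which detects the fundamental chain -/
theorem exists_inv (G : SimpleGraph V) (m : ℕ) (z : (Fin m → V) → ℝ) (K : Subgroup (W G))
    (hs : 0 < svol G m z K) : ∃ c : (Fin (m + 1) → W G) → ℝ,
      (∀ h ∈ K, ∀ g, c (fun i => h * g i) = c g) ∧ (∀ g : Fin (m + 2) → W G, cobd c g = 0) ∧
      (∀ g, |c g| ≤ 1) ∧ ((fch G m z K).sum fun g t => t * c g) ≠ 0 := by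
  let ev : ((Fin (m + 1) → W G) → ℝ) → ((Fin (m + 1) → W G) →₀ ℝ) →ₗ[ℝ] ℝ := fun c =>
    Finsupp.linearCombination ℝ c
  have hev : ∀ c z, ev c z = z.sum fun g t => t * c g := fun c z => rfl
  let U : Submodule ℝ ((Fin (m + 1) → W G) →₀ ℝ) :=
    ⨅ c : {c : (Fin (m + 1) → W G) → ℝ // (∀ h ∈ K, ∀ g, c (fun i => h * g i) = c g) ∧
      (∀ g : Fin (m + 2) → W G, cobd c g = 0)}, LinearMap.ker (ev c.1)
  have hU : ∀ u, u ∈ U ↔ ∀ c : (Fin (m + 1) → W G) → ℝ,
      (∀ h ∈ K, ∀ g, c (fun i => h * g i) = c g) → (∀ g : Fin (m + 2) → W G, cobd c g = 0) →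
      ev c u = 0 := by
    intro u
    rw [Submodule.mem_iInf]
    constructor
    · intro h c h1 h2
      exact LinearMap.mem_ker.1 (h ⟨c, h1, h2⟩)
    · intro h c
      exact LinearMap.mem_ker.2 (h c.1 c.2.1 c.2.2)
  obtain ⟨g, g1, g2, g3⟩ := exists_func U (fch G m z K)
  have hN : NN U (fch G m z K) = svol G m z K := by
    unfold NN svol
    congr 1
    ext r
    constructor
    · rintro ⟨u, hu, rfl⟩
      refine ⟨fch G m z K + u, ?_, rfl⟩
      intro c h1 h2
      rw [← hev, ← hev, map_add, (hU u).1 hu c h1 h2, add_zero]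
    · rintro ⟨x, hx, rfl⟩
      refine ⟨x - fch G m z K, ?_, ?_⟩
      · rw [hU]
        intro c h1 h2
        rw [map_sub, hev, hev, hx c h1 h2, sub_self]
      · rw [add_sub_cancel]
        rfl
  refine ⟨fun w => g (Finsupp.single w 1), ?_, ?_, g3, ?_⟩
  · intro h hh w
    have h1 : (Finsupp.single (fun i => h * w i) 1 - Finsupp.single w 1 :
        (Fin (m + 1) → W G) →₀ ℝ) ∈ U := by
      rw [hU]
      intro c h1 _
      rw [map_sub]
      change Finsupp.linearCombination ℝ c _ - Finsupp.linearCombination ℝ c _ = 0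
      rw [Finsupp.linearCombination_single, Finsupp.linearCombination_single, h1 h hh, sub_self]
    have h2 := g2 _ h1
    rw [map_sub] at h2
    linarith
  · intro w
    have h1 : (∑ i : Fin (m + 2), (-1 : ℝ) ^ (i : ℕ) • Finsupp.single (w ∘ i.succAbove) 1 :
        (Fin (m + 1) → W G) →₀ ℝ) ∈ U := by
      rw [hU]
      intro c _ h2
      rw [map_sum, ← h2 w]
      unfold cobd
      refine Finset.sum_congr rfl fun i _ => ?_
      rw [map_smul]
      change _ • Finsupp.linearCombination ℝ c _ = _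
      rw [Finsupp.linearCombination_single, one_smul, smul_eq_mul]
    have h2 := g2 _ h1
    rw [map_sum] at h2
    rw [← h2]
    unfold cobd
    refine Finset.sum_congr rfl fun i _ => ?_
    rw [map_smul, smul_eq_mul]
  · have h1 : ((fch G m z K).sum fun w t => t * g (Finsupp.single w 1)) = g (fch G m z K) := by
      conv_rhs => rw [← Finsupp.sum_single (fch G m z K)]
      rw [Finsupp.sum, Finsupp.sum, map_sum]
      refine Finset.sum_congr rfl fun w _ => ?_
      rw [← smul_eq_mul, ← map_smul, Finsupp.smul_single, smul_eq_mul, mul_one]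
    rw [h1, g1, hN]
    exact hs.ne'

/-- right multiplication on the quotient by left multiplications -/
def rmul {Γ : Type} [Group Γ] (K : Subgroup Γ) (x : Γ) :
    Quotient (QuotientGroup.rightRel K) → Quotient (QuotientGroup.rightRel K) :=
  Quotient.map' (fun g => g * x) (by
    intro a b h
    change (QuotientGroup.rightRel K) _ _ at h
    rw [QuotientGroup.rightRel_apply] at h ⊢
    have : b * x * (a * x)⁻¹ = b * a⁻¹ := by group
    rw [this]
    exact h)

theorem rmul_mk {Γ : Type} [Group Γ] (K : Subgroup Γ) (x g : Γ) :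
    rmul K x (Quotient.mk _ g) = Quotient.mk _ (g * x) := rfl

theorem rmul_rmul {Γ : Type} [Group Γ] (K : Subgroup Γ) (x y : Γ) (h : x * y = 1)
    (q : Quotient (QuotientGroup.rightRel K)) : rmul K y (rmul K x q) = q := by
  induction q using Quotient.inductionOn with
  | h g => rw [rmul_mk, rmul_mk, mul_assoc, h, mul_one]

/-- Positive simplicial volume gives a bounded cocycle with coefficients in the orientation character
which detects the cycle. -/
theorem exists_bc (G : SimpleGraph V) (m : ℕ) (z : (Fin m → V) → ℝ) (K : Subgroup (W G))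
    (hK : K.index ≠ 0) (hε : K ≤ (par G).ker) (hs : 0 < svol G m z K) :
    ∃ c, BC G m c ∧ pair (gen G) z c ≠ 0 := by
  obtain ⟨c, c1, c2, c3, c4⟩ := exists_inv G m z K hs
  have hfi : K.FiniteIndex := ⟨hK⟩
  have hfin : Finite (Quotient (QuotientGroup.rightRel K)) :=
    Finite.of_equiv _ (QuotientGroup.quotientRightRelEquivQuotientLeftRel K).symm
  have hft : Fintype (Quotient (QuotientGroup.rightRel K)) := Fintype.ofFinite _
  let F : (Fin (m + 1) → W G) → W G → ℝ := fun w g => ((par G g : ℤ) : ℝ) * c (fun i => g * w i)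
  have hF : ∀ w, ∀ h ∈ K, ∀ g, F w (h * g) = F w g := by
    intro w h hh g
    simp only [F]
    rw [map_mul, MonoidHom.mem_ker.1 (hε hh), one_mul]
    congr 1
    have h1 : (fun i => h * g * w i) = fun i => h * (g * w i) := by
      funext i
      rw [mul_assoc]
    rw [h1, c1 h hh fun i => g * w i]
  have hF' : ∀ w (g g' : W G), (Quotient.mk (QuotientGroup.rightRel K) g) = Quotient.mk _ g' →
      F w g = F w g' := by
    intro w g g' h
    have h1 := Quotient.exact h
    change (QuotientGroup.rightRel K) _ _ at h1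
    rw [QuotientGroup.rightRel_apply] at h1
    have h2 := hF w _ h1 g
    rw [← h2]
    congr 1
    group
  let cb : (Fin (m + 1) → W G) → ℝ := fun w =>
    ∑ q : Quotient (QuotientGroup.rightRel K), F w q.out
  have hpp : ∀ x : W G, ((par G x : ℤ) : ℝ) * ((par G x : ℤ) : ℝ) = 1 := by
    intro x
    rw [← Int.cast_mul, ← Units.val_mul, Int.units_mul_self]
    simp
  refine ⟨cb, ⟨?_, ?_, ?_⟩, ?_⟩
  · intro x w
    have h1 : ∀ g, F (fun i => gen G x * w i) g = - F w (g * gen G x) := by
      intro g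
      simp only [F]
      rw [map_mul, par_gen]
      have : (fun i => g * (gen G x * w i)) = fun i => g * gen G x * w i := by
        funext i
        rw [mul_assoc]
      rw [this]
      push_cast
      ring
    let e : Quotient (QuotientGroup.rightRel K) ≃ Quotient (QuotientGroup.rightRel K) :=
      { toFun := rmul K (gen G x)
        invFun := rmul K (gen G x)
        left_inv := fun q => rmul_rmul K _ _ (gen_sq G x) q
        right_inv := fun q => rmul_rmul K _ _ (gen_sq G x) q }
    change ∑ q : Quotient (QuotientGroup.rightRel K), F (fun i => gen G x * w i) q.out =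
      - ∑ q : Quotient (QuotientGroup.rightRel K), F w q.out
    rw [← Equiv.sum_comp e (fun q => F w q.out), ← Finset.sum_neg_distrib]
    refine Finset.sum_congr rfl fun q _ => ?_
    rw [h1]
    congr 1
    apply hF'
    rw [Quotient.out_eq]
    change _ = rmul K (gen G x) q
    conv_rhs => rw [← Quotient.out_eq q]
    rw [rmul_mk]
  · intro w
    have h1 : cobd cb w = ∑ q : Quotient (QuotientGroup.rightRel K), ((par G q.out : ℤ) : ℝ) *
        cobd c (fun i => q.out * w i) := by
      unfold cobd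
      simp only [cb, F, Finset.mul_sum]
      rw [Finset.sum_comm]
      refine Finset.sum_congr rfl fun q _ => Finset.sum_congr rfl fun i _ => ?_
      simp only [Function.comp_def]
      ring
    rw [h1]
    refine Finset.sum_eq_zero fun q _ => ?_
    rw [c2, mul_zero]
  · refine ⟨∑ q : Quotient (QuotientGroup.rightRel K), 1, fun w => ?_⟩
    refine (Finset.abs_sum_le_sum_abs _ _).trans (Finset.sum_le_sum fun q _ => ?_)
    simp only [F]
    rw [abs_mul]
    have h1 : |((par G q.out : ℤ) : ℝ)| = 1 := by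
      have := hpp q.out
      rcases Int.units_eq_one_or (par G q.out) with h | h <;> rw [h] <;> simp
    rw [h1, one_mul]
    exact c3 _
  · intro h0
    apply c4
    have h1 : ((fch G m z K).sum fun g t => t * c g) = Finsupp.linearCombination ℝ c (fch G m z K) :=
      rfl
    rw [h1, fch, finsum_eq_sum_of_fintype, map_smul, map_sum, smul_eq_mul]
    have h2 : ∀ q : Quotient (QuotientGroup.rightRel K),
        Finsupp.linearCombination ℝ c (∑ v : Fin m → V,
          Finsupp.single (fun i => q.out * Fin.partialProd (gen G ∘ v) i)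
            (((par G q.out : ℤ) : ℝ) * z v)) =
        ∑ v : Fin m → V, z v * F (Fin.partialProd (gen G ∘ v)) q.out := by
      intro q
      rw [map_sum]
      refine Finset.sum_congr rfl fun v _ => ?_
      rw [Finsupp.linearCombination_single, smul_eq_mul]
      simp only [F]
      ring
    rw [Finset.sum_congr rfl fun q _ => h2 q, Finset.sum_comm]
    have h3 : ∑ v : Fin m → V, ∑ q : Quotient (QuotientGroup.rightRel K),
        z v * F (Fin.partialProd (gen G ∘ v)) q.out = pair (gen G) z cb := by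
      unfold pair
      refine Finset.sum_congr rfl fun v _ => ?_
      rw [← Finset.mul_sum]
    rw [h3, h0, mul_zero]

end Pool.Agent.Helper41.SE
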