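import Pool.Agent.Helper41.SE.E2
import Pool.Agent.Helper41.SE.E3
import Pool.Agent.N13.QC.Up

/-!
The product of a bounded cochain of degree two of the special subgroup of `A` and a bounded cochain
of the special subgroup of the complement, and its value at a cycle.
-/

set_option autoImplicit false
set_option linter.unusedSectionVars false

open scoped Classical

namespace Pool.Agent.Helper41.SE

open Pool.Agent.W907.SG (W cox)
open Pool.Agent.Q134.SV Pool.Agent.N13.QC
open Pool.Agent.Helper41.SV (SqFree GA rA piA piA_gen rA_pos rA_neg)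
open Pool.Agent.N13.QC.Up (cp cp_coc)

variable {V : Type} [Fintype V] {G : SimpleGraph V} (S : V → Prop)

theorem prod_bc {m : ℕ} {D : W G → W G → W G → ℝ}
    (h1 : ∀ s g₀ g₁ g₂, D (gen G s * g₀) (gen G s * g₁) (gen G s * g₂) =
        (if ¬ S s then -1 else 1) * D g₀ g₁ g₂)
    (h2 : ∀ g₀ g₁ g₂ g₃, D g₁ g₂ g₃ - D g₀ g₂ g₃ + D g₀ g₁ g₃ - D g₀ g₁ g₂ = 0)
    {B : ℝ} (h3 : ∀ g₀ g₁ g₂, |D g₀ g₁ g₂| ≤ B)
    {c : (Fin (m + 1) → W (GA G S)) → ℝ} (hc : BC (GA G S) m c) :
    BC G (m + 2) (cp D fun w => c fun i => piA G S (w i)) := by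
  refine ⟨?_, ?_, ?_⟩
  · intro x g
    unfold cp
    rw [h1]
    have e : (fun i : Fin (m + 1) => piA G S (gen G x * g i.succ.succ)) =
        fun i => rA G S x * piA G S (g i.succ.succ) := by
      funext i
      rw [map_mul, piA_gen]
    change (if ¬ S x then (-1 : ℝ) else 1) * D (g 0) (g 1) (g 2) *
      c (fun i : Fin (m + 1) => piA G S (gen G x * g i.succ.succ)) =
      -(D (g 0) (g 1) (g 2) * c (fun i : Fin (m + 1) => piA G S (g i.succ.succ)))
    rw [e]
    by_cases hx : S x
    · rw [rA_pos G S hx, hc.gen, if_neg (not_not.2 hx)]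
      ring
    · rw [rA_neg G S hx, if_pos hx]
      simp
  · intro g
    exact cp_coc D h2 _ (fun g => hc.coc fun i => piA G S (g i)) g
  · obtain ⟨C, hC⟩ := hc.bdd
    refine ⟨B * C, fun g => ?_⟩
    unfold cp
    rw [abs_mul]
    exact mul_le_mul (h3 _ _ _) (hC _) (abs_nonneg _) ((abs_nonneg _).trans (h3 (g 0) (g 1) (g 2)))

/-- the values of the cochain at the tuples -/
noncomputable def cv {m : ℕ} (c : (Fin (m + 1) → W (GA G S)) → ℝ) (w : Fin m → V) : ℝ :=
  c (Fin.partialProd (rA G S ∘ w))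

theorem piA_pp {m : ℕ} (w : Fin m → V) (i : Fin (m + 1)) :
    piA G S (Fin.partialProd (gen G ∘ w) i) = Fin.partialProd (rA G S ∘ w) i := by
  refine Fin.induction ?_ (fun j hj => ?_) i
  · rw [Fin.partialProd_zero, Fin.partialProd_zero, map_one]
  · rw [Fin.partialProd_succ, Fin.partialProd_succ, map_mul, hj]
    congr 1
    exact piA_gen G S (w j)

theorem cv_sub {m : ℕ} (c : (Fin (m + 1) → W (GA G S)) → ℝ) (u : Fin m → {v // S v}) :
    cv S c (fun i => (u i : V)) = c (Fin.partialProd (gen (GA G S) ∘ u)) := by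
  unfold cv
  congr 2
  funext i
  exact rA_pos G S (u i).2

theorem cv_ins {m : ℕ} (c : (Fin (m + 2) → W (GA G S)) → ℝ) (k : Fin (m + 1)) {t t' : V}
    (ht : ¬ S t) (ht' : ¬ S t') (u : Fin m → V) :
    cv S c (k.insertNth (α := fun _ => V) t u) = cv S c (k.insertNth (α := fun _ => V) t' u) := by
  unfold cv
  congr 2
  funext i
  rcases Fin.eq_self_or_eq_succAbove k i with rfl | ⟨j, rfl⟩
  · simp only [Function.comp_apply, Fin.insertNth_apply_same]
    rw [rA_neg G S ht, rA_neg G S ht']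
  · simp only [Function.comp_apply, Fin.insertNth_apply_succAbove]

theorem rot_sum (F : V → V → V → ℝ) : ∑ x, ∑ y, ∑ t, F y t x = ∑ x, ∑ y, ∑ t, F x y t := by
  rw [Finset.sum_comm]
  refine Finset.sum_congr rfl fun y _ => ?_
  rw [Finset.sum_comm]

theorem tri_sum {φ : V → V → ℝ} (hφ : SqFree (GA G fun v => ¬ S v) fun a b => φ a.1 b.1)
    (h : V → V → V → ℝ) (h01 : ∀ x y t, h x y t = - h y x t) (h12 : ∀ x y t, h x y t = - h x t y)
    (hs : ∀ x y t, h x y t ≠ 0 → G.Adj x y ∧ G.Adj y t ∧ G.Adj x t) :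
    ∑ x, ∑ y, ∑ t, (if ¬ S x ∧ ¬ S y ∧ ¬ S t then φ x y * h x y t else 0) = 0 := by
  set F : V → V → V → ℝ := fun x y t => if ¬ S x ∧ ¬ S y ∧ ¬ S t then φ x y * h x y t else 0
    with hF
  have e1 : ∑ x, ∑ y, ∑ t, F x y t = ∑ x, ∑ y, ∑ t, F y t x := (rot_sum F).symm
  have e2 : ∑ x, ∑ y, ∑ t, F x y t = ∑ x, ∑ y, ∑ t, F t x y := rot_sum fun x y t => F t x y
  have e3 : ∑ x, ∑ y, ∑ t, (F x y t + F y t x + F t x y) = 0 := by
    refine Finset.sum_eq_zero fun x _ => Finset.sum_eq_zero fun y _ => Finset.sum_eq_zero fun t _ => ?_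
    simp only [hF]
    by_cases hS : ¬ S x ∧ ¬ S y ∧ ¬ S t
    · rw [if_pos hS, if_pos ⟨hS.2.1, hS.2.2, hS.1⟩, if_pos ⟨hS.2.2, hS.1, hS.2.1⟩]
      have a1 : h y t x = h x y t := by rw [h12 y t x, h01 y x t, neg_neg]
      have a2 : h t x y = h x y t := by rw [h01 t x y, h12 x t y, neg_neg]
      rw [a1, a2]
      by_cases h0 : h x y t = 0
      · rw [h0]
        ring
      · obtain ⟨b1, b2, b3⟩ := hs x y t h0
        have h3 : φ x y + φ y t = φ x t :=
          hφ.tri ⟨x, hS.1⟩ ⟨y, hS.2.1⟩ ⟨t, hS.2.2⟩ b1 b2 b3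
        have h4 : φ t x = - φ x t := hφ.anti ⟨t, hS.2.2⟩ ⟨x, hS.1⟩
        rw [h4, ← h3]
        ring
    · rw [if_neg hS, if_neg fun h' => hS ⟨h'.2.2, h'.1, h'.2.1⟩,
        if_neg fun h' => hS ⟨h'.2.1, h'.2.2, h'.1⟩]
      ring
  simp only [Finset.sum_add_distrib] at e3
  linarith

/-- the terms with an entry outside of `S` at the place `k` cancel -/
theorem Tk_zero {m : ℕ} {φ : V → V → ℝ}
    (hφ : SqFree (GA G fun v => ¬ S v) fun a b => φ a.1 b.1) {a : (Fin (m + 3) → V) → ℝ}
    (ha : IsCyc (m + 3) G a) (k : Fin (m + 1)) (R : (Fin (m + 1) → V) → ℝ)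
    (hR : ∀ (t t' : V) (u : Fin m → V), ¬ S t → ¬ S t' →
      R (k.insertNth (α := fun _ => V) t u) = R (k.insertNth (α := fun _ => V) t' u)) :
    ∑ w : Fin (m + 1) → V, (if ¬ S (w k) then R w * ∑ x, ∑ y, (if ¬ S x ∧ ¬ S y then
      φ x y * a (Fin.cons x (Fin.cons y w)) else 0) else 0) = 0 := by
  have halt : Alt a := ha.alt
  rw [← Equiv.sum_comp (Fin.insertNthEquiv (fun _ : Fin (m + 1) => V) k), Fintype.sum_prod_type,
    Finset.sum_comm]
  refine Finset.sum_eq_zero fun u _ => ?_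
  rcases Classical.em (∃ t₀, ¬ S t₀) with ⟨t₀, ht₀⟩ | hn
  · set R₀ : ℝ := R (k.insertNth (α := fun _ => V) t₀ u) with hR₀
    have e1 : ∀ t : V, (if ¬ S ((Fin.insertNthEquiv (fun _ : Fin (m + 1) => V) k) (t, u) k) then
        R ((Fin.insertNthEquiv (fun _ : Fin (m + 1) => V) k) (t, u)) *
          ∑ x, ∑ y, (if ¬ S x ∧ ¬ S y then φ x y * a (Fin.cons x (Fin.cons y
            ((Fin.insertNthEquiv (fun _ : Fin (m + 1) => V) k) (t, u)))) else 0) else 0) =
        ∑ x, ∑ y, R₀ * (-1) ^ (k : ℕ) * (if ¬ S x ∧ ¬ S y ∧ ¬ S t then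
          φ x y * a (Fin.cons x (Fin.cons y (Fin.cons t u))) else 0) := by
      intro t
      have e0 : (Fin.insertNthEquiv (fun _ : Fin (m + 1) => V) k) (t, u) =
        k.insertNth (α := fun _ => V) t u := rfl
      rw [e0, Fin.insertNth_apply_same]
      by_cases ht : S t
      · rw [if_neg (not_not.2 ht)]
        symm
        refine Finset.sum_eq_zero fun x _ => Finset.sum_eq_zero fun y _ => ?_
        rw [if_neg fun h => h.2.2 ht, mul_zero]
      · rw [if_pos ht, hR t t₀ u ht ht₀, ← hR₀, Finset.mul_sum]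
        refine Finset.sum_congr rfl fun x _ => ?_
        rw [Finset.mul_sum]
        refine Finset.sum_congr rfl fun y _ => ?_
        by_cases hxy : ¬ S x ∧ ¬ S y
        · rw [if_pos hxy, if_pos ⟨hxy.1, hxy.2, ht⟩]
          have h1 := ((halt.cons x).cons y).insertNth k t u
          rw [h1]
          have h3 : ((-1 : ℝ) ^ (k : ℕ)) * (-1) ^ (k : ℕ) = 1 := by
            rw [← mul_pow]
            norm_num
          linear_combination (- R₀ * φ x y *
            a (Fin.cons x (Fin.cons y (k.insertNth (α := fun _ => V) t u)))) * h3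
        · rw [if_neg hxy, if_neg fun h => hxy ⟨h.1, h.2.1⟩, mul_zero, mul_zero]
    rw [Finset.sum_congr rfl fun t _ => e1 t]
    have e2 : ∑ t, ∑ x, ∑ y, R₀ * (-1) ^ (k : ℕ) * (if ¬ S x ∧ ¬ S y ∧ ¬ S t then
          φ x y * a (Fin.cons x (Fin.cons y (Fin.cons t u))) else 0) =
        R₀ * (-1) ^ (k : ℕ) * ∑ x, ∑ y, ∑ t, (if ¬ S x ∧ ¬ S y ∧ ¬ S t then
          φ x y * a (Fin.cons x (Fin.cons y (Fin.cons t u))) else 0) := by
      rw [← rot_sum fun x y t => if ¬ S x ∧ ¬ S y ∧ ¬ S t then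
          φ x y * a (Fin.cons x (Fin.cons y (Fin.cons t u))) else 0, Finset.mul_sum]
      refine Finset.sum_congr rfl fun t _ => ?_
      rw [Finset.mul_sum]
      refine Finset.sum_congr rfl fun x _ => ?_
      rw [Finset.mul_sum]
    rw [e2, tri_sum S hφ (fun x y t => a (Fin.cons x (Fin.cons y (Fin.cons t u)))), mul_zero]
    · intro x y t
      exact halt.swap01 x y _
    · intro x y t
      exact (halt.cons x).swap01 y t u
    · intro x y t h
      have hs := ha.supp _ h
      exact ⟨hs 0 1 (by simp), hs (Fin.succ 0) (Fin.succ (Fin.succ 0)) (by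
        intro e
        exact Fin.succ_ne_zero _ (Fin.succ_injective _ e).symm), hs 0 (Fin.succ (Fin.succ 0))
          (Fin.succ_ne_zero _).symm⟩
  · refine Finset.sum_eq_zero fun t _ => ?_
    rw [if_neg fun h => hn ⟨_, h⟩]

/-- the number of the entries outside of `S` -/
noncomputable def No {m : ℕ} (w : Fin m → V) : ℝ := ∑ k, if ¬ S (w k) then 1 else 0

theorem No_zero {m : ℕ} {w : Fin m → V} : No S w = 0 ↔ ∀ k, S (w k) := by
  unfold No
  rw [Finset.sum_eq_zero_iff_of_nonneg]
  · constructor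
    · intro h k
      by_contra hk
      have := h k (Finset.mem_univ _)
      rw [if_pos hk] at this
      exact one_ne_zero this
    · intro h k _
      rw [if_neg (not_not.2 (h k))]
  · intro k _
    split_ifs <;> norm_num

/-- only the tuples with all entries in `S` contribute -/
theorem sum_S {m : ℕ} {φ : V → V → ℝ}
    (hφ : SqFree (GA G fun v => ¬ S v) fun a b => φ a.1 b.1) {a : (Fin (m + 2) → V) → ℝ}
    (ha : IsCyc (m + 2) G a) (c : (Fin (m + 1) → W (GA G S)) → ℝ) :
    ∑ w : Fin m → V, cv S c w * ∑ x, ∑ y, (if ¬ S x ∧ ¬ S y then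
      φ x y * a (Fin.cons x (Fin.cons y w)) else 0) =
    ∑ u : Fin m → {v // S v}, c (Fin.partialProd (gen (GA G S) ∘ u)) *
      ∑ x, ∑ y, (if ¬ S x ∧ ¬ S y then
        φ x y * a (Fin.cons x (Fin.cons y fun i => (u i : V))) else 0) := by
  set Bf : (Fin m → V) → ℝ := fun w => ∑ x, ∑ y, (if ¬ S x ∧ ¬ S y then
      φ x y * a (Fin.cons x (Fin.cons y w)) else 0) with hBf
  have hT : ∀ k : Fin m, ∑ w : Fin m → V,
      (if ¬ S (w k) then (No S w)⁻¹ * cv S c w * Bf w else 0) = 0 := by
    intro k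
    rcases m with _ | m
    · exact k.elim0
    · refine Tk_zero S hφ ha k (fun w => (No S w)⁻¹ * cv S c w) ?_
      intro t t' u ht ht'
      have h1 : No S (k.insertNth (α := fun _ => V) t u) =
          No S (k.insertNth (α := fun _ => V) t' u) := by
        unfold No
        rw [Fin.sum_univ_succAbove _ k, Fin.sum_univ_succAbove _ k]
        simp only [Fin.insertNth_apply_same, Fin.insertNth_apply_succAbove]
        rw [if_pos ht, if_pos ht']
      change (No S _)⁻¹ * cv S c _ = (No S _)⁻¹ * cv S c _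
      rw [h1, cv_ins S c k ht ht' u]
  have hsum : ∑ w : Fin m → V, (if No S w = 0 then 0 else cv S c w * Bf w) = 0 := by
    have e : ∀ w : Fin m → V, (if No S w = 0 then 0 else cv S c w * Bf w) =
        ∑ k, (if ¬ S (w k) then (No S w)⁻¹ * cv S c w * Bf w else 0) := by
      intro w
      have e1 : ∀ k, (if ¬ S (w k) then (No S w)⁻¹ * cv S c w * Bf w else 0) =
          (if ¬ S (w k) then (1 : ℝ) else 0) * ((No S w)⁻¹ * cv S c w * Bf w) := by
        intro k
        split_ifs <;> ring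
      rw [Finset.sum_congr rfl fun k _ => e1 k, ← Finset.sum_mul]
      change _ = No S w * _
      by_cases h : No S w = 0
      · rw [if_pos h, h, zero_mul]
      · rw [if_neg h, mul_assoc, ← mul_assoc, mul_inv_cancel₀ h, one_mul]
    rw [Finset.sum_congr rfl fun w _ => e w, Finset.sum_comm]
    exact Finset.sum_eq_zero fun k _ => hT k
  have hsplit : ∑ w : Fin m → V, cv S c w * Bf w =
      ∑ w : Fin m → V, (if No S w = 0 then cv S c w * Bf w else 0) := by
    have : ∀ w : Fin m → V, cv S c w * Bf w = (if No S w = 0 then cv S c w * Bf w else 0) +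
        (if No S w = 0 then 0 else cv S c w * Bf w) := by
      intro w
      split_ifs <;> ring
    rw [Finset.sum_congr rfl fun w _ => this w, Finset.sum_add_distrib, hsum, add_zero]
  rw [hsplit]
  symm
  refine Fintype.sum_of_injective (fun (u : Fin m → {v // S v}) (i : Fin m) => (u i : V)) ?_ _ _
    ?_ ?_
  · intro u u' h
    funext j
    exact Subtype.ext (congrFun h j)
  · intro w hw
    rw [if_neg]
    intro h
    exact hw ⟨fun j => ⟨w j, (No_zero S).1 h j⟩, rfl⟩
  · intro u
    rw [if_pos ((No_zero S).2 fun k => (u k).2), cv_sub]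

/-- the value of the product at a cycle -/
theorem pair_prod {m : ℕ} {φ : V → V → ℝ}
    (hφ : SqFree (GA G fun v => ¬ S v) fun a b => φ a.1 b.1) {a : (Fin (m + 2) → V) → ℝ}
    (ha : IsCyc (m + 2) G a) {D : W G → W G → W G → ℝ}
    (hD : ∀ s t, G.Adj s t → D 1 (gen G s) (gen G s * gen G t) =
        if ¬ S s ∧ ¬ S t then 2 * φ s t else 0)
    (c : (Fin (m + 1) → W (GA G S)) → ℝ) :
    pair (gen G) a (cp D fun w => c fun i => piA G S (w i)) =
    2 * ∑ u : Fin m → {v // S v}, c (Fin.partialProd (gen (GA G S) ∘ u)) *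
      ∑ x, ∑ y, (if ¬ S x ∧ ¬ S y then
        φ x y * a (Fin.cons x (Fin.cons y fun i => (u i : V))) else 0) := by
  rw [← sum_S S hφ ha c]
  unfold pair
  rw [sum_cons]
  have e1 : ∀ x, ∑ u : Fin (m + 1) → V, a (Fin.cons x u) *
      cp D (fun w => c fun i => piA G S (w i))
        (Fin.partialProd (gen G ∘ (Fin.cons x u : Fin (m + 2) → V))) =
      ∑ y, ∑ w : Fin m → V, 2 * (cv S c w * (if ¬ S x ∧ ¬ S y then
        φ x y * a (Fin.cons x (Fin.cons y w)) else 0)) := by
    intro x
    rw [sum_cons]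
    refine Finset.sum_congr rfl fun y _ => Finset.sum_congr rfl fun w _ => ?_
    by_cases h0 : a (Fin.cons x (Fin.cons y w)) = 0
    · rw [h0]
      simp
    · have hadj : G.Adj x y := ha.supp _ h0 0 1 (by simp)
      have p0 : Fin.partialProd (gen G ∘ (Fin.cons x (Fin.cons y w) : Fin (m + 2) → V)) 0 = 1 :=
        Fin.partialProd_zero _
      have p1 : Fin.partialProd (gen G ∘ (Fin.cons x (Fin.cons y w) : Fin (m + 2) → V)) 1 =
          gen G x := by
        have h : (1 : Fin (m + 3)) = Fin.succ 0 := rfl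
        rw [h, Fin.partialProd_succ', Fin.partialProd_zero, mul_one]
        rfl
      have p3 : ∀ i : Fin (m + 1),
          Fin.partialProd (gen G ∘ (Fin.cons x (Fin.cons y w) : Fin (m + 2) → V)) i.succ.succ =
          gen G x * (gen G y * Fin.partialProd (gen G ∘ w) i) := by
        intro i
        rw [Fin.partialProd_succ', Fin.partialProd_succ']
        rfl
      have p2 : Fin.partialProd (gen G ∘ (Fin.cons x (Fin.cons y w) : Fin (m + 2) → V)) 2 =
          gen G x * gen G y := by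
        have h : (2 : Fin (m + 3)) = Fin.succ (Fin.succ 0) := rfl
        rw [h, p3, Fin.partialProd_zero, mul_one]
      unfold cp
      rw [p0, p1, p2, hD x y hadj]
      simp only [p3]
      by_cases hS : ¬ S x ∧ ¬ S y
      · rw [if_pos hS, if_pos hS]
        have e2 : (fun i : Fin (m + 1) =>
            piA G S (gen G x * (gen G y * Fin.partialProd (gen G ∘ w) i))) =
            Fin.partialProd (rA G S ∘ w) := by
          funext i
          rw [map_mul, map_mul, piA_gen, piA_gen, rA_neg G S hS.1, rA_neg G S hS.2, one_mul,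
            one_mul, piA_pp]
        rw [e2]
        unfold cv
        ring
      · rw [if_neg hS, if_neg hS]
        ring
  rw [Finset.sum_congr rfl fun x _ => e1 x]
  simp only [Finset.mul_sum]
  rw [Finset.sum_congr rfl fun x _ => Finset.sum_comm]
  rw [Finset.sum_comm]

end Pool.Agent.Helper41.SE
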