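import Pool.Agent.Helper41.SE.E4
import Pool.Agent.Helper41.SD.D5

/-!
Alexander duality for cycles which are given as functions of tuples.
-/

set_option autoImplicit false
set_option linter.unusedSectionVars false

open scoped Classical

namespace Pool.Agent.Helper41.SE

open Pool.Agent.W907.SG Pool.Agent.W907.SM Module Pool.Agent.TH652.Dual
open Pool.Agent.Helper41.SV (SqFree GA)
open Pool.Agent.Helper41.SD (alexander ZC mem_ZC Km Km_apply Km_supp Dm Dm_apply sum_pairs sqfree_of
  EQ SqIn nsq gQ Lf Lf_apply)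
open Pool.Agent.Q134.SV (IsCyc pair push gen cobd gen_comm sum_cons)

variable {V : Type} [Fintype V] [LinearOrder V] {G : SimpleGraph V}

theorem oo_supp {n : ℕ} {b : (Fin n → V) → ℝ} (hb : IsCyc n G b) {T : Finset V} (h : oo b T ≠ 0) :
    G.IsClique (T : Set V) ∧ T.card = n ∧ ∃ w : Fin n → V, StrictMono w ∧ T = fs w ∧ b w ≠ 0 := by
  by_cases hc : T.card = n
  · obtain ⟨w, hw, rfl⟩ := exists_fs hc
    rw [oo_fs b hw] at h
    refine ⟨?_, hc, w, hw, rfl, h⟩
    intro u hu v hv huv
    obtain ⟨i, rfl⟩ := mem_fs.1 (Finset.mem_coe.1 hu)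
    obtain ⟨j, rfl⟩ := mem_fs.1 (Finset.mem_coe.1 hv)
    exact hb.supp w h i j fun e => huv (by rw [e])
  · exact absurd (oo_card b hc) h

theorem sum_compl_fs {n : ℕ} {a : (Fin (n + 1) → V) → ℝ} (ha : Alt a) {w : Fin n → V}
    (hw : StrictMono w) : bd ℝ (oo a) (fs w) = ∑ x, a (Fin.cons x w) := by
  rw [bd_apply, ← Finset.sum_add_sum_compl (fs w) (fun x => a (Fin.cons x w))]
  have h5 : ∑ x ∈ fs w, a (Fin.cons x w) = 0 := by
    refine Finset.sum_eq_zero fun x hx => ?_
    obtain ⟨i, rfl⟩ := mem_fs.1 hx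
    refine ha.noninj fun hinj => ?_
    have := hinj (a₁ := 0) (a₂ := i.succ) (by simp)
    exact Fin.succ_ne_zero _ this.symm
  rw [h5, zero_add]
  refine Finset.sum_congr rfl fun v hv => ?_
  rw [zsmul_eq_mul, oo_insert ha hw (Finset.mem_compl.1 hv)]

theorem bd_card {n : ℕ} (y : Finset V → ℝ) (hy : ∀ T, T.card ≠ n + 1 → y T = 0) {T : Finset V}
    (hT : T.card ≠ n) : bd ℝ y T = 0 := by
  rw [bd_apply]
  refine Finset.sum_eq_zero fun v hv => ?_
  rw [hy, smul_zero]
  rw [Finset.card_insert_of_notMem (Finset.mem_compl.1 hv)]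
  omega

theorem oo_mem {n : ℕ} {b : (Fin n → V) → ℝ} (hb : IsCyc n G b) (A : Set V)
    (hA : ∀ w, b w ≠ 0 → ∀ i, w i ∈ A) : oo b ∈ ZZ G (triv V) A ∅ n := by
  refine ⟨?_, ?_⟩
  · rw [SetLike.mem_coe, mem_KK_triv]
    intro T hT
    by_contra h
    obtain ⟨h1, h2, w, hw, rfl, h3⟩ := oo_supp hb h
    refine hT ⟨h1, ?_, h2⟩
    intro v hv
    obtain ⟨i, rfl⟩ := mem_fs.1 (Finset.mem_coe.1 hv)
    exact hA w h3 i
  · change bd ℝ (oo b) = 0
    funext T
    rw [Pi.zero_apply]
    rcases n with _ | n
    · rw [bd_apply]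
      refine Finset.sum_eq_zero fun v hv => ?_
      rw [oo_card b, smul_zero]
      rw [Finset.card_insert_of_notMem (Finset.mem_compl.1 hv)]
      omega
    · by_cases hT : T.card = n
      · obtain ⟨w, hw, rfl⟩ := exists_fs hT
        rw [sum_compl_fs hb.alt hw]
        have := Pool.Agent.Q134.SV.sum_insertNth hb 0 w
        simpa only [Fin.insertNth_zero'] using this
      · exact bd_card _ (fun T hT => oo_card b hT) hT

theorem oo_ne {n : ℕ} {b : (Fin n → V) → ℝ} (hb : Alt b) (h0 : b ≠ 0) : oo b ≠ 0 := by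
  intro h
  apply h0
  refine alt_ext hb (fun v i j _ => by simp) ?_
  intro w hw
  rw [← oo_fs b hw, h]
  rfl

/-- the cap product with a cocycle, as a function of tuples -/
noncomputable def Bf {n : ℕ} (S : Set V) (mu : Finset V → ℝ) (a : (Fin (n + 2) → V) → ℝ) :
    (Fin n → V) → ℝ := fun w =>
  if ∀ i, w i ∈ S then ∑ x, ∑ y, Km mu x y * a (Fin.cons x (Fin.cons y w)) else 0

theorem Bf_alt {n : ℕ} (S : Set V) (mu : Finset V → ℝ) {a : (Fin (n + 2) → V) → ℝ} (ha : Alt a) :
    Alt (Bf S mu a) := by
  intro w i j hij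
  unfold Bf
  have h : (∀ k, (w ∘ Equiv.swap i j) k ∈ S) ↔ ∀ k, w k ∈ S := by
    constructor
    · intro h k
      have := h (Equiv.swap i j k)
      simpa using this
    · intro h k
      exact h _
  by_cases hw : ∀ k, w k ∈ S
  · rw [if_pos (h.2 hw), if_pos hw, ← Finset.sum_neg_distrib]
    refine Finset.sum_congr rfl fun x _ => ?_
    rw [← Finset.sum_neg_distrib]
    refine Finset.sum_congr rfl fun y _ => ?_
    have := ((ha.cons x).cons y) w i j hij
    simp only at this
    rw [this]
    ring
  · rw [if_neg (fun h' => hw (h.1 h')), if_neg hw, neg_zero]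

theorem oS_pair {n : ℕ} {a : (Fin (n + 2) → V) → ℝ} (ha : Alt a) {x y : V} (hxy : x < y)
    {w : Fin n → V} (hw : StrictMono w) :
    oS (oo a) {x, y} (fs w) = a (Fin.cons x (Fin.cons y w)) := by
  unfold oS
  by_cases hd : Disjoint ({x, y} : Finset V) (fs w)
  · have hx : x ∉ fs w := Finset.disjoint_left.1 hd (by simp)
    have hy : y ∉ fs w := Finset.disjoint_left.1 hd (by simp)
    rw [if_pos hd, Finset.prod_pair hxy.ne]
    have h1 := oo_insert (ha.cons x) hw hy
    have hx' : x ∉ insert y (fs w) := by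
      rw [Finset.mem_insert]
      rintro (e | e)
      · exact hxy.ne e
      · exact hx e
    have hc : (insert y (fs w)).card = n + 1 := by
      rw [Finset.card_insert_of_notMem hy, fs_card hw.injective]
    obtain ⟨w', hw', e'⟩ := exists_fs hc
    rw [e'] at h1 hx'
    rw [oo_fs _ hw'] at h1
    have h2 := oo_insert ha hw' hx'
    rw [← h2] at h1
    change _ = a (Fin.cons x (Fin.cons y w)) at h1
    rw [← h1, ← e', sg_insert x y _ hy, if_neg (not_lt.2 hxy.le)]
    have e3 : ({x, y} : Finset V) ∪ fs w = insert x (insert y (fs w)) := by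
      ext v
      simp only [Finset.mem_union, Finset.mem_insert, Finset.mem_singleton]
      tauto
    rw [e3]
    push_cast
    ring
  · rw [if_neg hd]
    symm
    refine ha.noninj fun hinj => hd ?_
    rw [Finset.disjoint_left]
    intro v hv hv'
    obtain ⟨i, rfl⟩ := mem_fs.1 hv'
    rw [Finset.mem_insert, Finset.mem_singleton] at hv
    rcases hv with e | e
    · have := hinj (a₁ := i.succ.succ) (a₂ := 0) (by simpa using e)
      exact Fin.succ_ne_zero _ this
    · have := hinj (a₁ := i.succ.succ) (a₂ := Fin.succ 0) (by simpa using e)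
      exact Fin.succ_ne_zero _ (Fin.succ_injective _ this)

theorem Dm_oo {n : ℕ} {a : (Fin (n + 2) → V) → ℝ} (ha : IsCyc (n + 2) G a) (S : Set V)
    {mu : Finset V → ℝ} (hm : mu ∈ ZC G Sᶜ) {w : Fin n → V} (hw : StrictMono w) :
    Dm G S (oo a) mu (fs w) = (1 / 2 : ℝ) * Bf S mu a w := by
  have halt : Alt a := ha.alt
  have hsub : ((fs w : Finset V) : Set V) ⊆ S ↔ ∀ i, w i ∈ S := by
    constructor
    · intro h i
      exact h (Finset.mem_coe.2 (mem_fs.2 ⟨i, rfl⟩))
    · intro h v hv
      obtain ⟨i, rfl⟩ := mem_fs.1 (Finset.mem_coe.1 hv)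
      exact h i
  rw [Dm_apply]
  unfold Bf
  by_cases hS : ∀ i, w i ∈ S
  · rw [if_pos hS]
    by_cases hcl : G.IsClique ((fs w : Finset V) : Set V)
    · rw [if_pos ⟨hcl, hsub.2 hS⟩, sum_pairs]
      · have e2 : ∀ x y : V, Km mu x y * a (Fin.cons x (Fin.cons y w)) =
            (if x < y then mu {x, y} * a (Fin.cons x (Fin.cons y w)) else 0) +
              (if y < x then mu {y, x} * a (Fin.cons y (Fin.cons x w)) else 0) := by
          intro x y
          rw [Km_apply]
          rcases lt_trichotomy x y with h | h | h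
          · rw [if_pos h, if_pos h, if_neg (not_lt.2 h.le), add_zero]
          · subst h
            simp
          · rw [if_neg (not_lt.2 h.le), if_pos h, if_neg (not_lt.2 h.le), if_pos h, zero_add,
              Finset.pair_comm x y, halt.swap01 x y w]
            ring
        simp only [e2, Finset.sum_add_distrib]
        rw [Finset.sum_comm (f := fun x y : V => if y < x then mu {y, x} *
          a (Fin.cons y (Fin.cons x w)) else 0)]
        have e3 : ∀ x y : V, (if x < y then ((-1 : ℝ) ^ ({x, y} : Finset V).card) *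
            (oS (oo a) {x, y} (fs w) * mu {x, y}) else 0) =
            if x < y then mu {x, y} * a (Fin.cons x (Fin.cons y w)) else 0 := by
          intro x y
          by_cases h : x < y
          · rw [if_pos h, if_pos h, Finset.card_pair h.ne, oS_pair halt h hw]
            ring
          · rw [if_neg h, if_neg h]
        simp only [e3]
        ring
      · intro T hT
        rw [hm.1 T fun h => hT h.2.2, mul_zero, mul_zero]
    · rw [if_neg fun h => hcl h.1]
      symm
      rw [mul_eq_zero]
      right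
      refine Finset.sum_eq_zero fun x _ => Finset.sum_eq_zero fun y _ => ?_
      rw [mul_eq_zero]
      right
      by_contra h0
      apply hcl
      intro u hu v hv huv
      obtain ⟨i, rfl⟩ := mem_fs.1 (Finset.mem_coe.1 hu)
      obtain ⟨j, rfl⟩ := mem_fs.1 (Finset.mem_coe.1 hv)
      have := ha.supp _ h0 i.succ.succ j.succ.succ (by
        intro e
        exact huv (by rw [Fin.succ_injective _ (Fin.succ_injective _ e)]))
      simpa using this
  · rw [if_neg hS, if_neg fun h => hS (hsub.1 h.2), mul_zero]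

end Pool.Agent.Helper41.SE
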