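import Pool.Agent.Helper41.SE.E5

/-!
The value of the product cochain and the duality.
-/

set_option autoImplicit false
set_option linter.unusedSectionVars false

open scoped Classical

namespace Pool.Agent.Helper41.SE

open Pool.Agent.W907.SG Pool.Agent.W907.SM Module Pool.Agent.TH652.Dual
open Pool.Agent.Helper41.SV (SqFree GA)
open Pool.Agent.Helper41.SD (alexander ZC mem_ZC Km Km_apply Km_supp Dm Dm_apply sum_pairs sqfree_of
  EQ SqIn nsq gQ Lf Lf_apply)
open Pool.Agent.Q134.SV (IsCyc pair push gen cobd gen_comm sum_cons)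

variable {V : Type} [Fintype V] [LinearOrder V] {G : SimpleGraph V}

theorem oo_Ex {n : ℕ} {y : Finset V → ℝ} (hy : ∀ T, T.card ≠ n → y T = 0) :
    oo (Ex (n := n) y) = y := by
  funext T
  by_cases hT : T.card = n
  · obtain ⟨w, hw, rfl⟩ := exists_fs hT
    rw [oo_fs _ hw, Ex_sorted y hw]
  · rw [oo_card _ hT, hy T hT]

theorem bnd_alt {n : ℕ} {Y : (Fin (n + 1) → V) → ℝ} (hY : Alt Y) : Alt (bnd Y) := by
  intro w i j hij
  unfold bnd
  rw [← Finset.sum_neg_distrib]
  refine Finset.sum_congr rfl fun x _ => ?_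
  exact (hY.cons x) w i j hij

theorem push_val {n : ℕ} (S : Set V) (z : (Fin n → {v // v ∈ S}) → ℝ)
    (u : Fin n → {v // v ∈ S}) : push Subtype.val z (fun i => (u i : V)) = z u := by
  unfold push
  rw [Finset.sum_eq_single u]
  · rw [if_pos (show Subtype.val ∘ u = fun i => (u i : V) from rfl)]
  · intro u' _ hu
    rw [if_neg]
    intro h
    apply hu
    funext i
    exact Subtype.ext (congrFun h i)
  · intro h
    exact absurd (Finset.mem_univ _) h

theorem push_cyc {n : ℕ} (S : Set V) {z : (Fin n → {v // v ∈ S}) → ℝ}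
    (hz : IsCyc n (GA G fun v => v ∈ S) z) : IsCyc n G (push Subtype.val z) :=
  hz.push Subtype.val fun x y h => Or.inr h

theorem push_supp {n : ℕ} (S : Set V) {z : (Fin n → {v // v ∈ S}) → ℝ} {w : Fin n → V}
    (h : push Subtype.val z w ≠ 0) : ∀ i, w i ∈ S := by
  unfold push at h
  obtain ⟨u, _, hu⟩ := Finset.exists_ne_zero_of_sum_ne_zero h
  by_cases h1 : Subtype.val ∘ u = w
  · intro i
    rw [← h1]
    exact (u i).2
  · rw [if_neg h1] at hu
    exact absurd rfl hu

theorem pair_duality {m : ℕ} {a : (Fin (m + 2) → V) → ℝ} (ha : IsCyc (m + 2) G a) (S : Set V)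
    {z : (Fin m → {v // v ∈ S}) → ℝ} (hz : IsCyc m (GA G fun v => v ∈ S) z)
    {mu y : Finset V → ℝ} (hm : mu ∈ ZC G Sᶜ) (hy : y ∈ KK G (triv V) S ∅ (m + 1))
    (he : oo (push Subtype.val z) - Dm G S (oo a) mu = bd ℝ y)
    {c : (Fin (m + 1) → W (GA G fun v => v ∈ S)) → ℝ} (hc : BC (GA G fun v => v ∈ S) m c) :
    pair (gen (GA G fun v => v ∈ S)) z c = (1 / 2 : ℝ) * ∑ u : Fin m → {v // v ∈ S},
      c (Fin.partialProd (gen (GA G fun v => v ∈ S) ∘ u)) * ∑ x, ∑ y, (if ¬ x ∈ S ∧ ¬ y ∈ S then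
        Km mu x y * a (Fin.cons x (Fin.cons y fun i => (u i : V))) else 0) := by
  rw [mem_KK_triv] at hy
  have halt : Alt a := ha.alt
  have hY0 : ∀ T : Finset V, T.card ≠ m + 1 → y T = 0 := fun T hT => hy T fun h => hT h.2.2
  set Y : (Fin (m + 1) → V) → ℝ := Ex y with hY
  have hYa : Alt Y := Ex_alt y
  have hYs : ∀ v, Y v ≠ 0 → Function.Injective v ∧ G.IsClique ((fs v : Finset V) : Set V) ∧
      ((fs v : Finset V) : Set V) ⊆ S := by
    intro v hv
    rw [hY] at hv
    unfold Ex at hv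
    by_cases hi : Function.Injective v
    · rw [if_pos hi] at hv
      by_contra hn
      have : y (fs v) = 0 := hy _ fun h => hn ⟨hi, h.1, h.2.1⟩
      rw [this, mul_zero] at hv
      exact hv rfl
    · rw [if_neg hi] at hv
      exact absurd rfl hv
  have hYS : ∀ v, Y v ≠ 0 → ∀ i, v i ∈ S := fun v hv i =>
    (hYs v hv).2.2 (Finset.mem_coe.2 (mem_fs.2 ⟨i, rfl⟩))
  have hz' := push_cyc (G := G) S hz
  have hzalt : Alt (push Subtype.val z) := hz'.alt
  have key : push Subtype.val z = fun w => (1 / 2 : ℝ) * Bf S mu a w + bnd Y w := by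
    refine alt_ext hzalt ?_ ?_
    · intro w i j hij
      change (1 / 2 : ℝ) * Bf S mu a (w ∘ Equiv.swap i j) + bnd Y (w ∘ Equiv.swap i j) =
        -((1 / 2 : ℝ) * Bf S mu a w + bnd Y w)
      rw [Bf_alt S mu halt w i j hij, bnd_alt hYa w i j hij]
      ring
    · intro w hw
      have h1 := congrFun he (fs w)
      rw [Pi.sub_apply, oo_fs _ hw, Dm_oo ha S hm hw] at h1
      have h2 := sum_compl_fs hYa hw
      rw [hY, oo_Ex hY0] at h2
      have h3 : bnd Y w = bd ℝ y (fs w) := h2.symm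
      change push Subtype.val z w = (1 / 2 : ℝ) * Bf S mu a w + bnd Y w
      rw [h3]
      linarith
  set YS : (Fin (m + 1) → {v // v ∈ S}) → ℝ := fun v => Y fun i => (v i : V) with hYSdef
  have hb : ∀ u : Fin m → {v // v ∈ S}, bnd Y (fun i => (u i : V)) = bnd YS u := by
    intro u
    unfold bnd
    symm
    refine Fintype.sum_of_injective Subtype.val Subtype.val_injective _ _ ?_ ?_
    · intro x hx
      by_contra hne
      exact hx ⟨⟨x, by simpa using hYS _ hne 0⟩, rfl⟩
    · intro x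
      simp only [hYSdef]
      congr 1
      funext i
      refine Fin.cases ?_ (fun i => ?_) i
      · rfl
      · rfl
  have hst : pair (gen (GA G fun v => v ∈ S)) (bnd YS) c = 0 := by
    have h1 := stokes2 (G := GA G fun v => v ∈ S) (gen (GA G fun v => v ∈ S))
      (fun x y h => gen_comm _ h) (Y := YS) (by
        intro v i j hij
        have := hYa (fun i => (v i : V)) i j hij
        exact this) (by
        intro v hv i j hij
        obtain ⟨k1, k2, _⟩ := hYs _ hv
        have : G.Adj (v i : V) (v j : V) := k2 (Finset.mem_coe.2 (mem_fs.2 ⟨i, rfl⟩))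
          (Finset.mem_coe.2 (mem_fs.2 ⟨j, rfl⟩)) fun e => hij (k1 e)
        exact this) c hc.gen
    have h2 : cobd c = fun _ => 0 := funext hc.coc
    rw [h2] at h1
    have h3 : pair (gen (GA G fun v => v ∈ S)) YS (fun _ => (0 : ℝ)) = 0 := by
      unfold pair
      simp
    rw [h3] at h1
    linarith
  have hfin : pair (gen (GA G fun v => v ∈ S)) z c = (∑ u : Fin m → {v // v ∈ S},
      (1 / 2 : ℝ) * Bf S mu a (fun i => (u i : V)) *
        c (Fin.partialProd (gen (GA G fun v => v ∈ S) ∘ u))) +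
      pair (gen (GA G fun v => v ∈ S)) (bnd YS) c := by
    unfold pair
    rw [← Finset.sum_add_distrib]
    refine Finset.sum_congr rfl fun u _ => ?_
    rw [← push_val S z u, key]
    change ((1 / 2 : ℝ) * Bf S mu a (fun i => (u i : V)) + bnd Y fun i => (u i : V)) * _ = _
    rw [hb u]
    ring
  rw [hfin, hst, add_zero, Finset.mul_sum]
  refine Finset.sum_congr rfl fun u _ => ?_
  have hB : Bf S mu a (fun i => (u i : V)) = ∑ x, ∑ y, (if ¬ x ∈ S ∧ ¬ y ∈ S then
        Km mu x y * a (Fin.cons x (Fin.cons y fun i => (u i : V))) else 0) := by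
    unfold Bf
    rw [if_pos fun i => (u i).2]
    refine Finset.sum_congr rfl fun x _ => Finset.sum_congr rfl fun y _ => ?_
    by_cases hxy : ¬ x ∈ S ∧ ¬ y ∈ S
    · rw [if_pos hxy]
    · rw [if_neg hxy, Km_supp hm (fun h => hxy ⟨h.1, h.2⟩), zero_mul]
  rw [hB]
  ring

end Pool.Agent.Helper41.SE
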