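import Pool.Agent.Helper41.SE.E6

/-!
The induction from dimension `m` to dimension `m + 2`.
-/

set_option autoImplicit false
set_option linter.unusedSectionVars false

open scoped Classical

namespace Pool.Agent.Helper41.SE

open Pool.Agent.W907.SG Pool.Agent.W907.SM Module Pool.Agent.TH652.Dual
open Pool.Agent.Helper41.SV (SqFree GA exists_cochain piA)
open Pool.Agent.Helper41.SD (alexander ZC mem_ZC Km Km_apply Km_supp Dm Dm_apply sum_pairs sqfree_of
  EQ SqIn nsq gQ Lf Lf_apply)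
open Pool.Agent.Q134.SV (IsCyc pair push gen cobd gen_comm sum_cons lft lft_gen gen_sq par
  pair_push equiv_of_gen)
open Pool.Agent.N13.QC (svol fch Homol)

section

variable {V : Type} [Fintype V] [LinearOrder V] {G : SimpleGraph V}

/-- the chain on the finite sets of a function of tuples in `S`, a linear map -/
noncomputable def Lz (m : ℕ) (S : Set V) :
    ((Fin m → {v // v ∈ S}) → ℝ) →ₗ[ℝ] (Finset V → ℝ) where
  toFun z := oo (push Subtype.val z)
  map_add' z z' := by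
    funext T
    rw [Pi.add_apply]
    unfold oo push
    split_ifs
    · rw [← Finset.sum_add_distrib]
      refine Finset.sum_congr rfl fun u _ => ?_
      rw [Pi.add_apply]
      split_ifs <;> ring
    · ring
  map_smul' r z := by
    funext T
    rw [RingHom.id_apply, Pi.smul_apply, smul_eq_mul]
    unfold oo push
    split_ifs
    · rw [Finset.mul_sum]
      refine Finset.sum_congr rfl fun u _ => ?_
      rw [Pi.smul_apply, smul_eq_mul]
      split_ifs <;> ring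
    · ring

theorem Lz_apply (m : ℕ) (S : Set V) (z : (Fin m → {v // v ∈ S}) → ℝ) :
    Lz m S z = oo (push Subtype.val z) := rfl

/-- Let the dimension of a space of cycles in `S` be greater than the number of the squares in the
complement. Then a nonzero cycle in this space is dual to a cocycle which vanishes on the squares. -/
theorem exists_dual {m : ℕ} (hS : Sph (m + 2) G) {a : (Fin (m + 2) → V) → ℝ}
    (ha : IsCyc (m + 2) G a) (h0 : a ≠ 0) (S : Set V)
    (Z : Submodule ℝ ((Fin m → {v // v ∈ S}) → ℝ))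
    (hZ : ∀ z ∈ Z, IsCyc m (GA G fun v => v ∈ S) z) (hn : nsq G Sᶜ < finrank ℝ Z) :
    ∃ z ∈ Z, z ≠ 0 ∧ ∃ mu ∈ ZC G Sᶜ, EQ G Sᶜ mu = 0 ∧ ∃ y ∈ KK G (triv V) S ∅ (m + 1),
      oo (push Subtype.val z) - Dm G S (oo a) mu = bd ℝ y := by
  have hal : ∀ z ∈ Z, ∃ mu ∈ ZC G Sᶜ, ∃ y ∈ KK G (triv V) S ∅ (m + 1),
      Lz m S z - Dm G S (oo a) mu = bd ℝ y := by
    intro z hz
    have hz' := push_cyc (G := G) S (hZ z hz)
    have hzm := oo_mem hz' S fun w hw => push_supp S hw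
    have ham := oo_mem ha (lk G ∅) fun w _ i u hu => absurd hu (Finset.notMem_empty u)
    obtain ⟨mu, m1, m2, m3⟩ := alexander S hS ham (oo_ne ha.alt h0) (i := m) (j := 2) rfl hzm
    obtain ⟨y, hy, hy'⟩ := m3
    exact ⟨mu, ⟨m1, m2⟩, y, hy, hy'.symm⟩
  set r := finrank ℝ Z with hr
  let b : Basis (Fin r) ℝ Z := Module.finBasis ℝ Z
  have hal' : ∀ i : Fin r, ∃ mu ∈ ZC G Sᶜ, ∃ y ∈ KK G (triv V) S ∅ (m + 1),
      Lz m S (b i : Z) - Dm G S (oo a) mu = bd ℝ y := fun i => hal _ (b i).2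
  choose mu hmu y hy he using hal'
  let f : (Fin r → ℝ) →ₗ[ℝ] ({Q : Finset V // SqIn G Sᶜ Q} → ℝ) :=
    EQ G Sᶜ ∘ₗ Fintype.linearCombination ℝ mu
  have hlt : finrank ℝ ({Q : Finset V // SqIn G Sᶜ Q} → ℝ) < finrank ℝ (Fin r → ℝ) := by
    rw [Module.finrank_fintype_fun_eq_card, Module.finrank_fintype_fun_eq_card, Fintype.card_fin,
      Fintype.card_subtype]
    refine lt_of_le_of_lt (le_of_eq ?_) hn
    unfold nsq
    congr
  obtain ⟨t, ht, ht0⟩ := (Submodule.ne_bot_iff _).1 (LinearMap.ker_ne_bot_of_finrank_lt (f := f) hlt)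
  have hf : f t = 0 := ht
  refine ⟨((∑ i, t i • b i : Z) : (Fin m → {v // v ∈ S}) → ℝ), Submodule.coe_mem _, ?_,
    ∑ i, t i • mu i, Submodule.sum_mem _ fun i _ => Submodule.smul_mem _ _ (hmu i), ?_,
    ∑ i, t i • y i, Submodule.sum_mem _ fun i _ => Submodule.smul_mem _ _ (hy i), ?_⟩
  · intro h
    apply ht0
    have h1 : (∑ i, t i • b i : Z) = 0 := Subtype.ext h
    have h2 := Fintype.linearIndependent_iff.1 b.linearIndependent t h1
    funext i
    exact h2 i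
  · rw [← hf]
    rfl
  · rw [← Lz_apply]
    have h1 : ((∑ i, t i • b i : Z) : (Fin m → {v // v ∈ S}) → ℝ) =
        ∑ i, t i • ((b i : Z) : (Fin m → {v // v ∈ S}) → ℝ) := by
      simp
    rw [h1, map_sum, map_sum, map_sum, ← Finset.sum_sub_distrib]
    refine Finset.sum_congr rfl fun i _ => ?_
    rw [map_smul, map_smul, map_smul, ← he i, smul_sub]

/-- a bounded cocycle which detects the cycle -/
theorem exists_detect {m : ℕ} (hS : Sph (m + 2) G) {a : (Fin (m + 2) → V) → ℝ}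
    (ha : IsCyc (m + 2) G a) (h0 : a ≠ 0) (S : Set V)
    (Z : Submodule ℝ ((Fin m → {v // v ∈ S}) → ℝ))
    (hZ : ∀ z ∈ Z, IsCyc m (GA G fun v => v ∈ S) z)
    (hZ' : ∀ z ∈ Z, z ≠ 0 → ∃ K : Subgroup (W (GA G fun v => v ∈ S)), K.index ≠ 0 ∧
      K ≤ (par (GA G fun v => v ∈ S)).ker ∧ 0 < svol (GA G fun v => v ∈ S) m z K)
    (hn : nsq G Sᶜ < finrank ℝ Z) :
    ∃ c, BC G (m + 2) c ∧ pair (gen G) a c ≠ 0 := by
  obtain ⟨z, hz, hz0, mu, hmu, hE, y, hy, he⟩ := exists_dual hS ha h0 S Z hZ hn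
  obtain ⟨K, k1, k2, k3⟩ := hZ' z hz hz0
  obtain ⟨c, hc, hp⟩ := exists_bc (GA G fun v => v ∈ S) m z K k1 k2 k3
  have hφ : SqFree (GA G fun v => ¬ v ∈ S) fun a b => Km mu a.1 b.1 :=
    sqfree_of hmu fun Q hQ => congrFun hE ⟨Q, hQ⟩
  set B : ℝ := ∑ s, ∑ t, |Km mu s t| with hBdef
  have hB0 : 0 ≤ B := Finset.sum_nonneg fun s _ => Finset.sum_nonneg fun t _ => abs_nonneg _
  have hB : ∀ x y, |Km mu x y| ≤ B := by
    intro x y
    calc |Km mu x y| ≤ ∑ t, |Km mu x t| :=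
          Finset.single_le_sum (f := fun t => |Km mu x t|) (fun _ _ => abs_nonneg _)
            (Finset.mem_univ y)
      _ ≤ B := Finset.single_le_sum (f := fun s => ∑ t, |Km mu s t|)
            (fun _ _ => Finset.sum_nonneg fun _ _ => abs_nonneg _) (Finset.mem_univ x)
  obtain ⟨D, d1, d2, _, d4, d5⟩ := exists_cochain G (fun v => ¬ v ∈ S) (Km mu) hφ B
    (fun x y _ _ _ => hB x y) hB0
  have d1' : ∀ s g₀ g₁ g₂, D (gen G s * g₀) (gen G s * g₁) (gen G s * g₂) =
        (if ¬ s ∈ S then -1 else 1) * D g₀ g₁ g₂ := by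
    intro s g₀ g₁ g₂
    rw [d1]
    congr
  have d5' : ∀ s t, G.Adj s t → D 1 (gen G s) (gen G s * gen G t) =
        if ¬ s ∈ S ∧ ¬ t ∈ S then 2 * Km mu s t else 0 := by
    intro s t hst
    rw [d5 s t hst]
    congr
  refine ⟨_, prod_bc (fun v => v ∈ S) d1' d2 d4 hc, ?_⟩
  rw [pair_prod (fun v => v ∈ S) hφ ha d5' c]
  have h1 := pair_duality ha S (hZ z hz) hmu hy he hc
  intro h2
  apply hp
  rw [h1]
  rcases mul_eq_zero.1 h2 with h3 | h3
  · norm_num at h3
  · rw [h3, mul_zero]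

end

section

variable {V : Type} [Fintype V]

/-- a bounded cocycle bounds the simplicial volume from below -/
theorem svol_ge {G : SimpleGraph V} {n : ℕ} {a : (Fin n → V) → ℝ}
    {c : (Fin (n + 1) → W G) → ℝ} {K : ℝ} (hc : BC G n c) (hK : ∀ g, |c g| ≤ K)
    (H : Subgroup (W G)) (hH : H.index ≠ 0) (hε : H ≤ (par G).ker) :
    (H.index : ℝ) * |pair (gen G) a c| ≤ 2 ^ n * K * svol G n a H := by
  have hK0 : 0 ≤ K := (abs_nonneg _).trans (hK 1)
  obtain ⟨S, hS⟩ : ∃ S : Set ℝ, S = {r | ∃ z : (Fin (n + 1) → W G) →₀ ℝ,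
    Homol G n H z (fch G n a H) ∧ r = z.sum fun _ t => |t|} := ⟨_, rfl⟩
  have hsv : svol G n a H = sInf S := by
    rw [hS]
    rfl
  have hne : S.Nonempty := by
    rw [hS]
    exact ⟨_, fch G n a H, fun _ _ _ => rfl, rfl⟩
  have hinv : ∀ h ∈ H, ∀ g : Fin (n + 1) → W G, c (fun i => h * g i) = c g := by
    intro h hh g
    rw [equiv_of_gen G hc.gen, MonoidHom.mem_ker.1 (hε hh)]
    simp
  have h0 : ∀ r ∈ S, (H.index : ℝ) * |pair (gen G) a c| ≤ 2 ^ n * K * r := by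
    intro r hr
    rw [hS] at hr
    obtain ⟨z, hz, rfl⟩ := hr
    have h1 := hz c hinv hc.coc
    rw [Pool.Agent.N13.QC.T.sum_fch G n a c hc.gen H hH] at h1
    have h2 := Pool.Agent.N13.QC.T.abs_sum_le c K hK z
    rw [h1, abs_mul, abs_mul, abs_of_pos (by positivity : (0 : ℝ) < (1 / 2) ^ n), Nat.abs_cast] at h2
    have h3 : (2 : ℝ) ^ n * (1 / 2) ^ n = 1 := by
      rw [← mul_pow]
      norm_num
    calc (H.index : ℝ) * |pair (gen G) a c|
        = 2 ^ n * ((1 / 2) ^ n * ((H.index : ℝ) * |pair (gen G) a c|)) := by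
          rw [← mul_assoc, h3, one_mul]
      _ ≤ 2 ^ n * (K * z.sum fun _ t => |t|) := mul_le_mul_of_nonneg_left h2 (by positivity)
      _ = 2 ^ n * K * z.sum fun _ t => |t| := by ring
  rw [hsv]
  rcases hK0.eq_or_lt with hK1 | hK1
  · obtain ⟨r, hr⟩ := hne
    have h1 := h0 r hr
    rw [← hK1, mul_zero, zero_mul] at h1 ⊢
    exact h1
  · have hpos : (0 : ℝ) < 2 ^ n * K := by positivity
    have h1 : (H.index : ℝ) * |pair (gen G) a c| / (2 ^ n * K) ≤ sInf S := by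
      refine le_csInf hne fun r hr => ?_
      rw [div_le_iff₀ hpos, mul_comm r]
      exact h0 r hr
    rw [div_le_iff₀ hpos] at h1
    rw [mul_comm (2 ^ n * K)]
    exact h1

/-- pull-back of bounded cocycles along simplicial maps -/
theorem pull_bc {n : ℕ} {V₀ : Type} [Fintype V₀] {G : SimpleGraph V}
    {G₀ : SimpleGraph V₀} (f : V → V₀) (hf : ∀ x y, G.Adj x y → f x = f y ∨ G₀.Adj (f x) (f y))
    {c : (Fin (n + 1) → W G₀) → ℝ} (hc : BC G₀ n c) :
    ∃ c' : (Fin (n + 1) → W G) → ℝ, BC G n c' ∧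
      ∀ a : (Fin n → V) → ℝ, pair (gen G) a c' = pair (gen G₀) (push f a) c := by
  let φ : W G →* W G₀ := lft G (fun x => gen G₀ (f x)) (fun x => gen_sq _ _)
    (fun x y hxy => by
      rcases hf x y hxy with h | h
      · rw [h]
      · exact gen_comm _ h)
  have hφ : ∀ x, φ (gen G x) = gen G₀ (f x) := fun x => lft_gen _ _ _ _ _
  obtain ⟨K, hK⟩ := hc.bdd
  refine ⟨fun w => c (fun i => φ (w i)), ⟨?_, ?_, ⟨K, fun w => hK _⟩⟩, ?_⟩
  · intro x w
    simp only [map_mul, hφ]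
    exact hc.gen _ _
  · intro w
    exact hc.coc fun i => φ (w i)
  · intro a
    rw [pair_push]
    unfold pair
    refine Finset.sum_congr rfl fun v _ => ?_
    congr 1
    change c (fun i => φ (Fin.partialProd (gen G ∘ v) i)) = _
    congr 1
    funext i
    refine Fin.induction ?_ (fun j hj => ?_) i
    · rw [Fin.partialProd_zero, Fin.partialProd_zero, map_one]
    · rw [Fin.partialProd_succ, Fin.partialProd_succ, map_mul, hj]
      congr 1

/-- a bounded cocycle which detects the image of the cycle gives a lower bound -/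
theorem bound_of_bc {n : ℕ} {V₀ : Type} [Fintype V₀] {G : SimpleGraph V}
    {G₀ : SimpleGraph V₀} (f : V → V₀) (hf : ∀ x y, G.Adj x y → f x = f y ∨ G₀.Adj (f x) (f y))
    (a : (Fin n → V) → ℝ) {c : (Fin (n + 1) → W G₀) → ℝ} (hc : BC G₀ n c)
    (hp : pair (gen G₀) (push f a) c ≠ 0) :
    ∃ c : ℝ, 0 < c ∧ ∀ H : Subgroup (W G), H.index ≠ 0 → H ≤ (par G).ker →
      c * H.index ≤ svol G n a H := by
  obtain ⟨c', hc', hp'⟩ := pull_bc f hf hc
  obtain ⟨K, hK⟩ := hc'.bdd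
  have hK0 : 0 ≤ K := (abs_nonneg _).trans (hK 1)
  have hpos : (0 : ℝ) < 2 ^ n * (K + 1) := by positivity
  refine ⟨|pair (gen G) a c'| / (2 ^ n * (K + 1)), ?_, ?_⟩
  · refine div_pos (abs_pos.2 ?_) hpos
    rw [hp' a]
    exact hp
  · intro H hH hε
    have h1 := svol_ge (a := a) (K := K + 1) hc' (fun g => (hK g).trans (by linarith)) H hH hε
    rw [div_mul_eq_mul_div, div_le_iff₀ hpos]
    linarith

end

/-- The induction from dimension `m` to dimension `m + 2`. -/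
theorem main {V' V : Type} [Fintype V'] [Fintype V] [LinearOrder V] (m : ℕ) (G' : SimpleGraph V')
    (G : SimpleGraph V) (f : V' → V) (hf : ∀ x y, G'.Adj x y → f x = f y ∨ G.Adj (f x) (f y))
    (hS : Sph (m + 2) G) (a : (Fin (m + 2) → V') → ℝ) (ha : IsCyc (m + 2) G' a)
    (h0 : push f a ≠ 0) (S : Set V) (Z : Submodule ℝ ((Fin m → {v // v ∈ S}) → ℝ))
    (hZ : ∀ z ∈ Z, IsCyc m (GA G fun v => v ∈ S) z)
    (hZ' : ∀ z ∈ Z, z ≠ 0 → ∃ K : Subgroup (W (GA G fun v => v ∈ S)), K.index ≠ 0 ∧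
      K ≤ (par (GA G fun v => v ∈ S)).ker ∧ 0 < svol (GA G fun v => v ∈ S) m z K)
    (hn : nsq G Sᶜ < finrank ℝ Z) :
    ∃ c : ℝ, 0 < c ∧ ∀ H : Subgroup (W G'), H.index ≠ 0 → H ≤ (par G').ker →
      c * H.index ≤ svol G' (m + 2) a H := by
  obtain ⟨c, hc, hp⟩ := exists_detect hS (ha.push f hf) h0 S Z hZ hZ' hn
  exact bound_of_bc f hf a hc hp

end Pool.Agent.Helper41.SE
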