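import Pool.Agent.Helper41.SE.E7

/-!
The cup product of cochains of all degrees.
-/

set_option autoImplicit false
set_option linter.unusedSectionVars false

open scoped Classical

namespace Pool.Agent.Helper41.SE

open Pool.Agent.Q134.SV (cobd cobd_cons cobd_sub)

section cup

variable {X : Type} {q : ℕ}

/-- the cup product `c(g_0, …, g_p) d(g_p, …, g_(p+q))` -/
noncomputable def cup : (p : ℕ) → ((Fin (p + 1) → X) → ℝ) → ((Fin (q + 1) → X) → ℝ) →
    (Fin (q + p + 1) → X) → ℝ
  | 0, c, d => fun g => c (fun _ => g 0) * d g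
  | p + 1, c, d => fun g => cup p (fun g' => c (Fin.cons (g 0) g')) d (Fin.tail g)

theorem cup_cons (p : ℕ) (c : (Fin (p + 2) → X) → ℝ) (d : (Fin (q + 1) → X) → ℝ) (x : X)
    (g : Fin (q + p + 1) → X) :
    cup (p + 1) c d (Fin.cons x g) = cup p (fun g' => c (Fin.cons x g')) d g := by
  change cup p (fun g' => c (Fin.cons ((Fin.cons x g : Fin (q + p + 2) → X) 0) g')) d
    (Fin.tail (Fin.cons x g : Fin (q + p + 2) → X)) = _
  rw [Fin.cons_zero, Fin.tail_cons]

theorem cup_sub : ∀ (p : ℕ) (c c' : (Fin (p + 1) → X) → ℝ) (d : (Fin (q + 1) → X) → ℝ)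
    (g : Fin (q + p + 1) → X), cup p (fun g' => c g' - c' g') d g = cup p c d g - cup p c' d g
  | 0, c, c', d, g => by
    simp only [cup]
    ring
  | p + 1, c, c', d, g => by
    simp only [cup]
    exact cup_sub p _ _ d _

theorem cup_cobd : ∀ (p : ℕ) (c : (Fin (p + 1) → X) → ℝ) (d : (Fin (q + 1) → X) → ℝ)
    (_ : ∀ g : Fin (q + 2) → X, cobd d g = 0) (g : Fin (q + p + 2) → X),
    cobd (cup p c d) g = cup (p + 1) (cobd c) d g
  | 0, c, d, hd, g => by
    obtain ⟨x, g, rfl⟩ : ∃ x g', g = (Fin.cons x g' : Fin (q + 2) → X) :=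
      ⟨g 0, Fin.tail g, (Fin.cons_self_tail g).symm⟩
    have h1 : cobd (cup 0 c d) (Fin.cons x g) = cup 0 c d g -
        cobd (fun g' => cup 0 c d (Fin.cons x g')) g := cobd_cons (cup 0 c d) x g
    have h2 := cup_cons 0 (cobd c) d x g
    have h3 : cobd (fun g' : Fin q → X => cup 0 c d (Fin.cons x g')) g =
        c (fun _ => x) * cobd (fun g' => d (Fin.cons x g')) g := by
      unfold cobd
      rw [Finset.mul_sum]
      refine Finset.sum_congr rfl fun i _ => ?_
      simp only [cup, Fin.cons_zero]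
      ring
    have h4 : cobd (fun g' => d (Fin.cons x g')) g = d g := by
      have := cobd_cons d x g
      rw [hd] at this
      linarith
    have h5 : cobd c (Fin.cons x fun _ => g 0) = c (fun _ => g 0) - c (fun _ => x) := by
      rw [cobd_cons]
      congr 1
      unfold cobd
      rw [Fin.sum_univ_one]
      simp only [Fin.val_zero, pow_zero, one_mul]
      congr 1
      funext j
      obtain rfl : j = 0 := Subsingleton.elim (α := Fin 1) j 0
      simp
    refine h1.trans ?_
    refine Eq.trans ?_ h2.symm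
    rw [h3, h4]
    change c (fun _ => g 0) * d g - c (fun _ => x) * d g = cobd c (Fin.cons x fun _ => g 0) * d g
    rw [h5]
    ring
  | p + 1, c, d, hd, g => by
    obtain ⟨x, g, rfl⟩ : ∃ x g', g = (Fin.cons x g' : Fin (q + p + 3) → X) :=
      ⟨g 0, Fin.tail g, (Fin.cons_self_tail g).symm⟩
    have h1 : cobd (cup (p + 1) c d) (Fin.cons x g) = cup (p + 1) c d g -
        cobd (fun g' => cup (p + 1) c d (Fin.cons x g')) g := cobd_cons (cup (p + 1) c d) x g
    have h2 := cup_cons (p + 1) (cobd c) d x g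
    have h3 : (fun g' : Fin (q + p + 1) → X => cup (p + 1) c d (Fin.cons x g')) =
        cup p (fun g' => c (Fin.cons x g')) d := by
      funext g'
      exact cup_cons p c d x g'
    have h4 := cup_cobd p (fun g' => c (Fin.cons x g')) d hd g
    have h5 : (fun g' : Fin (p + 2) → X => cobd c (Fin.cons x g')) =
        fun g' => c g' - cobd (fun g'' => c (Fin.cons x g'')) g' := by
      funext g'
      exact cobd_cons c x g'
    have h6 : cobd (fun g' : Fin (q + p + 1) → X => cup (p + 1) c d (Fin.cons x g')) g =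
        cup (p + 1) (cobd fun g' => c (Fin.cons x g')) d g := by
      rw [h3]
      exact h4
    have h7 : cup (p + 1) (fun g' => cobd c (Fin.cons x g')) d g =
        cup (p + 1) c d g - cup (p + 1) (cobd fun g' => c (Fin.cons x g')) d g := by
      rw [h5]
      exact cup_sub (p + 1) _ _ d g
    refine h1.trans ?_
    refine Eq.trans ?_ h2.symm
    refine Eq.trans ?_ h7.symm
    exact congrArg (fun r => cup (p + 1) c d g - r) h6

theorem cup_abs : ∀ (p : ℕ) (c : (Fin (p + 1) → X) → ℝ) (d : (Fin (q + 1) → X) → ℝ) {C D : ℝ},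
    (∀ g, |c g| ≤ C) → (∀ g, |d g| ≤ D) → ∀ g : Fin (q + p + 1) → X, |cup p c d g| ≤ C * D
  | 0, c, d, C, D, hc, hd, g => by
    simp only [cup]
    rw [abs_mul]
    exact mul_le_mul (hc _) (hd _) (abs_nonneg _) ((abs_nonneg _).trans (hc fun _ => g 0))
  | p + 1, c, d, C, D, hc, hd, g => by
    simp only [cup]
    exact cup_abs p _ d (fun g' => hc _) hd _

/-- equivariance -/
theorem cup_equiv : ∀ (p : ℕ) (c c' : (Fin (p + 1) → X) → ℝ) (d d' : (Fin (q + 1) → X) → ℝ)
    (φ : X → X) (s t : ℝ), (∀ g, c' (fun i => φ (g i)) = s * c g) →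
    (∀ g, d' (fun i => φ (g i)) = t * d g) →
    ∀ g : Fin (q + p + 1) → X, cup p c' d' (fun i => φ (g i)) = s * t * cup p c d g
  | 0, c, c', d, d', φ, s, t, hc, hd, g => by
    simp only [cup]
    rw [hd g, hc fun _ => g 0]
    ring
  | p + 1, c, c', d, d', φ, s, t, hc, hd, g => by
    simp only [cup]
    refine cup_equiv p (fun g' => c (Fin.cons (g 0) g')) (fun g' => c' (Fin.cons (φ (g 0)) g')) d d'
      φ s t ?_ hd (Fin.tail g)
    intro g'
    rw [← hc]
    congr 1
    funext i
    refine Fin.cases ?_ (fun i => ?_) i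
    · simp
    · simp

end cup

end Pool.Agent.Helper41.SE
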