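import Pool.Agent.Helper41.SE.E7

/-!
Normalisation of cochains.
-/

set_option autoImplicit false
set_option linter.unusedSectionVars false

open scoped Classical

namespace Pool.Agent.Helper41.SE

open Pool.Agent.W907.SG (W cox)
open Pool.Agent.Q134.SV (cobd cobd_cons cobd_sub gen Good IsCyc pair stokes gen_comm)

section nrm

variable {X : Type}

/-- vanishing on degenerate tuples -/
def Nrm {n : ℕ} (f : (Fin (n + 1) → X) → ℝ) : Prop :=
  ∀ (g : Fin (n + 1) → X) (i : Fin n), g i.castSucc = g i.succ → f g = 0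

theorem Nrm.cons {n : ℕ} {f : (Fin (n + 2) → X) → ℝ} (h : Nrm f) (x : X) :
    Nrm fun g : Fin (n + 1) → X => f (Fin.cons x g) := by
  intro g i hi
  refine h _ i.succ ?_
  rw [← Fin.succ_castSucc, Fin.cons_succ, Fin.cons_succ]
  exact hi

theorem cobd_zero {n : ℕ} (g : Fin (n + 1) → X) : cobd (fun _ : Fin n → X => (0 : ℝ)) g = 0 := by
  unfold cobd
  simp

theorem Nrm.cobd : ∀ {n : ℕ} {f : (Fin (n + 1) → X) → ℝ}, Nrm f → Nrm (cobd f)
  | 0, f, _ => by
    intro g i hi
    obtain ⟨x, g, rfl⟩ : ∃ x g', g = (Fin.cons x g' : Fin 2 → X) :=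
      ⟨g 0, Fin.tail g, (Fin.cons_self_tail g).symm⟩
    obtain rfl : i = 0 := Subsingleton.elim (α := Fin 1) i 0
    have hx : x = g 0 := hi
    rw [cobd_cons]
    unfold Pool.Agent.Q134.SV.cobd
    rw [Fin.sum_univ_one]
    simp only [Fin.val_zero, pow_zero, one_mul]
    have : (Fin.cons x (g ∘ (0 : Fin 1).succAbove) : Fin 1 → X) = g := by
      funext j
      obtain rfl : j = 0 := Subsingleton.elim (α := Fin 1) j 0
      exact hx
    rw [this, sub_self]
  | n + 1, f, hf => by
    intro g i hi
    obtain ⟨x, g, rfl⟩ : ∃ x g', g = (Fin.cons x g' : Fin (n + 3) → X) :=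
      ⟨g 0, Fin.tail g, (Fin.cons_self_tail g).symm⟩
    rw [cobd_cons]
    revert hi
    refine Fin.cases ?_ (fun j => ?_) i
    · intro hi
      have hx : x = g 0 := hi
      obtain ⟨y, g, rfl⟩ : ∃ x g', g = (Fin.cons x g' : Fin (n + 2) → X) :=
        ⟨g 0, Fin.tail g, (Fin.cons_self_tail g).symm⟩
      have hy : x = y := hx
      subst hy
      rw [cobd_cons]
      have h1 : (fun g' : Fin n → X => f (Fin.cons x (Fin.cons x g'))) = fun _ => 0 := by
        funext g'
        exact hf _ 0 rfl
      rw [h1, cobd_zero]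
      ring
    · intro hi
      have hi' : g j.castSucc = g j.succ := by
        rw [← Fin.succ_castSucc, Fin.cons_succ, Fin.cons_succ] at hi
        exact hi
      rw [hf g j hi', (hf.cons x).cobd g j hi', sub_zero]

theorem cobd_add {n : ℕ} (b b' : (Fin n → X) → ℝ) (g : Fin (n + 1) → X) :
    cobd (fun g' => b g' + b' g') g = cobd b g + cobd b' g := by
  unfold cobd
  rw [← Finset.sum_add_distrib]
  exact Finset.sum_congr rfl fun i _ => by ring

theorem cobd_cobd : ∀ {n : ℕ} (f : (Fin n → X) → ℝ) (g : Fin (n + 2) → X), cobd (cobd f) g = 0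
  | 0, f, g => by
    have h1 : cobd f = fun _ => f fun i => i.elim0 := by
      funext h
      unfold cobd
      rw [Fin.sum_univ_one]
      simp only [Fin.val_zero, pow_zero, one_mul]
      congr 1
      funext j
      exact j.elim0
    rw [h1]
    unfold cobd
    rw [Fin.sum_univ_two]
    simp
  | n + 1, f, g => by
    obtain ⟨x, g, rfl⟩ : ∃ x g', g = (Fin.cons x g' : Fin (n + 3) → X) :=
      ⟨g 0, Fin.tail g, (Fin.cons_self_tail g).symm⟩
    rw [cobd_cons]
    have h1 : (fun g' : Fin (n + 1) → X => cobd f (Fin.cons x g')) =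
        fun g' => f g' - cobd (fun g'' => f (Fin.cons x g'')) g' := by
      funext g'
      exact cobd_cons f x g'
    rw [h1, cobd_sub, cobd_cobd (fun g'' => f (Fin.cons x g'')) g]
    ring

/-- the normalisation -/
noncomputable def nu : (n : ℕ) → ((Fin (n + 1) → X) → ℝ) → (Fin (n + 1) → X) → ℝ
  | 0, c => c
  | n + 1, c => fun g => if ∃ i : Fin (n + 1), g i.castSucc = g i.succ then 0 else
      cobd (nu n fun g' => c (Fin.cons (g 0) g')) g

theorem nu_sub : ∀ (n : ℕ) (c c' : (Fin (n + 1) → X) → ℝ) (g : Fin (n + 1) → X),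
    nu n (fun g' => c g' - c' g') g = nu n c g - nu n c' g
  | 0, c, c', g => rfl
  | n + 1, c, c', g => by
    simp only [nu]
    split_ifs
    · ring
    · rw [← cobd_sub]
      congr 1
      funext g'
      exact nu_sub n _ _ g'

theorem nu_nrm (n : ℕ) (c : (Fin (n + 1) → X) → ℝ) : Nrm (nu n c) := by
  intro g i hi
  rcases n with _ | n
  · exact i.elim0
  · simp only [nu]
    rw [if_pos ⟨i, hi⟩]

theorem nu_cobd : ∀ (n : ℕ) (c : (Fin (n + 1) → X) → ℝ) (g : Fin (n + 2) → X),
    nu (n + 1) (cobd c) g = cobd (nu n c) g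
  | 0, c, g => by
    simp only [nu]
    split_ifs with h
    · obtain ⟨i, hi⟩ := h
      exact ((nu_nrm 0 c).cobd g i hi).symm
    · have h1 : (fun g' : Fin 1 → X => cobd c (Fin.cons (g 0) g')) =
          fun g' => c g' - c (fun _ => g 0) := by
        funext g'
        rw [cobd_cons]
        congr 1
        unfold cobd
        rw [Fin.sum_univ_one]
        simp only [Fin.val_zero, pow_zero, one_mul]
        congr 1
        funext j
        obtain rfl : j = 0 := Subsingleton.elim (α := Fin 1) j 0
        rfl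
      rw [h1]
      unfold cobd
      rw [Fin.sum_univ_two, Fin.sum_univ_two]
      simp
      ring
  | n + 1, c, g => by
    have e : nu (n + 2) (cobd c) g = if ∃ i : Fin (n + 2), g i.castSucc = g i.succ then 0 else
      cobd (nu (n + 1) fun g' => cobd c (Fin.cons (g 0) g')) g := rfl
    rw [e]
    split_ifs with h
    · obtain ⟨i, hi⟩ := h
      exact ((nu_nrm (n + 1) c).cobd g i hi).symm
    · have h1 : (fun g' : Fin (n + 2) → X => cobd c (Fin.cons (g 0) g')) =
          fun g' => c g' - cobd (fun g'' => c (Fin.cons (g 0) g'')) g' := by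
        funext g'
        exact cobd_cons c (g 0) g'
      have h2 : nu (n + 1) (fun g' => cobd c (Fin.cons (g 0) g')) = fun g' =>
          nu (n + 1) c g' - cobd (nu n fun g'' => c (Fin.cons (g 0) g'')) g' := by
        funext g'
        rw [h1, nu_sub, nu_cobd n]
      rw [h2, cobd_sub, cobd_cobd, sub_zero]

/-- the homotopy -/
noncomputable def tau : (n : ℕ) → ((Fin (n + 2) → X) → ℝ) → (Fin (n + 1) → X) → ℝ
  | 0, c => fun g => nu 0 (fun g' => c (Fin.cons (g 0) g')) g - c (Fin.cons (g 0) g)
  | n + 1, c => fun g => nu (n + 1) (fun g' => c (Fin.cons (g 0) g')) g - c (Fin.cons (g 0) g) -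
      cobd (tau n fun g' => c (Fin.cons (g 0) g')) g

theorem tau_sub : ∀ (n : ℕ) (c c' : (Fin (n + 2) → X) → ℝ) (g : Fin (n + 1) → X),
    tau n (fun g' => c g' - c' g') g = tau n c g - tau n c' g
  | 0, c, c', g => by
    simp only [tau, nu]
    ring
  | n + 1, c, c', g => by
    simp only [tau]
    rw [nu_sub]
    have : cobd (tau n fun g' => c (Fin.cons (g 0) g') - c' (Fin.cons (g 0) g')) g =
        cobd (tau n fun g' => c (Fin.cons (g 0) g')) g -
          cobd (tau n fun g' => c' (Fin.cons (g 0) g')) g := by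
      rw [← cobd_sub]
      congr 1
      funext g'
      exact tau_sub n _ _ g'
    rw [this]
    ring

theorem tau_cobd : ∀ (n : ℕ) (c : (Fin (n + 2) → X) → ℝ) (g : Fin (n + 2) → X),
    nu (n + 1) c g - c g = cobd (tau n c) g + tau (n + 1) (cobd c) g
  | 0, c, g => by
    have h1 : (fun g' : Fin 2 → X => cobd c (Fin.cons (g 0) g')) =
        fun g' => c g' - cobd (fun g'' => c (Fin.cons (g 0) g'')) g' := by
      funext g'
      exact cobd_cons c (g 0) g'
    have h2 : tau 1 (cobd c) g = nu 1 (fun g' => cobd c (Fin.cons (g 0) g')) g -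
      cobd c (Fin.cons (g 0) g) - cobd (tau 0 fun g' => cobd c (Fin.cons (g 0) g')) g := rfl
    have h3 : cobd (tau 0 fun g' => cobd c (Fin.cons (g 0) g')) g = cobd (tau 0 c) g -
        cobd (tau 0 (cobd fun g'' => c (Fin.cons (g 0) g''))) g := by
      rw [← cobd_sub, h1]
      congr 1
      funext g'
      exact tau_sub 0 _ _ g'
    have h4 : (tau 0 (cobd fun g'' : Fin 1 → X => c (Fin.cons (g 0) g''))) = fun _ => 0 := by
      funext g'
      simp only [tau, nu]
      ring
    rw [h2, h3, h4, cobd_zero, h1, nu_sub, nu_cobd, congrFun h1 g]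
    simp only [nu]
    ring
  | n + 1, c, g => by
    have h1 : (fun g' : Fin (n + 3) → X => cobd c (Fin.cons (g 0) g')) =
        fun g' => c g' - cobd (fun g'' => c (Fin.cons (g 0) g'')) g' := by
      funext g'
      exact cobd_cons c (g 0) g'
    have h2 : tau (n + 2) (cobd c) g = nu (n + 2) (fun g' => cobd c (Fin.cons (g 0) g')) g -
      cobd c (Fin.cons (g 0) g) - cobd (tau (n + 1) fun g' => cobd c (Fin.cons (g 0) g')) g := rfl
    have h3 : cobd (tau (n + 1) fun g' => cobd c (Fin.cons (g 0) g')) g = cobd (tau (n + 1) c) g -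
        cobd (tau (n + 1) (cobd fun g'' => c (Fin.cons (g 0) g''))) g := by
      rw [← cobd_sub, h1]
      congr 1
      funext g'
      exact tau_sub (n + 1) _ _ g'
    have h4 : (tau (n + 1) (cobd fun g'' : Fin (n + 2) → X => c (Fin.cons (g 0) g''))) =
        fun g' => nu (n + 1) (fun g'' => c (Fin.cons (g 0) g'')) g' - c (Fin.cons (g 0) g') -
          cobd (tau n fun g'' => c (Fin.cons (g 0) g'')) g' := by
      funext g'
      have := tau_cobd n (fun g'' => c (Fin.cons (g 0) g'')) g'
      linarith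
    rw [h2, h3, h4, cobd_sub, cobd_sub, cobd_cobd, h1, nu_sub, nu_cobd, congrFun h1 g]
    ring

/-- bounds -/
theorem nu_abs : ∀ (n : ℕ) (c : (Fin (n + 1) → X) → ℝ) {C : ℝ}, (∀ g, |c g| ≤ C) →
    ∀ g, |nu n c g| ≤ (n + 1).factorial * C
  | 0, c, C, h, g => by
    simpa [nu] using h g
  | n + 1, c, C, h, g => by
    have hC : 0 ≤ C := (abs_nonneg _).trans (h g)
    simp only [nu]
    split_ifs
    · rw [abs_zero]
      positivity
    · unfold cobd
      calc _ ≤ ∑ i : Fin (n + 2), |(-1 : ℝ) ^ (i : ℕ) *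
            nu n (fun g' => c (Fin.cons (g 0) g')) (g ∘ i.succAbove)| :=
            Finset.abs_sum_le_sum_abs _ _
        _ ≤ ∑ i : Fin (n + 2), ((n + 1).factorial : ℝ) * C := by
            refine Finset.sum_le_sum fun i _ => ?_
            rw [abs_mul, abs_pow, abs_neg, abs_one, one_pow, one_mul]
            exact nu_abs n _ (fun g' => h _) _
        _ = ((n + 1 + 1).factorial : ℝ) * C := by
            rw [Finset.sum_const, Finset.card_univ, Fintype.card_fin, nsmul_eq_mul,
              Nat.factorial_succ (n + 1)]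
            push_cast
            ring

theorem cobd_equiv {n : ℕ} (φ : X → X) (s : ℝ) {c c' : (Fin n → X) → ℝ}
    (h : ∀ g, c' (fun i => φ (g i)) = s * c g) (g : Fin (n + 1) → X) :
    cobd c' (fun i => φ (g i)) = s * cobd c g := by
  unfold cobd
  rw [Finset.mul_sum]
  refine Finset.sum_congr rfl fun i _ => ?_
  have := h (g ∘ i.succAbove)
  change (-1 : ℝ) ^ (i : ℕ) * c' (fun j => φ ((g ∘ i.succAbove) j)) = _
  rw [this]
  ring

theorem cons_equiv {n : ℕ} (φ : X → X) (s : ℝ) {c c' : (Fin (n + 1) → X) → ℝ}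
    (h : ∀ g, c' (fun i => φ (g i)) = s * c g) (x : X) (g : Fin n → X) :
    c' (Fin.cons (φ x) fun i => φ (g i)) = s * c (Fin.cons x g) := by
  rw [← h]
  congr 1
  funext i
  refine Fin.cases ?_ (fun i => ?_) i
  · simp
  · simp

theorem nu_equiv : ∀ (n : ℕ) (φ : X → X), Function.Injective φ → ∀ (s : ℝ)
    (c c' : (Fin (n + 1) → X) → ℝ), (∀ g, c' (fun i => φ (g i)) = s * c g) →
    ∀ g, nu n c' (fun i => φ (g i)) = s * nu n c g
  | 0, φ, _, s, c, c', h, g => h g
  | n + 1, φ, hφ, s, c, c', h, g => by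
    simp only [nu]
    have e : (∃ i : Fin (n + 1), φ (g i.castSucc) = φ (g i.succ)) ↔
        ∃ i : Fin (n + 1), g i.castSucc = g i.succ := by
      simp only [hφ.eq_iff]
    by_cases h' : ∃ i : Fin (n + 1), g i.castSucc = g i.succ
    · rw [if_pos (e.2 h'), if_pos h', mul_zero]
    · rw [if_neg (fun h'' => h' (e.1 h'')), if_neg h']
      exact cobd_equiv φ s (fun g' => nu_equiv n φ hφ s _ _
        (fun g'' => cons_equiv φ s h (g 0) g'') g') g

theorem tau_equiv : ∀ (n : ℕ) (φ : X → X), Function.Injective φ → ∀ (s : ℝ)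
    (c c' : (Fin (n + 2) → X) → ℝ), (∀ g, c' (fun i => φ (g i)) = s * c g) →
    ∀ g, tau n c' (fun i => φ (g i)) = s * tau n c g
  | 0, φ, hφ, s, c, c', h, g => by
    simp only [tau]
    rw [nu_equiv 0 φ hφ s (fun g' => c (Fin.cons (g 0) g')) (fun g' => c' (Fin.cons (φ (g 0)) g'))
      (fun g'' => cons_equiv φ s h (g 0) g'') g, cons_equiv φ s h (g 0) g]
    ring
  | n + 1, φ, hφ, s, c, c', h, g => by
    simp only [tau]
    rw [nu_equiv (n + 1) φ hφ s (fun g' => c (Fin.cons (g 0) g'))
      (fun g' => c' (Fin.cons (φ (g 0)) g')) (fun g'' => cons_equiv φ s h (g 0) g'') g,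
      cons_equiv φ s h (g 0) g,
      cobd_equiv φ s (fun g' => tau_equiv n φ hφ s (fun g' => c (Fin.cons (g 0) g'))
        (fun g' => c' (Fin.cons (φ (g 0)) g')) (fun g'' => cons_equiv φ s h (g 0) g'') g') g]
    ring

end nrm

/-- a bounded cocycle can be normalised without changing its values at cycles -/
theorem good_of_bc {V : Type} [Fintype V] {G : SimpleGraph V} {n : ℕ}
    {c : (Fin (n + 1) → W G) → ℝ} (hc : BC G n c) : ∃ c', Good G n c' ∧
      ∀ a : (Fin n → V) → ℝ, IsCyc n G a → pair (gen G) a c' = pair (gen G) a c := by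
  obtain ⟨C, hC⟩ := hc.bdd
  have hgen : ∀ x g, nu n c (fun i => gen G x * g i) = - nu n c g := by
    intro x g
    have := nu_equiv n (fun y => gen G x * y) (mul_right_injective _) (-1) c c
      (fun g => by rw [hc.gen]; ring) g
    rw [this]
    ring
  have hc0 : cobd c = fun _ => 0 := funext hc.coc
  have hnu0 : ∀ n g, nu (X := W G) n (fun _ => 0) g = 0 := by
    intro n g
    have := nu_sub n (fun _ : Fin (n + 1) → W G => (0 : ℝ)) (fun _ => 0) g
    simp only [sub_self] at this
    exact this
  have htau0 : ∀ n g, tau (X := W G) n (fun _ => 0) g = 0 := by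
    intro n g
    have := tau_sub n (fun _ : Fin (n + 2) → W G => (0 : ℝ)) (fun _ => 0) g
    simp only [sub_self] at this
    exact this
  refine ⟨nu n c, ⟨hgen, ?_, ⟨_, nu_abs n c hC⟩, nu_nrm n c⟩, ?_⟩
  · intro g
    rw [← nu_cobd, hc0, hnu0]
  · intro a ha
    rcases n with _ | n
    · rfl
    · have h1 : ∀ g, nu (n + 1) c g = c g + cobd (tau n c) g := by
        intro g
        have := tau_cobd n c g
        rw [hc0, htau0, add_zero] at this
        linarith
      have h2 : pair (gen G) a (cobd (tau n c)) = 0 := by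
        refine stokes (gen G) (fun x y h => gen_comm G h) ha (tau n c) ?_
        intro x g
        have := tau_equiv n (fun y => gen G x * y) (mul_right_injective _) (-1) c c
          (fun g => by rw [hc.gen]; ring) g
        rw [this]
        ring
      have h3 : pair (gen G) a (nu (n + 1) c) = pair (gen G) a c + pair (gen G) a (cobd (tau n c)) := by
        unfold pair
        rw [← Finset.sum_add_distrib]
        refine Finset.sum_congr rfl fun v _ => ?_
        rw [h1]
        ring
      rw [h3, h2, add_zero]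

end Pool.Agent.Helper41.SE
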