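import Pool.Agent.Helper41.SE.F1
import Pool.Agent.Helper41.SE.F2

/-!
The product of bounded cocycles of two complementary special subgroups, and its value at a cycle.
-/

set_option autoImplicit false
set_option linter.unusedSectionVars false

open scoped Classical

namespace Pool.Agent.Helper41.SE

open Pool.Agent.W907.SG (W cox)
open Pool.Agent.Q134.SV Pool.Agent.N13.QC
open Pool.Agent.Helper41.SV (SqFree GA rA piA piA_gen rA_pos rA_neg)

section join

variable {X : Type} {q : ℕ}

/-- the tuple `(u, w)` -/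
def join : (p : ℕ) → (Fin p → X) → (Fin q → X) → Fin (q + p) → X
  | 0, _, w => w
  | p + 1, u, w => Fin.cons (u 0) (join p (Fin.tail u) w)

theorem join_cons (p : ℕ) (x : X) (u : Fin p → X) (w : Fin q → X) :
    join (p + 1) (Fin.cons x u) w = (Fin.cons x (join p u w) : Fin (q + p + 1) → X) := rfl

theorem comp_cons {Y : Type} {n : ℕ} (f : X → Y) (x : X) (v : Fin n → X) :
    f ∘ (Fin.cons x v : Fin (n + 1) → X) = Fin.cons (f x) (f ∘ v) := by
  funext i
  refine Fin.cases ?_ (fun i => ?_) i
  · rfl
  · rfl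

theorem join_comp {Y : Type} (f : X → Y) : ∀ (p : ℕ) (u : Fin p → X) (w : Fin q → X),
    f ∘ join p u w = join p (f ∘ u) (f ∘ w)
  | 0, _, _ => rfl
  | p + 1, u, w => by
    obtain ⟨x, u, rfl⟩ : ∃ x u', u = (Fin.cons x u' : Fin (p + 1) → X) :=
      ⟨u 0, Fin.tail u, (Fin.cons_self_tail u).symm⟩
    rw [comp_cons f x u, join_cons, join_cons, ← join_comp f p u w]
    exact comp_cons f x (join p u w)

theorem sum_join {M : Type} [AddCommMonoid M] [Fintype X] : ∀ (p : ℕ) (F : (Fin (q + p) → X) → M),
    ∑ v : Fin (q + p) → X, F v = ∑ u : Fin p → X, ∑ w : Fin q → X, F (join p u w)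
  | 0, F => (Fintype.sum_unique (fun u : Fin 0 → X => ∑ w : Fin q → X, F (join 0 u w))).symm
  | p + 1, F => by
    have h1 : ∑ v : Fin (q + p + 1) → X, F v =
        ∑ x, ∑ v : Fin (q + p) → X, F (Fin.cons x v : Fin (q + p + 1) → X) := by
      rw [← (Fin.consEquiv (fun _ : Fin (q + p + 1) => X)).sum_comp, Fintype.sum_prod_type]
      rfl
    have h2 : ∑ u : Fin (p + 1) → X, ∑ w : Fin q → X, F (join (p + 1) u w) =
        ∑ x, ∑ u : Fin p → X, ∑ w : Fin q → X, F (join (p + 1) (Fin.cons x u) w) := by
      rw [← (Fin.consEquiv (fun _ : Fin (p + 1) => X)).sum_comp, Fintype.sum_prod_type]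
      rfl
    refine Eq.trans h1 (Eq.trans ?_ h2.symm)
    refine Finset.sum_congr rfl fun x _ => ?_
    exact sum_join p fun v => F (Fin.cons x v : Fin (q + p + 1) → X)

theorem pp_cons {Γ : Type} [Group Γ] {n : ℕ} (h x : Γ) (v : Fin n → Γ) :
    (fun i => h * Fin.partialProd (Fin.cons x v : Fin (n + 1) → Γ) i) =
      Fin.cons h fun i => h * x * Fin.partialProd v i := by
  funext i
  refine Fin.cases ?_ (fun i => ?_) i
  · rw [Fin.partialProd_zero, mul_one, Fin.cons_zero]
  · rw [Fin.partialProd_succ', Fin.cons_succ, Fin.cons_zero, mul_assoc]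
    rfl

theorem cup_join {Γ : Type} [Group Γ] : ∀ (p : ℕ) (c : (Fin (p + 1) → Γ) → ℝ)
    (d : (Fin (q + 1) → Γ) → ℝ) (u : Fin p → Γ) (w : Fin q → Γ) (h : Γ),
    cup p c d (fun i => h * Fin.partialProd (join p u w) i) =
      c (fun i => h * Fin.partialProd u i) *
        d (fun i => h * Fin.partialProd u (Fin.last p) * Fin.partialProd w i)
  | 0, c, d, u, w, h => by
    have e1 : Fin.partialProd u (Fin.last 0) = 1 := Fin.partialProd_zero _
    rw [e1]
    change c (fun _ => h * Fin.partialProd w 0) * d (fun i => h * Fin.partialProd w i) = _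
    rw [Fin.partialProd_zero, mul_one]
    congr 2
    funext i
    obtain rfl : i = 0 := Subsingleton.elim (α := Fin 1) i 0
    rw [Fin.partialProd_zero, mul_one]
  | p + 1, c, d, u, w, h => by
    obtain ⟨x, u, rfl⟩ : ∃ x u', u = (Fin.cons x u' : Fin (p + 1) → Γ) :=
      ⟨u 0, Fin.tail u, (Fin.cons_self_tail u).symm⟩
    rw [join_cons]
    have h1 : (fun i => h * Fin.partialProd (Fin.cons x (join p u w) : Fin (q + p + 1) → Γ) i) =
      Fin.cons h fun i => h * x * Fin.partialProd (join p u w) i := pp_cons h x (join p u w)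
    have h2 := cup_cons p c d h (fun i => h * x * Fin.partialProd (join p u w) i)
    have h3 := cup_join p (fun g' => c (Fin.cons h g')) d u w (h * x)
    have h4 : Fin.partialProd (Fin.cons x u : Fin (p + 1) → Γ) (Fin.last (p + 1)) =
        x * Fin.partialProd u (Fin.last p) := by
      rw [← Fin.succ_last, Fin.partialProd_succ']
      rfl
    rw [pp_cons h x u, h4]
    refine (congrArg (cup (p + 1) c d) h1).trans (h2.trans (h3.trans ?_))
    rw [mul_assoc h x]

end join

variable {V : Type} [Fintype V] {G : SimpleGraph V} (A B : V → Prop)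

/-- the product is a bounded cocycle -/
theorem cup_bc {p q : ℕ} (hAB : ∀ x, B x ↔ ¬ A x) {c : (Fin (p + 1) → W (GA G A)) → ℝ}
    {d : (Fin (q + 1) → W (GA G B)) → ℝ} (hc : BC (GA G A) p c) (hd : BC (GA G B) q d) :
    BC G (q + p) (cup p (fun g => c fun i => piA G A (g i)) fun g => d fun i => piA G B (g i)) := by
  have hd0 : ∀ g : Fin (q + 2) → W G, cobd (fun g : Fin (q + 1) → W G =>
      d fun i => piA G B (g i)) g = 0 := fun g => hd.coc fun i => piA G B (g i)
  have hc0 : cobd (fun g : Fin (p + 1) → W G => c fun i => piA G A (g i)) = fun _ => 0 :=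
    funext fun g => hc.coc fun i => piA G A (g i)
  refine ⟨?_, ?_, ?_⟩
  · intro x g
    have h1 : ∀ g : Fin (p + 1) → W G, c (fun i => piA G A (gen G x * g i)) =
        (if A x then -1 else 1) * c (fun i => piA G A (g i)) := by
      intro g
      have e : (fun i => piA G A (gen G x * g i)) = fun i => rA G A x * piA G A (g i) := by
        funext i
        rw [map_mul, piA_gen]
      rw [e]
      by_cases hx : A x
      · rw [rA_pos G A hx, hc.gen, if_pos hx]
        ring
      · rw [rA_neg G A hx, if_neg hx]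
        simp
    have h2 : ∀ g : Fin (q + 1) → W G, d (fun i => piA G B (gen G x * g i)) =
        (if A x then 1 else -1) * d (fun i => piA G B (g i)) := by
      intro g
      have e : (fun i => piA G B (gen G x * g i)) = fun i => rA G B x * piA G B (g i) := by
        funext i
        rw [map_mul, piA_gen]
      rw [e]
      by_cases hx : A x
      · rw [rA_neg G B (fun h => (hAB x).1 h hx), if_pos hx]
        simp
      · rw [rA_pos G B ((hAB x).2 hx), hd.gen, if_neg hx]
        ring
    have h3 := cup_equiv p (fun g : Fin (p + 1) → W G => c fun i => piA G A (g i))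
      (fun g => c fun i => piA G A (g i)) (fun g : Fin (q + 1) → W G => d fun i => piA G B (g i))
      (fun g => d fun i => piA G B (g i)) (fun y => gen G x * y) _ _ h1 h2 g
    rw [h3]
    split_ifs <;> ring
  · intro g
    have h1 := cup_cobd p (fun g : Fin (p + 1) → W G => c fun i => piA G A (g i))
      (fun g : Fin (q + 1) → W G => d fun i => piA G B (g i)) hd0 g
    refine h1.trans ?_
    rw [hc0]
    have h2 := cup_sub (p + 1) (fun _ : Fin (p + 2) → W G => (0 : ℝ)) (fun _ => 0)
      (fun g : Fin (q + 1) → W G => d fun i => piA G B (g i)) g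
    simp only [sub_self] at h2
    exact h2
  · obtain ⟨C, hC⟩ := hc.bdd
    obtain ⟨D, hD⟩ := hd.bdd
    exact ⟨C * D, fun g => cup_abs p _ _ (fun _ => hC _) (fun _ => hD _) g⟩

theorem nrm_out {n : ℕ} {c : (Fin (n + 1) → W (GA G A)) → ℝ} (hc : Good (GA G A) n c)
    (h : W (GA G A)) {u : Fin n → V} (hu : ¬ ∀ i, A (u i)) :
    c (fun i => h * Fin.partialProd (rA G A ∘ u) i) = 0 := by
  push Not at hu
  obtain ⟨i, hi⟩ := hu
  refine hc.nrm _ i ?_
  rw [Fin.partialProd_succ]
  simp only [Function.comp_apply]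
  rw [rA_neg G A hi, mul_one]

theorem pp_last {n : ℕ} {u : Fin n → V} (hu : ∀ i, ¬ B (u i)) (i : Fin (n + 1)) :
    Fin.partialProd (rA G B ∘ u) i = 1 := by
  refine Fin.induction ?_ (fun j hj => ?_) i
  · exact Fin.partialProd_zero _
  · rw [Fin.partialProd_succ, hj, one_mul]
    exact rA_neg G B (hu j)

/-- the value of the product at a chain -/
theorem pair_cup {p q : ℕ} (hAB : ∀ x, B x ↔ ¬ A x) {c : (Fin (p + 1) → W (GA G A)) → ℝ}
    {d : (Fin (q + 1) → W (GA G B)) → ℝ} (hc : Good (GA G A) p c) (hd : Good (GA G B) q d)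
    (a : (Fin (q + p) → V) → ℝ) :
    pair (gen G) a (cup p (fun g => c fun i => piA G A (g i)) fun g => d fun i => piA G B (g i)) =
    ∑ u : Fin p → {v // A v}, ∑ w : Fin q → {v // B v},
      a (join p (fun i => (u i : V)) fun i => (w i : V)) *
        (c (Fin.partialProd (gen (GA G A) ∘ u)) * d (Fin.partialProd (gen (GA G B) ∘ w))) := by
  have hval : ∀ (u : Fin p → V) (w : Fin q → V),
      cup p (fun g => c fun i => piA G A (g i)) (fun g => d fun i => piA G B (g i))
        (Fin.partialProd (gen G ∘ join p u w)) =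
      c (Fin.partialProd (rA G A ∘ u)) * d (fun i => Fin.partialProd (rA G B ∘ u) (Fin.last p) *
        Fin.partialProd (rA G B ∘ w) i) := by
    intro u w
    have h1 := cup_join p (fun g => c fun i => piA G A (g i)) (fun g => d fun i => piA G B (g i))
      (gen G ∘ u) (gen G ∘ w) 1
    rw [← join_comp (gen G) p u w] at h1
    have h2 : (fun i => 1 * Fin.partialProd (gen G ∘ join p u w) i) =
        Fin.partialProd (gen G ∘ join p u w) := by
      funext i
      rw [one_mul]
    rw [h2] at h1
    rw [h1]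
    congr 1
    · congr 1
      funext i
      simp only [one_mul, piA_pp]
    · congr 1
      funext i
      simp only [one_mul, map_mul, piA_pp]
  unfold pair
  rw [sum_join p]
  symm
  refine Fintype.sum_of_injective (fun (u : Fin p → {v // A v}) (i : Fin p) => (u i : V)) ?_ _ _
    ?_ ?_
  · intro u u' h
    funext j
    exact Subtype.ext (congrFun h j)
  · intro u hu
    refine Finset.sum_eq_zero fun w _ => ?_
    rw [hval]
    have h1 : ¬ ∀ i, A (u i) := fun h => hu ⟨fun i => ⟨u i, h i⟩, rfl⟩
    have h2 := nrm_out A hc 1 h1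
    simp only [one_mul] at h2
    rw [h2, zero_mul, mul_zero]
  · intro u
    refine Fintype.sum_of_injective (fun (w : Fin q → {v // B v}) (i : Fin q) => (w i : V)) ?_ _ _
      ?_ ?_
    · intro u u' h
      funext j
      exact Subtype.ext (congrFun h j)
    · intro w hw
      rw [hval]
      have h1 : ¬ ∀ i, B (w i) := fun h => hw ⟨fun i => ⟨w i, h i⟩, rfl⟩
      rw [nrm_out B hd _ h1, mul_zero, mul_zero]
    · intro w
      rw [hval, pp_last B (fun i h => (hAB _).1 h (u i).2)]
      have e1 : rA G A ∘ (fun i => (u i : V)) = gen (GA G A) ∘ u := by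
        funext i
        exact rA_pos G A (u i).2
      have e2 : rA G B ∘ (fun i => (w i : V)) = gen (GA G B) ∘ w := by
        funext i
        exact rA_pos G B (w i).2
      rw [e1, e2]
      simp only [one_mul]

end Pool.Agent.Helper41.SE
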