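import Pool.Agent.Helper41.SE.F3
import Pool.Agent.Helper41.SE.E6

/-!
Alternating functions of pairs of tuples, and the cap product with a cocycle of arbitrary degree.
-/

set_option autoImplicit false
set_option linter.unusedSectionVars false

open scoped Classical

namespace Pool.Agent.Helper41.SE

open Pool.Agent.W907.SG Pool.Agent.W907.SM Module Pool.Agent.TH652.Dual
open Pool.Agent.Helper41.SD (alexander Dm Dm_apply)
open Pool.Agent.Q134.SV (IsCyc pair push gen cobd gen_comm sum_cons)

/-- substitution in an alternating function -/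
theorem alt_of_fill {V V' : Type} {m N : ℕ} {a : (Fin N → V) → ℝ} (ha : Alt a) (κ : Fin m → Fin N)
    (hκ : Function.Injective κ) (fill : (Fin m → V') → Fin N → V) (f : V' → V)
    (h1 : ∀ v k, fill v (κ k) = f (v k)) (h2 : ∀ v v' l, (∀ k, κ k ≠ l) → fill v l = fill v' l) :
    Alt fun v => a (fill v) := by
  intro v i j hij
  have e : fill (v ∘ Equiv.swap i j) = fill v ∘ Equiv.swap (κ i) (κ j) := by
    funext l
    by_cases hl : ∃ k, κ k = l
    · obtain ⟨k, rfl⟩ := hl
      rw [h1, Function.comp_apply, Function.comp_apply]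
      rcases eq_or_ne k i with rfl | hi
      · rw [Equiv.swap_apply_left, Equiv.swap_apply_left, h1]
      · rcases eq_or_ne k j with rfl | hj
        · rw [Equiv.swap_apply_right, Equiv.swap_apply_right, h1]
        · rw [Equiv.swap_apply_of_ne_of_ne hi hj,
            Equiv.swap_apply_of_ne_of_ne (fun e => hi (hκ e)) (fun e => hj (hκ e)), h1]
    · push Not at hl
      rw [Function.comp_apply, Equiv.swap_apply_of_ne_of_ne (hl i).symm (hl j).symm]
      exact h2 _ _ l hl
  change a (fill (v ∘ Equiv.swap i j)) = - a (fill v)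
  rw [e, ha _ _ _ fun e => hij (hκ e)]

section join

variable {X : Type} {q : ℕ}

theorem join_lt : ∀ (p : ℕ) (u : Fin p → X) (w : Fin q → X) (i : Fin p) (h : (i : ℕ) < q + p),
    join p u w ⟨i, h⟩ = u i
  | 0, _, _, i, _ => i.elim0
  | p + 1, u, w, i, h => by
    revert h
    refine Fin.cases ?_ (fun k => ?_) i
    · intro h
      rfl
    · intro h
      exact join_lt p (Fin.tail u) w k (by
        have := k.2
        omega)

theorem join_ge : ∀ (p : ℕ) (u : Fin p → X) (w : Fin q → X) (j : Fin q) (h : p + (j : ℕ) < q + p),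
    join p u w ⟨p + j, h⟩ = w j
  | 0, _, w, j, h => by
    change w ⟨0 + j, _⟩ = w j
    congr 1
    exact Fin.ext (Nat.zero_add _)
  | p + 1, u, w, j, h => by
    have h' : p + (j : ℕ) < q + p := by omega
    have e : (⟨p + 1 + j, h⟩ : Fin (q + p + 1)) = Fin.succ ⟨p + j, h'⟩ := by
      apply Fin.ext
      simp only [Fin.succ_mk]
      omega
    change (Fin.cons (u 0) (join p (Fin.tail u) w) : Fin (q + p + 1) → X) ⟨p + 1 + j, h⟩ = w j
    rw [e, Fin.cons_succ]
    exact join_ge p (Fin.tail u) w j h'

/-- the index of the first block -/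
def kL (p q : ℕ) (i : Fin p) : Fin (q + p) := ⟨i, by have := i.2; omega⟩

/-- the index of the second block -/
def kR (p q : ℕ) (j : Fin q) : Fin (q + p) := ⟨p + j, by have := j.2; omega⟩

theorem kL_or_kR (p : ℕ) (l : Fin (q + p)) : (∃ i, l = kL p q i) ∨ ∃ j, l = kR p q j := by
  by_cases h : (l : ℕ) < p
  · exact Or.inl ⟨⟨l, h⟩, rfl⟩
  · refine Or.inr ⟨⟨l - p, by have := l.2; omega⟩, ?_⟩
    apply Fin.ext
    simp only [kR]
    omega

theorem join_kL (p : ℕ) (u : Fin p → X) (w : Fin q → X) (i : Fin p) : join p u w (kL p q i) = u i :=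
  join_lt p u w i _

theorem join_kR (p : ℕ) (u : Fin p → X) (w : Fin q → X) (j : Fin q) : join p u w (kR p q j) = w j :=
  join_ge p u w j _

theorem kL_inj (p : ℕ) : Function.Injective (kL p q) := by
  intro i j h
  have := congrArg Fin.val h
  exact Fin.ext this

theorem kR_inj (p : ℕ) : Function.Injective (kR p q) := by
  intro i j h
  have := congrArg Fin.val h
  simp only [kR] at this
  exact Fin.ext (by omega)

theorem kL_ne_kR (p : ℕ) (i : Fin p) (j : Fin q) : kL p q i ≠ kR p q j := by
  intro h
  have := congrArg Fin.val h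
  simp only [kR, kL] at this
  have := i.2
  omega

end join

variable {V : Type} {q : ℕ}

theorem Alt.joinL {p : ℕ} {V' : Type} (f : V' → V) {a : (Fin (q + p) → V) → ℝ} (ha : Alt a)
    (w : Fin q → V) : Alt fun u : Fin p → V' => a (join p (f ∘ u) w) := by
  refine alt_of_fill ha (kL p q) (kL_inj p) (fun u => join p (f ∘ u) w) f ?_ ?_
  · intro v k
    exact join_kL p (f ∘ v) w k
  · intro v v' l hl
    rcases kL_or_kR p l with ⟨i, rfl⟩ | ⟨j, rfl⟩
    · exact absurd rfl (hl i)
    · simp only [join_kR]

theorem Alt.joinR {p : ℕ} {V' : Type} (f : V' → V) {a : (Fin (q + p) → V) → ℝ} (ha : Alt a)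
    (u : Fin p → V) : Alt fun w : Fin q → V' => a (join p u (f ∘ w)) := by
  refine alt_of_fill ha (kR p q) (kR_inj p) (fun w => join p u (f ∘ w)) f ?_ ?_
  · intro v k
    exact join_kR p u (f ∘ v) k
  · intro v v' l hl
    rcases kL_or_kR p l with ⟨i, rfl⟩ | ⟨j, rfl⟩
    · simp only [join_kL]
    · exact absurd rfl (hl j)

theorem Alt.joinY {p : ℕ} {V' : Type} (f : V' → V) {a : (Fin (q + (p + 1)) → V) → ℝ} (ha : Alt a)
    (u : Fin p → V) : Alt fun v : Fin (q + 1) → V' =>
      a (join (p + 1) (Fin.cons (f (v 0)) u) (f ∘ Fin.tail v)) := by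
  refine alt_of_fill ha (Fin.cases (kL (p + 1) q 0) (kR (p + 1) q)) ?_
    (fun v => join (p + 1) (Fin.cons (f (v 0)) u) (f ∘ Fin.tail v)) f ?_ ?_
  · intro i j
    refine Fin.cases ?_ (fun i => ?_) i
    · refine Fin.cases ?_ (fun j => ?_) j
      · intro _
        rfl
      · intro h
        exact absurd h (kL_ne_kR (p + 1) 0 j)
    · refine Fin.cases ?_ (fun j => ?_) j
      · intro h
        exact absurd h.symm (kL_ne_kR (p + 1) 0 i)
      · intro h
        exact congrArg Fin.succ (kR_inj (p + 1) h)
  · intro v k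
    refine Fin.cases ?_ (fun k => ?_) k
    · exact join_kL (p + 1) _ _ 0
    · exact join_kR (p + 1) _ _ k
  · intro v v' l hl
    rcases kL_or_kR (p + 1) l with ⟨i, rfl⟩ | ⟨j, rfl⟩
    · simp only [join_kL]
      revert hl
      refine Fin.cases ?_ (fun i => ?_) i
      · intro hl
        exact absurd rfl (hl 0)
      · intro _
        simp
    · exact absurd rfl (hl j.succ)

variable [Fintype V] [LinearOrder V] {G : SimpleGraph V}

theorem join_disj {p : ℕ} {a : (Fin (q + p) → V) → ℝ} (ha : Alt a) {u : Fin p → V} {w : Fin q → V}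
    (h : ¬ Disjoint (fs u) (fs w)) : a (join p u w) = 0 := by
  refine ha.noninj fun hinj => h ?_
  rw [Finset.disjoint_left]
  intro v hv hv'
  obtain ⟨i, hi⟩ := mem_fs.1 hv
  obtain ⟨j, hj⟩ := mem_fs.1 hv'
  have h1 : join p u w (kL p q i) = join p u w (kR p q j) := by
    rw [join_kL, join_kR, hi, hj]
  exact kL_ne_kR p i j (hinj h1)

theorem oS_join : ∀ (p : ℕ) {a : (Fin (q + p) → V) → ℝ}, Alt a → ∀ {u : Fin p → V}, StrictMono u →
    ∀ {w : Fin q → V}, StrictMono w → oS (oo a) (fs u) (fs w) = a (join p u w)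
  | 0, a, ha, u, hu, w, hw => by
    have : fs u = ∅ := by
      unfold fs
      simp
    rw [this, oS_empty]
    exact oo_fs a hw
  | p + 1, a, ha, u, hu, w, hw => by
    by_cases hd : Disjoint (fs u) (fs w)
    · obtain ⟨x, u, rfl⟩ : ∃ x u', u = (Fin.cons x u' : Fin (p + 1) → V) :=
        ⟨u 0, Fin.tail u, (Fin.cons_self_tail u).symm⟩
      have hu' : StrictMono u := by
        intro i j hij
        have := hu (Fin.succ_lt_succ_iff.2 hij)
        simpa using this
      have hx : ∀ y ∈ fs u, x < y := by
        intro y hy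
        obtain ⟨i, rfl⟩ := mem_fs.1 hy
        have := hu (Fin.succ_pos i)
        simpa using this
      have hxu : x ∉ fs u := fun h => lt_irrefl _ (hx x h)
      rw [fs_cons] at hd ⊢
      rw [Finset.disjoint_insert_left] at hd
      have hax : Alt (n := q + p) fun v => a (Fin.cons x v : Fin (q + p + 1) → V) :=
        Alt.cons (n := q + p) ha x
      have ih := oS_join p hax hu' hw
      have hcard : (fs u ∪ fs w).card = q + p := by
        rw [Finset.card_union_of_disjoint hd.2, fs_card hu'.injective, fs_card hw.injective,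
          add_comm]
      obtain ⟨v, hv, he⟩ := exists_fs hcard
      have hxv : x ∉ fs v := by
        rw [← he, Finset.mem_union]
        rintro (h | h)
        · exact hxu h
        · exact hd.1 h
      have h1 := oo_insert (n := q + p) ha hv hxv
      unfold oS at ih ⊢
      rw [if_pos hd.2, he, oo_fs _ hv] at ih
      rw [if_pos (Finset.disjoint_insert_left.2 hd), Finset.prod_insert hxu, Finset.insert_union, he]
      have hsg : sg x (fs v) = sg x (fs w) := by
        rw [← he]
        unfold sg
        rw [Finset.filter_union, Finset.filter_eq_empty_iff.2 (fun y hy => not_lt.2 (hx y hy).le),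
          Finset.empty_union]
      change _ = a (Fin.cons x (join p u w) : Fin (q + p + 1) → V)
      change _ = a (Fin.cons x (join p u w) : Fin (q + p + 1) → V) at ih
      rw [← ih, ← h1, hsg]
      push_cast
      ring
    · rw [join_disj ha hd]
      unfold oS
      rw [if_neg hd]

/-- the cap product with a cocycle, as a function of tuples -/
noncomputable def Bq {p : ℕ} (B : Set V) (mu : Finset V → ℝ) (a : (Fin (q + p) → V) → ℝ) :
    (Fin q → V) → ℝ := fun w =>
  if ∀ i, w i ∈ B then ∑ T : Finset V, mu T * oo (fun u : Fin p → V => a (join p u w)) T else 0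

theorem Bq_alt {p : ℕ} (B : Set V) (mu : Finset V → ℝ) {a : (Fin (q + p) → V) → ℝ} (ha : Alt a) :
    Alt (Bq B mu a) := by
  intro w i j hij
  unfold Bq
  have h : (∀ k, (w ∘ Equiv.swap i j) k ∈ B) ↔ ∀ k, w k ∈ B := by
    constructor
    · intro h k
      have := h (Equiv.swap i j k)
      simpa using this
    · intro h k
      exact h _
  by_cases hw : ∀ k, w k ∈ B
  · rw [if_pos (h.2 hw), if_pos hw, ← Finset.sum_neg_distrib]
    refine Finset.sum_congr rfl fun T _ => ?_
    have e : (fun u : Fin p → V => a (join p u (w ∘ Equiv.swap i j))) =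
        fun u => - a (join p u w) := by
      funext u
      exact (Alt.joinR id ha u) w i j hij
    rw [e]
    unfold oo
    split_ifs
    · ring
    · ring
  · rw [if_neg (fun h' => hw (h.1 h')), if_neg hw, neg_zero]

theorem Dm_join {p : ℕ} {a : (Fin (q + p) → V) → ℝ} (ha : IsCyc (q + p) G a) (B : Set V)
    {mu : Finset V → ℝ} (hm : ∀ T : Finset V, T.card ≠ p → mu T = 0) {w : Fin q → V}
    (hw : StrictMono w) : Dm G B (oo a) mu (fs w) = (-1 : ℝ) ^ p * Bq B mu a w := by
  have halt : Alt a := ha.alt
  have hsub : ((fs w : Finset V) : Set V) ⊆ B ↔ ∀ i, w i ∈ B := by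
    constructor
    · intro h i
      exact h (Finset.mem_coe.2 (mem_fs.2 ⟨i, rfl⟩))
    · intro h v hv
      obtain ⟨i, rfl⟩ := mem_fs.1 (Finset.mem_coe.1 hv)
      exact h i
  rw [Dm_apply]
  unfold Bq
  by_cases hS : ∀ i, w i ∈ B
  · rw [if_pos hS, Finset.mul_sum]
    by_cases hcl : G.IsClique ((fs w : Finset V) : Set V)
    · rw [if_pos ⟨hcl, hsub.2 hS⟩]
      refine Finset.sum_congr rfl fun T _ => ?_
      by_cases hT : T.card = p
      · obtain ⟨u, hu, rfl⟩ := exists_fs hT
        rw [oo_fs _ hu, oS_join p halt hu hw, hT]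
        ring
      · rw [hm T hT]
        ring
    · rw [if_neg fun h => hcl h.1]
      symm
      refine Finset.sum_eq_zero fun T _ => ?_
      by_cases hT : T.card = p
      · obtain ⟨u, hu, rfl⟩ := exists_fs hT
        rw [oo_fs _ hu]
        have : a (join p u w) = 0 := by
          by_contra h0
          apply hcl
          intro x hx y hy hxy
          obtain ⟨i, rfl⟩ := mem_fs.1 (Finset.mem_coe.1 hx)
          obtain ⟨j, rfl⟩ := mem_fs.1 (Finset.mem_coe.1 hy)
          have := ha.supp _ h0 (kR p q i) (kR p q j) (fun e => hxy (by rw [kR_inj p e]))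
          rwa [join_kR, join_kR] at this
        rw [this]
        ring
      · rw [hm T hT]
        ring
  · rw [if_neg hS, if_neg fun h => hS (hsub.1 h.2), mul_zero]

end Pool.Agent.Helper41.SE
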