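import Pool.Agent.Helper41.SE.F4

/-!
Cochains as functionals on the chains on finite sets; the partial evaluation of the product.
-/

set_option autoImplicit false
set_option linter.unusedSectionVars false

open scoped Classical

namespace Pool.Agent.Helper41.SE

open Pool.Agent.W907.SG Pool.Agent.W907.SM Module Pool.Agent.TH652.Dual
open Pool.Agent.Helper41.SV (GA piA)
open Pool.Agent.Helper41.SD (alexander Dm Dm_apply)
open Pool.Agent.Q134.SV (IsCyc pair push gen cobd gen_comm sum_cons Good sum_insertNth)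

theorem cyc_of_cons {V' : Type} [Fintype V'] {G' : SimpleGraph V'} {p : ℕ}
    {b : (Fin (p + 1) → V') → ℝ} (hb : Alt b)
    (hs : ∀ v, b v ≠ 0 → ∀ i j, i ≠ j → G'.Adj (v i) (v j))
    (h : ∀ u : Fin p → V', ∑ x, b (Fin.cons x u) = 0) : IsCyc (p + 1) G' b := by
  refine ⟨hb, hs, ?_⟩
  intro v i
  have e : ∀ x, b (Function.update v i x) = (-1) ^ (i : ℕ) * b (Fin.cons x (i.removeNth v)) := by
    intro x
    rw [hb.insertNth i x (i.removeNth v), Fin.insertNth_removeNth, ← mul_assoc, ← mul_pow]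
    norm_num
  rw [Finset.sum_congr rfl fun x _ => e x, ← Finset.mul_sum, h, mul_zero]

variable {V : Type} [Fintype V] [LinearOrder V] {G : SimpleGraph V}

theorem Ex_oo {n : ℕ} {b : (Fin n → V) → ℝ} (hb : Alt b) : Ex (n := n) (oo b) = b := by
  refine alt_ext (Ex_alt _) hb fun w hw => ?_
  rw [Ex_sorted _ hw, oo_fs _ hw]

/-- the value of a cochain at a chain on finite sets -/
noncomputable def ell (m : ℕ) (S : Set V) (c : (Fin (m + 1) → W (GA G fun v => v ∈ S)) → ℝ) :
    (Finset V → ℝ) →ₗ[ℝ] ℝ where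
  toFun y := ∑ u : Fin m → {v // v ∈ S}, Ex (n := m) y (fun i => (u i : V)) *
    c (Fin.partialProd (gen (GA G fun v => v ∈ S) ∘ u))
  map_add' y y' := by
    rw [← Finset.sum_add_distrib]
    refine Finset.sum_congr rfl fun u _ => ?_
    unfold Ex
    rw [Pi.add_apply]
    split_ifs <;> ring
  map_smul' r y := by
    rw [RingHom.id_apply, smul_eq_mul, Finset.mul_sum]
    refine Finset.sum_congr rfl fun u _ => ?_
    unfold Ex
    rw [Pi.smul_apply, smul_eq_mul]
    split_ifs <;> ring

theorem ell_apply (m : ℕ) (S : Set V) (c : (Fin (m + 1) → W (GA G fun v => v ∈ S)) → ℝ)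
    (y : Finset V → ℝ) : ell m S c y = ∑ u : Fin m → {v // v ∈ S},
      Ex (n := m) y (fun i => (u i : V)) * c (Fin.partialProd (gen (GA G fun v => v ∈ S) ∘ u)) := rfl

theorem ell_Lz {m : ℕ} {S : Set V} (c : (Fin (m + 1) → W (GA G fun v => v ∈ S)) → ℝ)
    {z : (Fin m → {v // v ∈ S}) → ℝ} (hz : IsCyc m (GA G fun v => v ∈ S) z) :
    ell m S c (Lz m S z) = pair (gen (GA G fun v => v ∈ S)) z c := by
  rw [ell_apply, Lz_apply, Ex_oo (push_cyc (G := G) S hz).alt]
  unfold pair
  refine Finset.sum_congr rfl fun u _ => ?_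
  rw [push_val]

theorem ell_BB {m : ℕ} {S : Set V} {c : (Fin (m + 1) → W (GA G fun v => v ∈ S)) → ℝ}
    (hc : BC (GA G fun v => v ∈ S) m c) {x : Finset V → ℝ} (hx : x ∈ BB G (triv V) S ∅ m) :
    ell m S c x = 0 := by
  obtain ⟨y, hy, rfl⟩ := hx
  rw [SetLike.mem_coe, mem_KK_triv] at hy
  have hY0 : ∀ T : Finset V, T.card ≠ m + 1 → y T = 0 := fun T hT => hy T fun h => hT h.2.2
  set Y : (Fin (m + 1) → V) → ℝ := Ex y with hY
  have hYa : Alt Y := Ex_alt y
  have hYs : ∀ v, Y v ≠ 0 → Function.Injective v ∧ G.IsClique ((fs v : Finset V) : Set V) ∧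
      ((fs v : Finset V) : Set V) ⊆ S := by
    intro v hv
    rw [hY] at hv
    unfold Ex at hv
    by_cases hi : Function.Injective v
    · rw [if_pos hi] at hv
      by_contra hn
      have : y (fs v) = 0 := hy _ fun h => hn ⟨hi, h.1, h.2.1⟩
      rw [this, mul_zero] at hv
      exact hv rfl
    · rw [if_neg hi] at hv
      exact absurd rfl hv
  have hYS : ∀ v, Y v ≠ 0 → ∀ i, v i ∈ S := fun v hv i =>
    (hYs v hv).2.2 (Finset.mem_coe.2 (mem_fs.2 ⟨i, rfl⟩))
  have key : Ex (n := m) (bd ℝ y) = bnd Y := by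
    refine alt_ext (Ex_alt _) (bnd_alt hYa) fun w hw => ?_
    rw [Ex_sorted _ hw]
    have h2 := sum_compl_fs hYa hw
    rw [hY, oo_Ex hY0] at h2
    exact h2
  set YS : (Fin (m + 1) → {v // v ∈ S}) → ℝ := fun v => Y fun i => (v i : V) with hYSdef
  have hb : ∀ u : Fin m → {v // v ∈ S}, bnd Y (fun i => (u i : V)) = bnd YS u := by
    intro u
    unfold bnd
    symm
    refine Fintype.sum_of_injective Subtype.val Subtype.val_injective _ _ ?_ ?_
    · intro x hx
      by_contra hne
      exact hx ⟨⟨x, by simpa using hYS _ hne 0⟩, rfl⟩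
    · intro x
      simp only [hYSdef]
      congr 1
      funext i
      refine Fin.cases ?_ (fun i => ?_) i
      · rfl
      · rfl
  have hst : pair (gen (GA G fun v => v ∈ S)) (bnd YS) c = 0 := by
    have h1 := stokes2 (G := GA G fun v => v ∈ S) (gen (GA G fun v => v ∈ S))
      (fun x y h => gen_comm _ h) (Y := YS) (by
        intro v i j hij
        have := hYa (fun i => (v i : V)) i j hij
        exact this) (by
        intro v hv i j hij
        obtain ⟨k1, k2, _⟩ := hYs _ hv
        have : G.Adj (v i : V) (v j : V) := k2 (Finset.mem_coe.2 (mem_fs.2 ⟨i, rfl⟩))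
          (Finset.mem_coe.2 (mem_fs.2 ⟨j, rfl⟩)) fun e => hij (k1 e)
        exact this) c hc.gen
    have h2 : cobd c = fun _ => 0 := funext hc.coc
    rw [h2] at h1
    have h3 : pair (gen (GA G fun v => v ∈ S)) YS (fun _ => (0 : ℝ)) = 0 := by
      unfold pair
      simp
    rw [h3] at h1
    linarith
  rw [ell_apply, key, ← hst]
  unfold pair
  refine Finset.sum_congr rfl fun u _ => ?_
  rw [hb]

/-- the partial evaluation of the product -/
noncomputable def EE {p q : ℕ} (B : Set V) (a : (Fin (q + p) → V) → ℝ)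
    (d : (Fin (q + 1) → W (GA G fun v => v ∈ B)) → ℝ) : (Fin p → V) → ℝ := fun u =>
  ∑ w : Fin q → {v // v ∈ B}, a (join p u (Subtype.val ∘ w)) *
    d (Fin.partialProd (gen (GA G fun v => v ∈ B) ∘ w))

/-- the partial evaluation is a cycle -/
theorem EE_cyc {p q : ℕ} {a : (Fin (q + p) → V) → ℝ} (ha : IsCyc (q + p) G a) (S B : Set V)
    (hB : B = Sᶜ) {d : (Fin (q + 1) → W (GA G fun v => v ∈ B)) → ℝ}
    (hd : BC (GA G fun v => v ∈ B) q d) :
    IsCyc p (GA G fun v => v ∈ S) fun u => EE (p := p) B a d (Subtype.val ∘ u) := by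
  subst hB
  have halt : Alt a := ha.alt
  have hEalt : Alt fun u : Fin p → {v // v ∈ S} => EE (p := p) Sᶜ a d (Subtype.val ∘ u) := by
    intro u i j hij
    unfold EE
    rw [← Finset.sum_neg_distrib]
    refine Finset.sum_congr rfl fun w _ => ?_
    have := (Alt.joinL Subtype.val halt (Subtype.val ∘ w)) u i j hij
    simp only at this
    rw [this]
    ring
  have hEs : ∀ u : Fin p → {v // v ∈ S}, EE (p := p) Sᶜ a d (Subtype.val ∘ u) ≠ 0 →
      ∀ i j, i ≠ j → (GA G fun v => v ∈ S).Adj (u i) (u j) := by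
    intro u hu i j hij
    unfold EE at hu
    obtain ⟨w, _, hw⟩ := Finset.exists_ne_zero_of_sum_ne_zero hu
    have h0 : a (join p (Subtype.val ∘ u) (Subtype.val ∘ w)) ≠ 0 := left_ne_zero_of_mul hw
    have := ha.supp _ h0 (kL p q i) (kL p q j) (fun e => hij (kL_inj p e))
    rw [join_kL, join_kL] at this
    exact this
  rcases p with _ | p
  · exact ⟨hEalt, hEs, fun v i => i.elim0⟩
  · refine cyc_of_cons hEalt hEs ?_
    intro u
    set F : V → ℝ := fun x => EE (p := p + 1) Sᶜ a d (Fin.cons x (Subtype.val ∘ u)) with hF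
    have h1 : ∀ x : {v // v ∈ S},
        EE (p := p + 1) Sᶜ a d (Subtype.val ∘ (Fin.cons x u : Fin (p + 1) → {v // v ∈ S})) =
          F x := by
      intro x
      rw [comp_cons]
    have h2 : ∑ x, F x = 0 := by
      simp only [hF]
      unfold EE
      rw [Finset.sum_comm]
      refine Finset.sum_eq_zero fun w _ => ?_
      rw [← Finset.sum_mul]
      have h3 := sum_insertNth (m := q + p) ha 0 (join p (Subtype.val ∘ u) (Subtype.val ∘ w))
      simp only [Fin.insertNth_zero'] at h3
      have h4 : ∑ x, a (join (p + 1) (Fin.cons x (Subtype.val ∘ u)) (Subtype.val ∘ w)) = 0 := h3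
      rw [h4, zero_mul]
    have h3 : ∑ x : {v // v ∈ Sᶜ}, F x = 0 := by
      set Y : (Fin (q + 1) → {v // v ∈ Sᶜ}) → ℝ := fun v =>
        a (join (p + 1) (Fin.cons (v 0 : V) (Subtype.val ∘ u)) (Subtype.val ∘ Fin.tail v)) with hY
      have hYalt : Alt Y := Alt.joinY Subtype.val halt (Subtype.val ∘ u)
      have h4 := stokes2 (G := GA G fun v => v ∈ Sᶜ) (gen (GA G fun v => v ∈ Sᶜ))
        (fun x y h => gen_comm _ h) (Y := Y) hYalt (by
          intro v hv i j hij
          have k0 : ∀ k : Fin q, join (p + 1) (Fin.cons (v 0 : V) (Subtype.val ∘ u))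
              (Subtype.val ∘ Fin.tail v) (kR (p + 1) q k) = (v k.succ : V) := fun k =>
            join_kR (p + 1) _ _ k
          have k1 : join (p + 1) (Fin.cons (v 0 : V) (Subtype.val ∘ u))
              (Subtype.val ∘ Fin.tail v) (kL (p + 1) q 0) = (v 0 : V) := join_kL (p + 1) _ _ 0
          change G.Adj (v i : V) (v j : V)
          revert hij
          refine Fin.cases ?_ (fun i => ?_) i
          · refine Fin.cases ?_ (fun j => ?_) j
            · intro h
              exact absurd rfl h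
            · intro _
              have := ha.supp _ hv (kL (p + 1) q 0) (kR (p + 1) q j) (kL_ne_kR _ _ _)
              rwa [k0, k1] at this
          · refine Fin.cases ?_ (fun j => ?_) j
            · intro _
              have := ha.supp _ hv (kR (p + 1) q i) (kL (p + 1) q 0) (kL_ne_kR _ _ _).symm
              rwa [k0, k1] at this
            · intro hij
              have := ha.supp _ hv (kR (p + 1) q i) (kR (p + 1) q j)
                (fun e => hij (congrArg Fin.succ (kR_inj (p + 1) e)))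
              rwa [k0, k0] at this) d hd.gen
      have h5 : cobd d = fun _ => 0 := funext hd.coc
      rw [h5] at h4
      have h6 : pair (gen (GA G fun v => v ∈ Sᶜ)) Y (fun _ => (0 : ℝ)) = 0 := by
        unfold pair
        simp
      rw [h6] at h4
      have h7 : pair (gen (GA G fun v => v ∈ Sᶜ)) (bnd Y) d = ∑ x : {v // v ∈ Sᶜ}, F x := by
        unfold pair bnd
        simp only [hF]
        unfold EE
        rw [Finset.sum_comm]
        refine Finset.sum_congr (by ext; simp) fun w _ => ?_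
        rw [Finset.sum_mul]
        rfl
      rw [← h7]
      linarith
    have h4 := Fintype.sum_subtype_add_sum_subtype (fun v => v ∈ S) F
    rw [Finset.sum_congr rfl fun x _ => h1 x]
    have h5 : ∑ x : {v // ¬ v ∈ S}, F x = 0 := h3
    rw [h5, h2, add_zero] at h4
    exact h4

/-- the value of the product at the cycle -/
theorem pair_EE {p q : ℕ} (a : (Fin (q + p) → V) → ℝ) (S B : Set V) (hB : B = Sᶜ)
    {c : (Fin (p + 1) → W (GA G fun v => v ∈ S)) → ℝ}
    {d : (Fin (q + 1) → W (GA G fun v => v ∈ B)) → ℝ} (hc : Good (GA G fun v => v ∈ S) p c)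
    (hd : Good (GA G fun v => v ∈ B) q d) :
    pair (gen G) a (cup p (fun g => c fun i => piA G (fun v => v ∈ S) (g i))
      fun g => d fun i => piA G (fun v => v ∈ B) (g i)) =
    pair (gen (GA G fun v => v ∈ S)) (fun u => EE (p := p) B a d (Subtype.val ∘ u)) c := by
  rw [pair_cup (fun v => v ∈ S) (fun v => v ∈ B) (fun x => by rw [hB]; rfl) hc hd a]
  unfold pair EE
  refine Finset.sum_congr rfl fun u _ => ?_
  rw [Finset.sum_mul]
  refine Finset.sum_congr rfl fun w _ => ?_
  change a (join p (Subtype.val ∘ u) (Subtype.val ∘ w)) * _ = _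
  ring

/-- duality -/
theorem pair_mu {p q : ℕ} {a : (Fin (q + p) → V) → ℝ} (ha : IsCyc (q + p) G a) (B : Set V)
    {z : (Fin q → {v // v ∈ B}) → ℝ} (hz : IsCyc q (GA G fun v => v ∈ B) z)
    {mu : Finset V → ℝ} (hm : ∀ T : Finset V, T.card ≠ p → mu T = 0)
    (he : oo (push Subtype.val z) - Dm G B (oo a) mu ∈ BB G (triv V) B ∅ q)
    {d : (Fin (q + 1) → W (GA G fun v => v ∈ B)) → ℝ} (hd : BC (GA G fun v => v ∈ B) q d) :
    pair (gen (GA G fun v => v ∈ B)) z d =
      (-1 : ℝ) ^ p * ∑ T : Finset V, mu T * oo (EE (p := p) B a d) T := by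
  have h1 := ell_BB hd he
  rw [map_sub, ← Lz_apply, ell_Lz d hz] at h1
  have h2 : Ex (n := q) (Dm G B (oo a) mu) = fun w => (-1 : ℝ) ^ p * Bq B mu a w := by
    refine alt_ext (Ex_alt _) ?_ fun w hw => ?_
    · intro w i j hij
      change (-1 : ℝ) ^ p * Bq B mu a (w ∘ Equiv.swap i j) = - ((-1 : ℝ) ^ p * Bq B mu a w)
      rw [Bq_alt B mu ha.alt w i j hij]
      ring
    · rw [Ex_sorted _ hw, Dm_join ha B hm hw]
  have h3 : pair (gen (GA G fun v => v ∈ B)) z d = ell q B d (Dm G B (oo a) mu) := by linarith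
  rw [h3, ell_apply, h2]
  have h4 : ∀ w : Fin q → {v // v ∈ B}, Bq B mu a (fun i => (w i : V)) =
      ∑ T : Finset V, mu T * oo (fun u : Fin p → V => a (join p u (Subtype.val ∘ w))) T := by
    intro w
    unfold Bq
    rw [if_pos fun i => (w i).2]
    rfl
  simp only [h4, Finset.mul_sum, Finset.sum_mul]
  rw [Finset.sum_comm]
  refine Finset.sum_congr rfl fun T _ => ?_
  unfold oo EE
  split_ifs with hT
  · rw [Finset.mul_sum, Finset.mul_sum]
    refine Finset.sum_congr rfl fun w _ => ?_
    ring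
  · simp

end Pool.Agent.Helper41.SE
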