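import Pool.Agent.Helper41.SE.F5

/-!
If the products of the bounded cocycles vanish then the dimensions of spaces of cycles with positive
simplicial volume are bounded by the Betti number.
-/

set_option autoImplicit false
set_option linter.unusedSectionVars false

open scoped Classical

namespace Pool.Agent.Helper41.SE

open Pool.Agent.W907.SG Pool.Agent.W907.SM Module Pool.Agent.TH652.Dual
open Pool.Agent.Helper41.SV (GA piA)
open Pool.Agent.Helper41.SD (alexander Dm Dm_apply)
open Pool.Agent.Q134.SV (IsCyc pair push gen cobd gen_comm sum_cons Good sum_insertNth)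
open Pool.Agent.W397.SG (rank_null)

variable {V : Type} [Fintype V] [LinearOrder V] {G : SimpleGraph V}

theorem sum_swap (F : V → Finset V → ℝ) :
    ∑ T : Finset V, ∑ v ∈ Tᶜ, F v T = ∑ T : Finset V, ∑ v ∈ T, F v (T.erase v) := by
  rw [Finset.sum_sigma', Finset.sum_sigma']
  refine Finset.sum_nbij' (fun x => ⟨insert x.2 x.1, x.2⟩) (fun x => ⟨x.1.erase x.2, x.2⟩)
    ?_ ?_ ?_ ?_ ?_
  · rintro ⟨T, v⟩ h
    simp
  · rintro ⟨T, v⟩ h
    simp
  · rintro ⟨T, v⟩ h
    simp only [Finset.mem_sigma, Finset.mem_univ, Finset.mem_compl, true_and] at h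
    simp only [Finset.erase_insert h]
  · rintro ⟨T, v⟩ h
    simp only [Finset.mem_sigma, Finset.mem_univ, true_and] at h
    simp only [Finset.insert_erase h]
  · rintro ⟨T, v⟩ h
    simp only [Finset.mem_sigma, Finset.mem_univ, Finset.mem_compl, true_and] at h
    simp only [Finset.erase_insert h]

/-- a cocycle vanishes on the boundaries -/
theorem mu_bd {p : ℕ} {S : Set V} {mu : Finset V → ℝ}
    (h2 : ∀ T : Finset V, G.IsClique (T : Set V) → (T : Set V) ⊆ S →
        ∑ s ∈ T, (sg s (T.erase s) : ℝ) * mu (T.erase s) = 0)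
    {x : Finset V → ℝ} (hx : x ∈ BB G (triv V) S ∅ p) : ∑ T : Finset V, mu T * x T = 0 := by
  obtain ⟨y, hy, rfl⟩ := hx
  rw [SetLike.mem_coe, mem_KK_triv] at hy
  have e1 : ∀ T : Finset V, mu T * bd ℝ y T =
      ∑ v ∈ Tᶜ, mu T * ((sg v T : ℝ) * y (insert v T)) := by
    intro T
    rw [bd_apply, Finset.mul_sum]
    refine Finset.sum_congr rfl fun v _ => ?_
    rw [zsmul_eq_mul]
  rw [Finset.sum_congr rfl fun T _ => e1 T,
    sum_swap fun v T => mu T * ((sg v T : ℝ) * y (insert v T))]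
  refine Finset.sum_eq_zero fun T _ => ?_
  by_cases hT : G.IsClique (T : Set V) ∧ (T : Set V) ⊆ S ∧ T.card = p + 1
  · have h3 := h2 T hT.1 hT.2.1
    have e2 : ∀ v ∈ T, mu (T.erase v) * ((sg v (T.erase v) : ℝ) * y (insert v (T.erase v))) =
        y T * ((sg v (T.erase v) : ℝ) * mu (T.erase v)) := by
      intro v hv
      rw [Finset.insert_erase hv]
      ring
    rw [Finset.sum_congr rfl e2, ← Finset.mul_sum, h3, mul_zero]
  · refine Finset.sum_eq_zero fun v hv => ?_
    rw [Finset.insert_erase hv, hy T hT]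
    ring

theorem Lz_mem {p : ℕ} {S : Set V} {z : (Fin p → {v // v ∈ S}) → ℝ}
    (hz : IsCyc p (GA G fun v => v ∈ S) z) : Lz p S z ∈ ZZ G (triv V) S ∅ p := by
  rw [Lz_apply]
  exact oo_mem (push_cyc (G := G) S hz) S fun w hw => push_supp S hw

theorem Lz_eq {p : ℕ} {S : Set V} (E : (Fin p → V) → ℝ) {T : Finset V} (hT : (T : Set V) ⊆ S) :
    Lz p S (fun u => E (Subtype.val ∘ u)) T = oo E T := by
  rw [Lz_apply]
  by_cases hc : T.card = p
  · obtain ⟨w, hw, rfl⟩ := exists_fs hc
    rw [oo_fs _ hw, oo_fs _ hw]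
    have hwS : ∀ i, w i ∈ S := fun i => hT (Finset.mem_coe.2 (mem_fs.2 ⟨i, rfl⟩))
    have h1 := push_val S (fun u : Fin p → {v // v ∈ S} => E (Subtype.val ∘ u))
      (fun i => ⟨w i, hwS i⟩)
    exact h1
  · rw [oo_card _ hc, oo_card _ hc]

theorem main_ineq {p q : ℕ} (hS : Sph (q + p) G) {a : (Fin (q + p) → V) → ℝ}
    (ha : IsCyc (q + p) G a) (h0 : a ≠ 0) (S B : Set V) (hB : B = Sᶜ)
    (hP : ∀ (c : (Fin (p + 1) → W (GA G fun v => v ∈ S)) → ℝ)
      (d : (Fin (q + 1) → W (GA G fun v => v ∈ B)) → ℝ), Good (GA G fun v => v ∈ S) p c →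
      Good (GA G fun v => v ∈ B) q d →
      pair (gen (GA G fun v => v ∈ S)) (fun u => EE (p := p) B a d (Subtype.val ∘ u)) c = 0)
    (ZA : Submodule ℝ ((Fin p → {v // v ∈ S}) → ℝ))
    (hA : ∀ z ∈ ZA, IsCyc p (GA G fun v => v ∈ S) z)
    (hA' : ∀ z ∈ ZA, z ≠ 0 → ∃ c, Good (GA G fun v => v ∈ S) p c ∧
      pair (gen (GA G fun v => v ∈ S)) z c ≠ 0)
    (ZB : Submodule ℝ ((Fin q → {v // v ∈ B}) → ℝ))
    (hZB : ∀ z ∈ ZB, IsCyc q (GA G fun v => v ∈ B) z)
    (hZB' : ∀ z ∈ ZB, z ≠ 0 → ∃ c, Good (GA G fun v => v ∈ B) q c ∧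
      pair (gen (GA G fun v => v ∈ B)) z c ≠ 0) :
    finrank ℝ ZA + finrank ℝ ZB ≤ beta G (triv V) S ∅ p := by
  have bc : ∀ {n : ℕ} {T : Set V} {c : (Fin (n + 1) → W (GA G fun v => v ∈ T)) → ℝ},
      Good (GA G fun v => v ∈ T) n c → BC (GA G fun v => v ∈ T) n c := fun h =>
    ⟨h.gen, h.coc, h.bdd⟩
  set R : Submodule ℝ (Finset V → ℝ) := Submodule.span ℝ {x | ∃ d,
    Good (GA G fun v => v ∈ B) q d ∧ x = Lz p S fun u => EE (p := p) B a d (Subtype.val ∘ u)}
    with hR
  set P : Submodule ℝ (Finset V → ℝ) := R ⊔ BB G (triv V) S ∅ p with hPdef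
  have hRZ : R ≤ ZZ G (triv V) S ∅ p := by
    rw [hR, Submodule.span_le]
    rintro _ ⟨d, hd, rfl⟩
    exact Lz_mem (EE_cyc ha S B hB (bc hd))
  have hPZ : P ≤ ZZ G (triv V) S ∅ p := sup_le hRZ (BB_le_ZZ G (triv V) S ∅ p)
  have hZAZ : ZA.map (Lz p S) ≤ ZZ G (triv V) S ∅ p := by
    rintro _ ⟨z, hz, rfl⟩
    exact Lz_mem (hA z hz)
  -- the functionals of bounded classes vanish on `P`
  have hker : ∀ c, Good (GA G fun v => v ∈ S) p c → P ≤ LinearMap.ker (ell (G := G) p S c) := by
    intro c hc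
    refine sup_le ?_ ?_
    · rw [hR, Submodule.span_le]
      rintro _ ⟨d, hd, rfl⟩
      rw [SetLike.mem_coe, LinearMap.mem_ker, ell_Lz c (EE_cyc ha S B hB (bc hd))]
      exact hP c d hc hd
    · intro x hx
      rw [LinearMap.mem_ker]
      exact ell_BB (bc hc) hx
  have hinj : ∀ z ∈ ZA, Lz p S z ∈ P → z = 0 := by
    intro z hz hzP
    by_contra hne
    obtain ⟨c, hc, hp⟩ := hA' z hz hne
    apply hp
    rw [← ell_Lz c (hA z hz)]
    exact LinearMap.mem_ker.1 (hker c hc hzP)
  have hinf : P ⊓ ZA.map (Lz p S) = ⊥ := by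
    rw [eq_bot_iff]
    rintro x ⟨h1, h2⟩
    obtain ⟨z, hz, rfl⟩ := h2
    rw [Submodule.mem_bot, hinj z hz h1, map_zero]
  have hmapA : finrank ℝ (ZA.map (Lz p S)) = finrank ℝ ZA := by
    have h1 := rank_null (Lz p S) ZA
    have h2 : ZA ⊓ LinearMap.ker (Lz p S) = ⊥ := by
      rw [eq_bot_iff]
      rintro z ⟨h3, h4⟩
      rw [Submodule.mem_bot]
      refine hinj z h3 ?_
      rw [SetLike.mem_coe, LinearMap.mem_ker] at h4
      rw [h4]
      exact P.zero_mem
    rw [h2, finrank_bot] at h1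
    omega
  have hsum := Submodule.finrank_sup_add_finrank_inf_eq P (ZA.map (Lz p S))
  rw [hinf, finrank_bot, add_zero] at hsum
  have hle := Submodule.finrank_mono (sup_le hPZ hZAZ)
  -- the rank of `P` modulo the boundaries
  have hrank : finrank ℝ ZB + finrank ℝ (BB G (triv V) S ∅ p) ≤ finrank ℝ P := by
    have ham := oo_mem ha (lk G ∅) fun w _ i u hu => absurd hu (Finset.notMem_empty u)
    have hal : ∀ z ∈ ZB, ∃ mu : Finset V → ℝ,
        (∀ T : Finset V, ¬ (G.IsClique (T : Set V) ∧ (T : Set V) ⊆ S ∧ T.card = p) → mu T = 0) ∧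
        (∀ T : Finset V, G.IsClique (T : Set V) → (T : Set V) ⊆ S →
          ∑ s ∈ T, (sg s (T.erase s) : ℝ) * mu (T.erase s) = 0) ∧
        Lz q B z - Dm G B (oo a) mu ∈ BB G (triv V) B ∅ q := by
      intro z hz
      obtain ⟨mu, m1, m2, m3⟩ := alexander B hS ham (oo_ne ha.alt h0) (i := q) (j := p) rfl
        (Lz_mem (hZB z hz))
      have hBc : Bᶜ = S := by rw [hB, compl_compl]
      rw [hBc] at m1 m2
      exact ⟨mu, m1, m2, m3⟩
    set t := finrank ℝ ZB with ht
    let b : Basis (Fin t) ℝ ZB := Module.finBasis ℝ ZB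
    have hal' := fun i : Fin t => hal (b i : ZB) (b i).2
    choose mu m1 m2 m3 using hal'
    let L : (Finset V → ℝ) →ₗ[ℝ] (Fin t → ℝ) :=
      { toFun := fun x i => ∑ T : Finset V, mu i T * x T
        map_add' := fun x y => by
          funext i
          simp only [Pi.add_apply, mul_add, Finset.sum_add_distrib]
        map_smul' := fun r x => by
          funext i
          simp only [Pi.smul_apply, smul_eq_mul, RingHom.id_apply, Finset.mul_sum]
          exact Finset.sum_congr rfl fun T _ => by ring }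
    have hL : ∀ x i, L x i = ∑ T : Finset V, mu i T * x T := fun x i => rfl
    have h1 := rank_null L P
    have h2 : BB G (triv V) S ∅ p ≤ P ⊓ LinearMap.ker L := by
      refine le_inf le_sup_right ?_
      intro x hx
      rw [LinearMap.mem_ker]
      funext i
      rw [hL]
      exact mu_bd (m2 i) hx
    have h3 := Submodule.finrank_mono h2
    have h4 : P.map L = ⊤ := by
      by_contra hne
      obtain ⟨f, hf0, hf⟩ := Submodule.exists_le_ker_of_lt_top (P.map L) (lt_top_iff_ne_top.2 hne)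
      have hfs : ∀ x, f x = ∑ i, x i * f (fun j => if i = j then 1 else 0) := by
        intro x
        have := LinearMap.pi_apply_eq_sum_univ f x
        simpa only [smul_eq_mul] using this
      set τ : Fin t → ℝ := fun i => f (fun j => if i = j then 1 else 0) with hτ
      have hz : (∑ i, τ i • b i : ZB) = 0 := by
        by_contra hzne
        have hzne' : ((∑ i, τ i • b i : ZB) : (Fin q → {v // v ∈ B}) → ℝ) ≠ 0 := fun h =>
          hzne (Subtype.ext h)
        obtain ⟨d, hd, hp⟩ := hZB' _ (Submodule.coe_mem _) hzne'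
        apply hp
        rw [← ell_Lz d (hZB _ (Submodule.coe_mem _))]
        have e1 : ((∑ i, τ i • b i : ZB) : (Fin q → {v // v ∈ B}) → ℝ) =
            ∑ i, τ i • ((b i : ZB) : (Fin q → {v // v ∈ B}) → ℝ) := by
          simp
        rw [e1, map_sum, map_sum]
        have e2 : ∀ i, ell q B d (Lz q B (τ i • ((b i : ZB) : (Fin q → {v // v ∈ B}) → ℝ))) =
            (-1 : ℝ) ^ p * (L (Lz p S fun u => EE (p := p) B a d (Subtype.val ∘ u)) i * τ i) := by
          intro i
          rw [map_smul, map_smul, ell_Lz d (hZB _ (b i).2), smul_eq_mul,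
            pair_mu ha B (hZB _ (b i).2) (fun T hT => m1 i T fun h => hT h.2.2) (m3 i) (bc hd), hL]
          have e3 : ∀ T : Finset V, mu i T * oo (EE (p := p) B a d) T =
              mu i T * Lz p S (fun u => EE (p := p) B a d (Subtype.val ∘ u)) T := by
            intro T
            by_cases hT : (T : Set V) ⊆ S
            · rw [Lz_eq (EE (p := p) B a d) hT]
            · rw [m1 i T fun h => hT h.2.1]
              ring
          rw [Finset.sum_congr rfl fun T _ => e3 T]
          ring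
        rw [Finset.sum_congr rfl fun i _ => e2 i, ← Finset.mul_sum, ← hfs]
        have e4 : f (L (Lz p S fun u => EE (p := p) B a d (Subtype.val ∘ u))) = 0 := by
          refine LinearMap.mem_ker.1 (hf (Submodule.mem_map_of_mem ?_))
          refine Submodule.mem_sup_left (Submodule.subset_span ⟨d, hd, rfl⟩)
        rw [e4, mul_zero]
      have hτ0 := Fintype.linearIndependent_iff.1 b.linearIndependent τ hz
      apply hf0
      refine LinearMap.ext fun x => ?_
      rw [hfs x, LinearMap.zero_apply]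
      refine Finset.sum_eq_zero fun i _ => ?_
      change x i * τ i = 0
      rw [hτ0 i, mul_zero]
    rw [h4, finrank_top, Module.finrank_fintype_fun_eq_card, Fintype.card_fin] at h1
    omega
  unfold beta
  omega

end Pool.Agent.Helper41.SE
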