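import Pool.Agent.Helper41.SE.F6
import Pool.Agent.Helper41.SE.Defs

/-!
Products of bounded classes of all degrees: the criterion and the Euler characteristic.
-/

set_option autoImplicit false
set_option linter.unusedSectionVars false

open scoped Classical

namespace Pool.Agent.Helper41.SE

open Pool.Agent.W907.SG Pool.Agent.W907.SM Module Pool.Agent.TH652.Dual
open Pool.Agent.Helper41.SV (GA piA)
open Pool.Agent.Helper41.SD (cl KK_dim sum_cl)
open Pool.Agent.Q134.SV (IsCyc pair push gen par Good)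
open Pool.Agent.N13.QC (svol)
open Pool.Agent.W397.SG (euler)

section

variable {V : Type} [Fintype V]

theorem rk_mem (G : SimpleGraph V) (S : Set V) (p : ℕ) :
    ∃ Z : Submodule ℝ ((Fin p → {v // v ∈ S}) → ℝ), PosOn G S p Z ∧ rk G S p = finrank ℝ Z := by
  refine Nat.sSup_mem (s := {r | ∃ Z : Submodule ℝ ((Fin p → {v // v ∈ S}) → ℝ),
    PosOn G S p Z ∧ r = finrank ℝ Z}) ⟨_, ⊥, ⟨?_, ?_⟩, rfl⟩ ⟨finrank ℝ ((Fin p → {v // v ∈ S}) → ℝ), ?_⟩
  · intro z hz
    rw [Submodule.mem_bot] at hz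
    subst hz
    refine ⟨?_, ?_, ?_⟩
    · intro v i j _
      simp
    · intro v hv
      exact absurd rfl hv
    · intro v i
      simp
  · intro z hz h0
    rw [Submodule.mem_bot] at hz
    exact absurd hz h0
  · rintro r ⟨Z, _, rfl⟩
    exact Submodule.finrank_le Z

theorem le_rk {G : SimpleGraph V} {S : Set V} {p : ℕ}
    {Z : Submodule ℝ ((Fin p → {v // v ∈ S}) → ℝ)} (hZ : PosOn G S p Z) :
    finrank ℝ Z ≤ rk G S p := by
  refine le_csSup ⟨finrank ℝ ((Fin p → {v // v ∈ S}) → ℝ), ?_⟩ ⟨Z, hZ, rfl⟩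
  rintro r ⟨Z, _, rfl⟩
  exact Submodule.finrank_le Z

theorem exists_good {G : SimpleGraph V} {S : Set V} {p : ℕ}
    {Z : Submodule ℝ ((Fin p → {v // v ∈ S}) → ℝ)} (hZ : PosOn G S p Z)
    {z : (Fin p → {v // v ∈ S}) → ℝ} (hz : z ∈ Z) (h0 : z ≠ 0) :
    ∃ c, Good (GA G fun v => v ∈ S) p c ∧ pair (gen (GA G fun v => v ∈ S)) z c ≠ 0 := by
  obtain ⟨K, k1, k2, k3⟩ := hZ.pos z hz h0
  obtain ⟨c, hc, hp⟩ := exists_bc (GA G fun v => v ∈ S) p z K k1 k2 k3
  obtain ⟨c', hc', hp'⟩ := good_of_bc hc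
  exact ⟨c', hc', by rw [hp' z (hZ.cyc z hz)]; exact hp⟩

end

section

variable {V : Type} [Fintype V] [LinearOrder V] {G : SimpleGraph V}

theorem exists_detect2 {n p q : ℕ} (hpq : p + q = n) (hS : Sph n G) {a : (Fin n → V) → ℝ}
    (ha : IsCyc n G a) (h0 : a ≠ 0) (S : Set V)
    (h : beta G (triv V) S ∅ p < rk G S p + rk G Sᶜ q) :
    ∃ c, BC G n c ∧ pair (gen G) a c ≠ 0 := by
  obtain rfl : n = q + p := by omega
  obtain ⟨ZA, hA, eA⟩ := rk_mem G S p
  obtain ⟨ZB, hB, eB⟩ := rk_mem G Sᶜ q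
  rw [eA, eB] at h
  by_contra hn
  push Not at hn
  refine absurd (main_ineq hS ha h0 S Sᶜ rfl ?_ ZA hA.cyc
    (fun z hz hz0 => exists_good hA hz hz0) ZB hB.cyc
    (fun z hz hz0 => exists_good hB hz hz0)) (not_le.2 h)
  intro c d hc hd
  rw [← pair_EE a S Sᶜ rfl hc hd]
  exact hn _ (cup_bc (fun v => v ∈ S) (fun v => v ∈ Sᶜ) (fun x => Iff.rfl)
    ⟨hc.gen, hc.coc, hc.bdd⟩ ⟨hd.gen, hd.coc, hd.bdd⟩)

theorem cl_eq {n : ℕ} (hS : Sph n G) (A : Set V) : cl G A =
    ∑ i ∈ Finset.range (n + 1), (-1 : ℤ) ^ i * (beta G (triv V) A ∅ i : ℤ) := by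
  have h := euler G (triv V) A ∅ n
  have h5 : BB G (triv V) A ∅ n = ⊥ := by
    have : KK G (triv V) A ∅ (n + 1) = ⊥ := by
      rw [eq_bot_iff]
      intro c hc
      rw [mem_KK_triv] at hc
      rw [Submodule.mem_bot]
      funext T
      refine hc T ?_
      rintro ⟨h1, _, h3⟩
      have := no_big hS h1
      omega
    unfold BB
    rw [this, Submodule.map_bot]
  rw [h5, finrank_bot, Nat.cast_zero, mul_zero, sub_zero] at h
  have h6 : ∑ i ∈ Finset.range (n + 1), (-1 : ℤ) ^ i * (finrank ℝ (KK G (triv V) A ∅ i) : ℤ) =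
      cl G A := by
    unfold cl
    rw [← Finset.sum_filter, ← Finset.sum_fiberwise_of_maps_to (g := Finset.card)
      (t := Finset.range (n + 1))]
    · refine Finset.sum_congr rfl fun i _ => ?_
      rw [KK_dim, Finset.sum_congr rfl (g := fun _ => (-1 : ℤ) ^ i), Finset.sum_const,
        Finset.filter_filter, nsmul_eq_mul, mul_comm]
      intro T hT
      rw [Finset.mem_filter] at hT
      rw [hT.2]
    · intro T hT
      rw [Finset.mem_filter] at hT
      have := no_big hS hT.2.1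
      rw [Finset.mem_range]
      omega
  rw [← h6, ← h]

/-- the sum over all sets of vertices and over the complements -/
theorem sum_compl (F : Set V → ℕ) : ∑ A : Finset V, F (A : Set V)ᶜ = ∑ A : Finset V, F (A : Set V) := by
  rw [← Equiv.sum_comp (Function.Involutive.toPerm (compl : Finset V → Finset V)
    compl_involutive)]
  refine Finset.sum_congr rfl fun A _ => ?_
  change F ((Aᶜ : Finset V) : Set V)ᶜ = F (A : Set V)
  rw [Finset.coe_compl, compl_compl]

theorem sum_degs {n : ℕ} (hn : Even n) (e : ℕ) (F : ℕ → ℕ) :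
    ∑ p ∈ degs n e, F (n - p) = ∑ p ∈ degs n e, F p := by
  obtain ⟨k, hk⟩ := hn
  refine Finset.sum_nbij' (fun p => n - p) (fun p => n - p) ?_ ?_ ?_ ?_ ?_
  · intro p hp
    unfold degs at hp ⊢
    rw [Finset.mem_filter, Finset.mem_range] at hp ⊢
    omega
  · intro p hp
    unfold degs at hp ⊢
    rw [Finset.mem_filter, Finset.mem_range] at hp ⊢
    omega
  · intro p hp
    unfold degs at hp
    rw [Finset.mem_filter, Finset.mem_range] at hp
    omega
  · intro p hp
    unfold degs at hp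
    rw [Finset.mem_filter, Finset.mem_range] at hp
    omega
  · intro p _
    rfl

theorem chi_eq_degs {n : ℕ} (hS : Sph n G) (e : ℕ) :
    (-1 : ℚ) ^ e * (2 ^ Fintype.card V * chiW G) +
      ((∑ A : Finset V, ∑ p ∈ degs n (e + 1), beta G (triv V) (A : Set V) ∅ p : ℕ) : ℚ) =
      ((∑ A : Finset V, ∑ p ∈ degs n e, beta G (triv V) (A : Set V) ∅ p : ℕ) : ℚ) := by
  rw [← sum_cl]
  have key : (-1 : ℤ) ^ e * ∑ A : Finset V, cl G (A : Set V) +
      ((∑ A : Finset V, ∑ p ∈ degs n (e + 1), beta G (triv V) (A : Set V) ∅ p : ℕ) : ℤ) =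
      ((∑ A : Finset V, ∑ p ∈ degs n e, beta G (triv V) (A : Set V) ∅ p : ℕ) : ℤ) := by
    rw [Finset.mul_sum]
    push_cast
    rw [← Finset.sum_add_distrib]
    refine Finset.sum_congr rfl fun A _ => ?_
    rw [cl_eq hS, Finset.mul_sum]
    unfold degs
    rw [Finset.sum_filter, Finset.sum_filter, ← Finset.sum_add_distrib]
    refine Finset.sum_congr rfl fun p _ => ?_
    rw [← mul_assoc, ← pow_add]
    by_cases h : p % 2 = e % 2
    · have : Even (e + p) := by
        rw [Nat.even_iff]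
        omega
      rw [this.neg_one_pow, one_mul, if_pos h, if_neg (by omega), add_zero]
    · have : Odd (e + p) := by
        rw [Nat.odd_iff]
        omega
      rw [this.neg_one_pow, if_neg h, if_pos (by omega)]
      ring
  exact_mod_cast key

theorem two_rk {n : ℕ} (hn : Even n) (r : Set V → ℕ → ℕ)
    (hb : ∀ p q, p + q = n → ∀ S : Set V, r S p + r Sᶜ q ≤ beta G (triv V) S ∅ p) (e : ℕ) :
    2 * ∑ A : Finset V, ∑ p ∈ degs n e, r (A : Set V) p ≤
      ∑ A : Finset V, ∑ p ∈ degs n e, beta G (triv V) (A : Set V) ∅ p := by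
  have h1 : ∑ p ∈ degs n e, ∑ A : Finset V, (r (A : Set V) p + r (A : Set V)ᶜ (n - p)) ≤
      ∑ p ∈ degs n e, ∑ A : Finset V, beta G (triv V) (A : Set V) ∅ p := by
    refine Finset.sum_le_sum fun p hp => Finset.sum_le_sum fun A _ => ?_
    unfold degs at hp
    rw [Finset.mem_filter, Finset.mem_range] at hp
    exact hb p (n - p) (by omega) _
  have h2 : ∑ p ∈ degs n e, ∑ A : Finset V, (r (A : Set V) p + r (A : Set V)ᶜ (n - p)) =
      2 * ∑ p ∈ degs n e, ∑ A : Finset V, r (A : Set V) p := by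
    simp only [Finset.sum_add_distrib]
    rw [Finset.sum_congr rfl fun p _ => sum_compl fun S : Set V => r S (n - p),
      sum_degs hn e fun p => ∑ A : Finset V, r (A : Set V) p]
    ring
  rw [Finset.sum_comm (s := Finset.univ) (f := fun (A : Finset V) p => r (A : Set V) p),
    Finset.sum_comm (s := Finset.univ) (f := fun (A : Finset V) p => beta G (triv V) (A : Set V) ∅ p)]
  omega

/-- the Euler characteristic and the classes which are not detected by bounded classes -/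
theorem euler_bound {n : ℕ} (hn : Even n) (hS : Sph n G) (r : Set V → ℕ → ℕ)
    (hb : ∀ p q, p + q = n → ∀ S : Set V, r S p + r Sᶜ q ≤ beta G (triv V) S ∅ p) (e : ℕ) :
    (-1 : ℚ) ^ e * (2 ^ Fintype.card V * chiW G) +
      2 * ((∑ A : Finset V, ∑ p ∈ degs n (e + 1), r (A : Set V) p : ℕ) : ℚ) ≤
      2 * ((∑ A : Finset V, ∑ p ∈ degs n e, (beta G (triv V) (A : Set V) ∅ p - r (A : Set V) p) : ℕ) : ℚ) := by
  have h0 := chi_eq_degs hS e
  have h1 := two_rk hn r hb e
  have h2 := two_rk hn r hb (e + 1)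
  have h3 : ∑ A : Finset V, ∑ p ∈ degs n e, beta G (triv V) (A : Set V) ∅ p ≤
      ∑ A : Finset V, ∑ p ∈ degs n e, (beta G (triv V) (A : Set V) ∅ p - r (A : Set V) p) +
      ∑ A : Finset V, ∑ p ∈ degs n e, r (A : Set V) p := by
    rw [← Finset.sum_add_distrib]
    refine Finset.sum_le_sum fun A _ => ?_
    rw [← Finset.sum_add_distrib]
    refine Finset.sum_le_sum fun p _ => ?_
    omega
  have h4 : ((∑ A : Finset V, ∑ p ∈ degs n e, beta G (triv V) (A : Set V) ∅ p : ℕ) : ℚ) +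
      2 * ((∑ A : Finset V, ∑ p ∈ degs n (e + 1), r (A : Set V) p : ℕ) : ℚ) ≤
      2 * ((∑ A : Finset V, ∑ p ∈ degs n e, (beta G (triv V) (A : Set V) ∅ p - r (A : Set V) p) : ℕ) : ℚ) +
      ((∑ A : Finset V, ∑ p ∈ degs n (e + 1), beta G (triv V) (A : Set V) ∅ p : ℕ) : ℚ) := by
    exact_mod_cast (by omega :
      ∑ A : Finset V, ∑ p ∈ degs n e, beta G (triv V) (A : Set V) ∅ p +
      2 * ∑ A : Finset V, ∑ p ∈ degs n (e + 1), r (A : Set V) p ≤
      2 * ∑ A : Finset V, ∑ p ∈ degs n e, (beta G (triv V) (A : Set V) ∅ p - r (A : Set V) p) +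
      ∑ A : Finset V, ∑ p ∈ degs n (e + 1), beta G (triv V) (A : Set V) ∅ p)
  linarith

/-- The criterion for products of bounded classes of all degrees. -/
theorem main2 {V' : Type} [Fintype V'] (n : ℕ) (G' : SimpleGraph V') (f : V' → V)
    (hf : ∀ x y, G'.Adj x y → f x = f y ∨ G.Adj (f x) (f y)) (hS : Sph n G)
    (a : (Fin n → V') → ℝ) (ha : IsCyc n G' a) (h0 : push f a ≠ 0)
    (h : (∃ (p q : ℕ) (S : Set V), p + q = n ∧ beta G (triv V) S ∅ p < rk G S p + rk G Sᶜ q) ∨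
      (Even n ∧ ∃ e : ℕ, 2 * ((∑ A : Finset V, ∑ p ∈ degs n e, nul G (A : Set V) p : ℕ) : ℚ) <
        (-1 : ℚ) ^ e * (2 ^ Fintype.card V * chiW G) +
          2 * ((∑ A : Finset V, ∑ p ∈ degs n (e + 1), rk G (A : Set V) p : ℕ) : ℚ))) :
    ∃ c : ℝ, 0 < c ∧ ∀ H : Subgroup (W G'), H.index ≠ 0 → H ≤ (par G').ker →
      c * H.index ≤ svol G' n a H := by
  by_contra hc
  have hb : ∀ p q, p + q = n → ∀ S : Set V, rk G S p + rk G Sᶜ q ≤ beta G (triv V) S ∅ p := by
    intro p q hpq S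
    by_contra hn
    obtain ⟨c, h1, h2⟩ := exists_detect2 hpq hS (ha.push f hf) h0 S (not_le.1 hn)
    exact hc (bound_of_bc f hf a h1 h2)
  rcases h with ⟨p, q, S, hpq, h⟩ | ⟨hn, e, h⟩
  · exact absurd h (not_lt.2 (hb p q hpq S))
  · exact absurd h (not_lt.2 (euler_bound hn hS (rk G) hb e))

end

end Pool.Agent.Helper41.SE
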