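import Pool.Agent.Helper41.SE.F7
import Pool.Agent.Helper41.SD.D8

/-!
The rank of the simplicial volume in degree two is at least the Betti number minus the number of the
squares.
-/

set_option autoImplicit false
set_option linter.unusedSectionVars false

open scoped Classical

namespace Pool.Agent.Helper41.SE

open Pool.Agent.W907.SG Pool.Agent.W907.SM Module Pool.Agent.TH652.Dual
open Pool.Agent.Helper41.SV (GA piA SqFree exists_cochain)
open Pool.Agent.Helper41.SD (Km Km_apply Km_lt Km_anti ed Lf TS GS TS_le GS_rank c4 t3_mem c4_mem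
  nsq)
open Pool.Agent.Q134.SV (IsCyc pair push gen par Good cobd)
open Pool.Agent.N13.QC (svol)
open Pool.Agent.W397.SG (rank_null)
open Pool.Agent.Helper41.SV (sum_push)

/-- a bounded cocycle which does not vanish at `z` -/
theorem pos_of_bc {V' : Type} [Fintype V'] {G' : SimpleGraph V'} {n : ℕ} {z : (Fin n → V') → ℝ}
    {c : (Fin (n + 1) → W G') → ℝ} (hc : BC G' n c) (hp : pair (gen G') z c ≠ 0) :
    ∃ K : Subgroup (W G'), K.index ≠ 0 ∧ K ≤ (par G').ker ∧ 0 < svol G' n z K := by
  obtain ⟨K, hK⟩ := hc.bdd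
  have hidx : (par G').ker.index ≠ 0 := by
    rw [Subgroup.index_ker]
    exact Nat.card_pos.ne'
  refine ⟨(par G').ker, hidx, le_rfl, ?_⟩
  have h5 := svol_ge (a := z) hc hK _ hidx le_rfl
  have hK0 : 0 ≤ K := (abs_nonneg _).trans (hK 1)
  have h6 : 0 < ((par G').ker.index : ℝ) * |pair (gen G') z c| :=
    mul_pos (by exact_mod_cast Nat.pos_of_ne_zero hidx) (abs_pos.2 hp)
  by_contra hle
  push Not at hle
  have h7 : 2 ^ n * K * svol G' n z (par G').ker ≤ 0 :=
    mul_nonpos_of_nonneg_of_nonpos (by positivity) hle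
  linarith

/-- a cocycle which vanishes on the squares gives a bounded class of degree two -/
theorem bc_of_sqfree {V' : Type} [Fintype V'] (G' : SimpleGraph V') (φ : V' → V' → ℝ)
    (hφ : SqFree G' φ) : ∃ c : (Fin 3 → W G') → ℝ, BC G' 2 c ∧
      ∀ z : (Fin 2 → V') → ℝ, IsCyc 2 G' z →
        pair (gen G') z c = 2 * ∑ v : Fin 2 → V', z v * φ (v 0) (v 1) := by
  have hφ' : SqFree (GA G' fun _ => True) fun a b => φ a.1 b.1 :=
    ⟨fun a b => hφ.anti _ _, fun a b c h1 h2 h3 => hφ.tri a.1 b.1 c.1 h1 h2 h3,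
      fun a b z z' h1 h2 h3 h4 => hφ.sq a.1 b.1 z.1 z'.1 h1 h2 h3 h4⟩
  set B : ℝ := ∑ s, ∑ t, |φ s t| with hBdef
  have hB0 : 0 ≤ B := Finset.sum_nonneg fun s _ => Finset.sum_nonneg fun t _ => abs_nonneg _
  have hB : ∀ x y, |φ x y| ≤ B := by
    intro x y
    calc |φ x y| ≤ ∑ t, |φ x t| :=
          Finset.single_le_sum (f := fun t => |φ x t|) (fun _ _ => abs_nonneg _)
            (Finset.mem_univ y)
      _ ≤ B := Finset.single_le_sum (f := fun s => ∑ t, |φ s t|)
            (fun _ _ => Finset.sum_nonneg fun _ _ => abs_nonneg _) (Finset.mem_univ x)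
  obtain ⟨D, d1, d2, _, d4, d5⟩ := exists_cochain G' (fun _ => True) φ hφ' B
    (fun x y _ _ _ => hB x y) hB0
  refine ⟨fun w => D (w 0) (w 1) (w 2), ⟨?_, ?_, ⟨_, fun g => d4 _ _ _⟩⟩, ?_⟩
  · intro x g
    change D (gen G' x * g 0) (gen G' x * g 1) (gen G' x * g 2) = - D (g 0) (g 1) (g 2)
    rw [d1, if_pos trivial]
    ring
  · intro g
    unfold cobd
    rw [Fin.sum_univ_four]
    have h := d2 (g 0) (g 1) (g 2) (g 3)
    change (-1 : ℝ) ^ 0 * D (g 1) (g 2) (g 3) + (-1 : ℝ) ^ 1 * D (g 0) (g 2) (g 3) +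
      (-1 : ℝ) ^ 2 * D (g 0) (g 1) (g 3) + (-1 : ℝ) ^ 3 * D (g 0) (g 1) (g 2) = 0
    linarith
  · intro z hz
    unfold pair
    rw [Finset.mul_sum]
    refine Finset.sum_congr rfl fun v _ => ?_
    by_cases hv : z v = 0
    · rw [hv]
      ring
    · have hadj := hz.supp v hv 0 1 (by decide)
      have h1 := d5 (v 0) (v 1) hadj
      rw [if_pos ⟨trivial, trivial⟩] at h1
      have e0 : Fin.partialProd (gen G' ∘ v) 0 = 1 := Fin.partialProd_zero _
      have e1 : Fin.partialProd (gen G' ∘ v) 1 = gen G' (v 0) := by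
        have := Fin.partialProd_succ (gen G' ∘ v) 0
        rw [Fin.castSucc_zero, Fin.partialProd_zero, one_mul] at this
        exact this
      have e2 : Fin.partialProd (gen G' ∘ v) 2 = gen G' (v 0) * gen G' (v 1) := by
        have := Fin.partialProd_succ (gen G' ∘ v) 1
        rw [show (Fin.castSucc (1 : Fin 2)) = 1 from rfl, e1] at this
        exact this
      change z v * D (Fin.partialProd (gen G' ∘ v) 0) (Fin.partialProd (gen G' ∘ v) 1)
        (Fin.partialProd (gen G' ∘ v) 2) = _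
      rw [e0, e1, e2, h1]
      ring

section

variable {V : Type} [Fintype V] [LinearOrder V] {G : SimpleGraph V}

/-- the space of the cycles -/
def Cyc (G : SimpleGraph V) (S : Set V) (p : ℕ) : Submodule ℝ ((Fin p → {v // v ∈ S}) → ℝ) where
  carrier := {z | IsCyc p (GA G fun v => v ∈ S) z}
  add_mem' := by
    intro z z' h h'
    refine ⟨?_, ?_, ?_⟩
    · intro v i j hij
      rw [Pi.add_apply, Pi.add_apply, h.alt v i j hij, h'.alt v i j hij]
      ring
    · intro v hv
      by_cases h1 : z v = 0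
      · refine h'.supp v fun h2 => hv ?_
        rw [Pi.add_apply, h1, h2, add_zero]
      · exact h.supp v h1
    · intro v i
      simp only [Pi.add_apply]
      rw [Finset.sum_add_distrib, h.cyc v i, h'.cyc v i, add_zero]
  zero_mem' := by
    refine ⟨?_, ?_, ?_⟩
    · intro v i j _
      simp
    · intro v hv
      exact absurd rfl hv
    · intro v i
      simp
  smul_mem' := by
    intro r z h
    refine ⟨?_, ?_, ?_⟩
    · intro v i j hij
      rw [Pi.smul_apply, Pi.smul_apply, h.alt v i j hij, smul_neg]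
    · intro v hv
      refine h.supp v fun h2 => hv ?_
      rw [Pi.smul_apply, h2, smul_zero]
    · intro v i
      simp only [Pi.smul_apply]
      rw [← Finset.smul_sum, h.cyc v i, smul_zero]

/-- the cycles on the finite sets are cycles of tuples -/
theorem Ex_cyc {p : ℕ} {S : Set V} {y : Finset V → ℝ} (hy : y ∈ ZZ G (triv V) S ∅ (p + 1)) :
    IsCyc (p + 1) (GA G fun v => v ∈ S) fun u => Ex (n := p + 1) y fun i => (u i : V) := by
  obtain ⟨hy1, hy2⟩ := hy
  rw [SetLike.mem_coe, mem_KK_triv] at hy1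
  have hY0 : ∀ T : Finset V, T.card ≠ p + 1 → y T = 0 := fun T hT => hy1 T fun h => hT h.2.2
  set Y : (Fin (p + 1) → V) → ℝ := Ex y with hY
  have hYa : Alt Y := Ex_alt y
  have hYs : ∀ v, Y v ≠ 0 → Function.Injective v ∧ G.IsClique ((fs v : Finset V) : Set V) ∧
      ((fs v : Finset V) : Set V) ⊆ S := by
    intro v hv
    rw [hY] at hv
    unfold Ex at hv
    by_cases hi : Function.Injective v
    · rw [if_pos hi] at hv
      by_contra hn
      have : y (fs v) = 0 := hy1 _ fun h => hn ⟨hi, h.1, h.2.1⟩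
      rw [this, mul_zero] at hv
      exact hv rfl
    · rw [if_neg hi] at hv
      exact absurd rfl hv
  have hYS : ∀ v, Y v ≠ 0 → ∀ i, v i ∈ S := fun v hv i =>
    (hYs v hv).2.2 (Finset.mem_coe.2 (mem_fs.2 ⟨i, rfl⟩))
  have key : bnd Y = fun _ => 0 := by
    refine alt_ext (bnd_alt hYa) (fun v i j _ => by simp) fun w hw => ?_
    have h2 := sum_compl_fs hYa hw
    rw [hY, oo_Ex hY0] at h2
    have h3 : bd ℝ y = 0 := hy2
    rw [h3] at h2
    exact h2.symm
  refine cyc_of_cons ?_ ?_ ?_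
  · intro v i j hij
    exact hYa (fun i => (v i : V)) i j hij
  · intro v hv i j hij
    obtain ⟨k1, k2, _⟩ := hYs _ hv
    have : G.Adj (v i : V) (v j : V) := k2 (Finset.mem_coe.2 (mem_fs.2 ⟨i, rfl⟩))
      (Finset.mem_coe.2 (mem_fs.2 ⟨j, rfl⟩)) fun e => hij (k1 e)
    exact this
  · intro u
    have h1 : bnd Y (fun i => (u i : V)) = 0 := congrFun key _
    rw [← h1]
    unfold bnd
    refine Fintype.sum_of_injective Subtype.val Subtype.val_injective _ _ ?_ ?_
    · intro x hx
      by_contra hne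
      exact hx ⟨⟨x, by simpa using hYS _ hne 0⟩, rfl⟩
    · intro x
      congr 1
      funext i
      refine Fin.cases ?_ (fun i => ?_) i
      · rfl
      · rfl

theorem Cyc_rank {p : ℕ} (S : Set V) :
    finrank ℝ (ZZ G (triv V) S ∅ (p + 1)) ≤ finrank ℝ ((Cyc G S (p + 1)).map (Lz (p + 1) S)) := by
  refine Submodule.finrank_mono ?_
  intro y hy
  refine ⟨fun u => Ex (n := p + 1) y fun i => (u i : V), Ex_cyc hy, ?_⟩
  have hy1 := hy.1
  rw [SetLike.mem_coe, mem_KK_triv] at hy1
  funext T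
  by_cases hT : (T : Set V) ⊆ S
  · refine (Lz_eq (Ex (n := p + 1) y) hT).trans ?_
    rw [oo_Ex fun T hT => hy1 T fun h => hT h.2.2]
  · rw [hy1 T fun h => hT h.2.1]
    rw [Lz_apply]
    by_cases hc : T.card = p + 1
    · obtain ⟨w, hw, rfl⟩ := exists_fs hc
      rw [oo_fs _ hw]
      by_contra hne
      refine hT ?_
      intro v hv
      obtain ⟨i, rfl⟩ := mem_fs.1 (Finset.mem_coe.1 hv)
      exact push_supp S hne i
    · rw [oo_card _ hc]

theorem Km_oo {b : (Fin 2 → V) → ℝ} (hb : Alt b) (v : Fin 2 → V) :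
    Km (oo b) (v 0) (v 1) = b v := by
  have key : (fun v : Fin 2 → V => Km (oo b) (v 0) (v 1)) = b := by
    refine alt_ext ?_ hb ?_
    · intro v i j hij
      have h1 : v ∘ Equiv.swap i j = ![v 1, v 0] := by
        funext k
        fin_cases i <;> fin_cases j <;> fin_cases k <;> first | exact absurd rfl hij | rfl
      rw [h1]
      exact Km_anti _ _ _
    · intro w hw
      have h1 : w 0 < w 1 := hw (by decide)
      change Km (oo b) (w 0) (w 1) = b w
      rw [Km_lt _ h1, ← oo_fs b hw]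
      congr 1
      ext x
      rw [mem_fs]
      simp [Fin.exists_fin_two, eq_comm]
  exact congrFun key v

/-- the map to the antisymmetric functions -/
noncomputable def Th (S : Set V) : ((Fin 2 → {v // v ∈ S}) → ℝ) →ₗ[ℝ] (V → V → ℝ) :=
  Km ∘ₗ Lz 2 S

theorem Th_apply {S : Set V} {z : (Fin 2 → {v // v ∈ S}) → ℝ}
    (hz : IsCyc 2 (GA G fun v => v ∈ S) z) (v : Fin 2 → V) :
    Th S z (v 0) (v 1) = push Subtype.val z v :=
  Km_oo (push_cyc (G := G) S hz).alt v

theorem Th_inj {S : Set V} {z : (Fin 2 → {v // v ∈ S}) → ℝ}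
    (hz : IsCyc 2 (GA G fun v => v ∈ S) z) (h : Th S z = 0) : z = 0 := by
  funext u
  have h1 := Th_apply hz fun i => (u i : V)
  rw [h, push_val] at h1
  exact h1.symm

/-- an antisymmetric function is a combination of the oriented edges -/
theorem eq_sum_ed {c : V → V → ℝ} (hc : ∀ s t, c s t = - c t s) :
    (2 : ℝ) • c = ∑ s, ∑ t, c s t • ed s t := by
  funext x y
  rw [Pi.smul_apply, Pi.smul_apply, Finset.sum_apply, Finset.sum_apply]
  have h1 : ∀ s, (∑ t, c s t • (ed s t : V → V → ℝ)) x y =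
      (if s = x then c x y else 0) - if s = y then c y x else 0 := by
    intro s
    rw [Finset.sum_apply, Finset.sum_apply]
    unfold ed
    simp only [Pi.smul_apply, smul_eq_mul, mul_sub, Finset.sum_sub_distrib]
    congr 1
    · by_cases h : s = x
      · subst h
        rw [if_pos rfl, Finset.sum_eq_single y]
        · simp
        · intro b _ hb
          rw [if_neg fun h => hb h.2.symm, mul_zero]
        · intro h
          exact absurd (Finset.mem_univ _) h
      · rw [if_neg h]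
        refine Finset.sum_eq_zero fun t _ => ?_
        rw [if_neg fun h' => h h'.1.symm, mul_zero]
    · by_cases h : s = y
      · subst h
        rw [if_pos rfl, Finset.sum_eq_single x]
        · simp
        · intro b _ hb
          rw [if_neg fun h => hb h.1.symm, mul_zero]
        · intro h
          exact absurd (Finset.mem_univ _) h
      · rw [if_neg h]
        refine Finset.sum_eq_zero fun t _ => ?_
        rw [if_neg fun h' => h h'.2.symm, mul_zero]
  rw [Finset.sum_congr rfl fun s _ => h1 s, Finset.sum_sub_distrib, Finset.sum_ite_eq',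
    Finset.sum_ite_eq', if_pos (Finset.mem_univ _), if_pos (Finset.mem_univ _), hc y x, smul_eq_mul]
  ring

theorem oe_eq (x y : V) : (oe x y : V → V → ℝ) = ed x y := by
  funext s t
  unfold oe ed
  congr

/-- a cycle which is not a combination of triangles and squares has positive simplicial volume -/
theorem svol_two {S : Set V} {z : (Fin 2 → {v // v ∈ S}) → ℝ}
    (hz : IsCyc 2 (GA G fun v => v ∈ S) z) (hn : Th S z ∉ triSpan G S ⊔ sqSpan G S) :
    ∃ K : Subgroup (W (GA G fun v => v ∈ S)), K.index ≠ 0 ∧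
      K ≤ (par (GA G fun v => v ∈ S)).ker ∧ 0 < svol (GA G fun v => v ∈ S) 2 z K := by
  obtain ⟨f, hf, hker⟩ := Submodule.exists_le_ker_of_notMem hn
  let φ : {v // v ∈ S} → {v // v ∈ S} → ℝ := fun s t => f (ed (s : V) (t : V))
  have hφ : SqFree (GA G fun v => v ∈ S) φ := by
    refine ⟨?_, ?_, ?_⟩
    · intro a b
      change f (ed _ _) = - f (ed _ _)
      rw [← map_neg, ← Pool.Agent.Helper41.SD.ed_anti]
    · intro a b c h1 h2 h3
      have h4 : f (Pool.Agent.Helper41.SD.t3 (a : V) (b : V) (c : V)) = 0 :=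
        hker (Submodule.mem_sup_left (Submodule.subset_span
          ⟨a, b, c, a.2, b.2, c.2, h1, h2, h3, by rw [oe_eq, oe_eq, oe_eq]; rfl⟩))
      unfold Pool.Agent.Helper41.SD.t3 at h4
      rw [map_add, map_add, Pool.Agent.Helper41.SD.ed_anti (c : V) (a : V), map_neg] at h4
      change f (ed _ _) + f (ed _ _) = f (ed _ _)
      linarith
    · intro a b x y h1 h2 h3 h4
      have h5 : f (c4 (a : V) (x : V) (b : V) (y : V)) = 0 :=
        hker (Submodule.mem_sup_right (Submodule.subset_span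
          ⟨a, x, b, y, a.2, x.2, b.2, y.2, h1, h2, G.adj_symm h4, G.adj_symm h3, by
            rw [oe_eq, oe_eq, oe_eq, oe_eq]; rfl⟩))
      unfold c4 at h5
      rw [map_add, map_add, map_add, Pool.Agent.Helper41.SD.ed_anti (b : V) (y : V),
        Pool.Agent.Helper41.SD.ed_anti (y : V) (a : V), map_neg, map_neg] at h5
      change f (ed _ _) + f (ed _ _) = f (ed _ _) + f (ed _ _)
      linarith
  obtain ⟨c, hc, hp⟩ := bc_of_sqfree (GA G fun v => v ∈ S) φ hφ
  have h1 : ∑ v : Fin 2 → {v // v ∈ S}, z v * φ (v 0) (v 1) = 2 * f (Th S z) := by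
    have h2 := sum_push (Subtype.val : {v // v ∈ S} → V) z fun w => f (ed (w 0) (w 1))
    have h3 : (2 : ℝ) * f (Th S z) = ∑ s, ∑ t, Th S z s t * f (ed s t) := by
      rw [← smul_eq_mul, ← map_smul, eq_sum_ed (c := Th S z) fun s t => Km_anti _ s t, map_sum]
      refine Finset.sum_congr rfl fun s _ => ?_
      rw [map_sum]
      refine Finset.sum_congr rfl fun t _ => ?_
      rw [map_smul, smul_eq_mul]
    rw [h3]
    refine h2.symm.trans ?_
    rw [← Fintype.sum_prod_type']
    refine Fintype.sum_equiv (finTwoArrowEquiv V) _ _ fun w => ?_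
    have h4 := Th_apply hz w
    rw [← h4]
    rfl
  have hp0 : pair (gen (GA G fun v => v ∈ S)) z c ≠ 0 := by
    rw [hp z hz, h1]
    intro h
    apply hf
    linarith
  exact pos_of_bc hc hp0

theorem triSpan_eq (S : Set V) : triSpan G S = TS G S := by
  unfold triSpan TS
  simp only [oe_eq]
  rfl

theorem sqSpan_le (S : Set V) : sqSpan G S ≤ TS G S ⊔ GS G S := by
  unfold sqSpan
  rw [Submodule.span_le]
  rintro _ ⟨x, y, z, w, hx, hy, hz, hw, h1, h2, h3, h4, rfl⟩
  rw [oe_eq, oe_eq, oe_eq, oe_eq]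
  exact c4_mem hx hy hz hw h1 h2 h3 h4

theorem sqr_le (S : Set V) : sqr G S ≤ nsq G S := by
  have h1 := Submodule.finrank_add_le_finrank_add_finrank (TS G S) (GS G S)
  have h2 := GS_rank (G := G) S
  have h3 : TS G S ⊔ sqSpan G S ≤ TS G S ⊔ GS G S := sup_le le_sup_left (sqSpan_le S)
  have h4 := Submodule.finrank_mono h3
  unfold sqr
  rw [triSpan_eq]
  omega

/-- The rank in degree two. -/
theorem rk_two (S : Set V) : beta G (triv V) S ∅ 2 ≤ sqr G S + rk G S 2 := by
  set N : Submodule ℝ (V → V → ℝ) := triSpan G S ⊔ sqSpan G S with hN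
  set C : Submodule ℝ ((Fin 2 → {v // v ∈ S}) → ℝ) := Cyc G S 2 with hC
  set A : Submodule ℝ ((Fin 2 → {v // v ∈ S}) → ℝ) := C ⊓ N.comap (Th S) with hA
  obtain ⟨Q, hQ⟩ := Submodule.exists_isCompl A
  set Z : Submodule ℝ ((Fin 2 → {v // v ∈ S}) → ℝ) := Q ⊓ C with hZ
  have hpos : PosOn G S 2 Z := by
    refine ⟨fun z hz => hz.2, fun z hz h0 => svol_two (G := G) hz.2 fun hn => h0 ?_⟩
    have : z ∈ A ⊓ Q := ⟨⟨hz.2, hn⟩, hz.1⟩
    rw [hQ.inf_eq_bot, Submodule.mem_bot] at this
    exact this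
  have h1 := le_rk hpos
  have h2 : A ⊔ Z = C := by
    rw [hZ, ← sup_inf_assoc_of_le Q (inf_le_left : A ≤ C), hQ.sup_eq_top, top_inf_eq]
  have h3 := Submodule.finrank_add_le_finrank_add_finrank A Z
  rw [h2] at h3
  have hinj : ∀ D : Submodule ℝ ((Fin 2 → {v // v ∈ S}) → ℝ), D ≤ C →
      finrank ℝ (D.map (Th S)) = finrank ℝ D := by
    intro D hD
    have h4 := rank_null (Th S) D
    have h5 : D ⊓ LinearMap.ker (Th S) = ⊥ := by
      rw [eq_bot_iff]
      rintro z ⟨h6, h7⟩
      rw [Submodule.mem_bot]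
      exact Th_inj (G := G) (hD h6) h7
    rw [h5, finrank_bot] at h4
    omega
  have h4 : finrank ℝ A ≤ finrank ℝ N := by
    rw [← hinj A inf_le_left]
    refine Submodule.finrank_mono ?_
    rintro _ ⟨z, hz, rfl⟩
    exact hz.2
  have h5 : finrank ℝ N ≤ finrank ℝ (BB G (triv V) S ∅ 2) + sqr G S := by
    have h6 : finrank ℝ (triSpan G S) ≤ finrank ℝ (BB G (triv V) S ∅ 2) :=
      (Submodule.finrank_mono (by rw [triSpan_eq]; exact TS_le S)).trans
        (Submodule.finrank_map_le _ _)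
    unfold sqr
    rw [← hN]
    omega
  have h6 : finrank ℝ (ZZ G (triv V) S ∅ 2) ≤ finrank ℝ C :=
    (Cyc_rank (G := G) (p := 1) S).trans (Submodule.finrank_map_le _ _)
  unfold beta
  omega

end

end Pool.Agent.Helper41.SE
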