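import Pool.Agent.Helper41.SE.F8

/-!
The inequality between the Euler characteristic, the number of squares and the null classes.
-/

set_option autoImplicit false
set_option linter.unusedSectionVars false

open scoped Classical

namespace Pool.Agent.Helper41.SE

open Pool.Agent.W907.SG Pool.Agent.W907.SM Module Pool.Agent.TH652.Dual
open Pool.Agent.Helper41.SV (GA piA SqFree exists_cochain)
open Pool.Agent.Helper41.SD (beta0 beta0_le)
open Pool.Agent.Q134.SV (IsCyc pair push gen par Good cobd)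
open Pool.Agent.N13.QC (svol)
open Pool.Agent.W397.SG (rank_null)

variable {V : Type} [Fintype V] [LinearOrder V] {G : SimpleGraph V}

/-- the rank of the simplicial volume is at most the Betti number -/
theorem rk_le_beta (S : Set V) (p : ℕ) : rk G S p ≤ beta G (triv V) S ∅ p := by
  obtain ⟨Z, hZ, e⟩ := rk_mem G S p
  have hin : ∀ z ∈ Z, Lz p S z ∈ BB G (triv V) S ∅ p → z = 0 := by
    intro z hz hb
    by_contra hne
    obtain ⟨c, hc, hp⟩ := exists_good hZ hz hne
    apply hp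
    rw [← ell_Lz c (hZ.cyc z hz)]
    exact ell_BB ⟨hc.gen, hc.coc, hc.bdd⟩ hb
  have h1 := rank_null (Lz p S) Z
  have h2 : Z ⊓ LinearMap.ker (Lz p S) = ⊥ := by
    rw [eq_bot_iff]
    rintro z ⟨h3, h4⟩
    rw [Submodule.mem_bot]
    refine hin z h3 ?_
    rw [SetLike.mem_coe, LinearMap.mem_ker] at h4
    rw [h4]
    exact Submodule.zero_mem _
  rw [h2, finrank_bot, zero_add] at h1
  have h3 := Submodule.finrank_sup_add_finrank_inf_eq (Z.map (Lz p S)) (BB G (triv V) S ∅ p)
  have h4 : Z.map (Lz p S) ⊓ BB G (triv V) S ∅ p = ⊥ := by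
    rw [eq_bot_iff]
    rintro x ⟨h5, h6⟩
    obtain ⟨z, hz, rfl⟩ := h5
    rw [Submodule.mem_bot, hin z hz h6, map_zero]
  rw [h4, finrank_bot, add_zero] at h3
  have h5 : Z.map (Lz p S) ⊔ BB G (triv V) S ∅ p ≤ ZZ G (triv V) S ∅ p := by
    refine sup_le ?_ (BB_le_ZZ G (triv V) S ∅ p)
    rintro _ ⟨z, hz, rfl⟩
    exact Lz_mem (hZ.cyc z hz)
  have h6 := Submodule.finrank_mono h5
  unfold beta
  omega

theorem nul_two (S : Set V) : nul G S 2 ≤ sqr G S := by
  have := rk_two (G := G) S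
  unfold nul
  omega

theorem rk_zero {S : Set V} (hS : ∀ v, v ∉ S) : 1 ≤ rk G S 0 := by
  have h1 : PosOn G S 0 ⊤ := by
    refine ⟨?_, ?_⟩
    · intro z _
      exact ⟨fun v i => i.elim0, fun v _ i => i.elim0, fun v i => i.elim0⟩
    · intro z _ hz
      refine pos_of_bc (c := fun _ => 1) ⟨?_, ?_, ⟨1, fun _ => by simp⟩⟩ ?_
      · intro x
        exact absurd x.2 (hS x)
      · intro g
        unfold cobd
        rw [Fin.sum_univ_two]
        norm_num
      · intro h
        apply hz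
        unfold pair at h
        rw [Fintype.sum_eq_single (fun i => i.elim0) fun v hv => absurd (Subsingleton.elim v _) hv,
          mul_one] at h
        funext v
        rw [Subsingleton.elim v fun i => i.elim0]
        exact h
  have h2 := le_rk h1
  rw [finrank_top, Module.finrank_fintype_fun_eq_card] at h2
  have h3 : Fintype.card (Fin 0 → {v // v ∈ S}) = 1 := by simp
  rw [h3] at h2
  exact h2

theorem nul_zero (S : Set V) : nul G S 0 = 0 := by
  rcases S.eq_empty_or_nonempty with hS | hS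
  · have h2 := rk_zero (G := G) (S := S) (by rw [hS]; exact fun v => Set.notMem_empty v)
    have h4 := beta0_le (G := G) S
    unfold nul
    omega
  · unfold nul
    rw [beta0 hS, Nat.zero_sub]

theorem sum_low (n : ℕ) (S : Set V) :
    ∑ p ∈ degs n 0, nul G S p ≤ sqr G S + ∑ p ∈ evs n, nul G S p := by
  rw [← Finset.sum_filter_add_sum_filter_not (degs n 0) (fun p => 4 ≤ p)]
  have h1 : (degs n 0).filter (fun p => 4 ≤ p) = evs n := by
    unfold degs evs
    rw [Finset.filter_filter]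
  rw [h1, add_comm]
  refine Nat.add_le_add_right ?_ _
  have h2 : (degs n 0).filter (fun p => ¬ 4 ≤ p) ⊆ ({0, 2} : Finset ℕ) := by
    intro p hp
    unfold degs at hp
    simp only [Finset.mem_filter, Finset.mem_range] at hp
    rw [Finset.mem_insert, Finset.mem_singleton]
    omega
  refine (Finset.sum_le_sum_of_subset h2).trans ?_
  rw [Finset.sum_pair (by decide), nul_zero, zero_add]
  exact nul_two S

theorem even_bound {n : ℕ}
    (h : 2 * ((∑ A : Finset V, (sqr G (A : Set V) + ∑ p ∈ evs n, nul G (A : Set V) p) : ℕ) : ℚ) <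
      2 ^ Fintype.card V * chiW G +
        2 * ((∑ A : Finset V, ∑ p ∈ degs n 1, rk G (A : Set V) p : ℕ) : ℚ)) :
    2 * ((∑ A : Finset V, ∑ p ∈ degs n 0, nul G (A : Set V) p : ℕ) : ℚ) <
        (-1 : ℚ) ^ 0 * (2 ^ Fintype.card V * chiW G) +
          2 * ((∑ A : Finset V, ∑ p ∈ degs n (0 + 1), rk G (A : Set V) p : ℕ) : ℚ) := by
  have h1 : ∑ A : Finset V, ∑ p ∈ degs n 0, nul G (A : Set V) p ≤
      ∑ A : Finset V, (sqr G (A : Set V) + ∑ p ∈ evs n, nul G (A : Set V) p) :=
    Finset.sum_le_sum fun A _ => sum_low n _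
  have h2 : ((∑ A : Finset V, ∑ p ∈ degs n 0, nul G (A : Set V) p : ℕ) : ℚ) ≤
      ((∑ A : Finset V, (sqr G (A : Set V) + ∑ p ∈ evs n, nul G (A : Set V) p) : ℕ) : ℚ) := by
    exact_mod_cast h1
  rw [pow_zero, one_mul, zero_add]
  linarith

/-- The criterion for products of bounded classes of all degrees. -/
theorem main3 {V' : Type} [Fintype V'] (n : ℕ) (G' : SimpleGraph V') (f : V' → V)
    (hf : ∀ x y, G'.Adj x y → f x = f y ∨ G.Adj (f x) (f y)) (hS : Sph n G)
    (a : (Fin n → V') → ℝ) (ha : IsCyc n G' a) (h0 : push f a ≠ 0)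
    (h : (∃ (p q : ℕ) (S : Set V), p + q = n ∧ beta G (triv V) S ∅ p < rk G S p + rk G Sᶜ q) ∨
      (Even n ∧ ∃ e : ℕ, 2 * ((∑ S : Finset V, ∑ p ∈ degs n e, nul G (S : Set V) p : ℕ) : ℚ) <
        (-1 : ℚ) ^ e * (2 ^ Fintype.card V * chiW G) +
          2 * ((∑ S : Finset V, ∑ p ∈ degs n (e + 1), rk G (S : Set V) p : ℕ) : ℚ)) ∨
      (Even n ∧ 2 * ((∑ S : Finset V, (sqr G (S : Set V) + ∑ p ∈ evs n, nul G (S : Set V) p) :
          ℕ) : ℚ) < 2 ^ Fintype.card V * chiW G +
        2 * ((∑ S : Finset V, ∑ p ∈ degs n 1, rk G (S : Set V) p : ℕ) : ℚ))) :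
    ∃ c : ℝ, 0 < c ∧ ∀ H : Subgroup (W G'), H.index ≠ 0 → H ≤ (par G').ker →
      c * H.index ≤ svol G' n a H := by
  refine main2 n G' f hf hS a ha h0 ?_
  rcases h with h | h | ⟨hn, h⟩
  · exact Or.inl h
  · exact Or.inr h
  · exact Or.inr ⟨hn, 0, even_bound h⟩

end Pool.Agent.Helper41.SE
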